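import Pool.Agent.R286.MG.Stm

/-! MP_b01677_an, piece BUMP: the bump function and its integral representation. -/

set_option autoImplicit false

open MeasureTheory Set

namespace Pool.Agent.R286.MG

namespace BumpAux

/-- clamp to the unit interval -/
noncomputable def lam (x : ℝ) : ℝ := max 0 (min 1 x)

theorem lam_cont : Continuous lam := by
  unfold lam
  fun_prop

theorem lam_mono : Monotone lam := fun _ _ h => max_le_max le_rfl (min_le_min le_rfl h)

theorem lam_nonneg (x : ℝ) : 0 ≤ lam x := le_max_left _ _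

theorem lam_le_one (x : ℝ) : lam x ≤ 1 := max_le zero_le_one (min_le_left _ _)

theorem lam_of_nonpos {x : ℝ} (h : x ≤ 0) : lam x = 0 :=
  max_eq_left ((min_le_right _ _).trans h)

theorem lam_of_one_le {x : ℝ} (h : 1 ≤ x) : lam x = 1 := by
  unfold lam
  rw [min_eq_left h]
  exact max_eq_right zero_le_one

theorem lam_of_mem {x : ℝ} (h : 0 ≤ x) (h1 : x ≤ 1) : lam x = x := by
  unfold lam
  rw [min_eq_right h1]
  exact max_eq_right h

theorem lam_lip (a b : ℝ) : |lam a - lam b| ≤ |a - b| := by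
  rcases le_total a 0 with ha | ha
  · rw [lam_of_nonpos ha]
    rcases le_total b 0 with hb | hb
    · rw [lam_of_nonpos hb]
      simp
    · rw [abs_sub_comm, abs_sub_comm a b, sub_zero, abs_of_nonneg (lam_nonneg b),
        abs_of_nonneg (by linarith)]
      rcases le_total b 1 with hb1 | hb1
      · rw [lam_of_mem hb hb1]
        linarith
      · rw [lam_of_one_le hb1]
        linarith
  · rcases le_total a 1 with ha1 | ha1
    · rw [lam_of_mem ha ha1]
      rcases le_total b 0 with hb | hb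
      · rw [lam_of_nonpos hb, abs_of_nonneg (by linarith), abs_of_nonneg (by linarith)]
        linarith
      · rcases le_total b 1 with hb1 | hb1
        · rw [lam_of_mem hb hb1]
        · rw [lam_of_one_le hb1, abs_of_nonpos (by linarith), abs_of_nonpos (by linarith)]
          linarith
    · rw [lam_of_one_le ha1]
      rcases le_total b 0 with hb | hb
      · rw [lam_of_nonpos hb, abs_of_nonneg (by linarith), abs_of_nonneg (by linarith)]
        linarith
      · rcases le_total b 1 with hb1 | hb1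
        · rw [lam_of_mem hb hb1, abs_of_nonneg (by linarith), abs_of_nonneg (by linarith)]
          linarith
        · rw [lam_of_one_le hb1]
          simp

/-- the second difference -/
noncomputable def J (ρ u : ℝ) : ℝ := lam u - 2 * lam (u - ρ) + lam (u - 2 * ρ)

theorem J_cont : Continuous (fun p : ℝ × ℝ => J p.1 p.2) := by
  unfold J
  have := lam_cont
  fun_prop

theorem J_bd (ρ u : ℝ) : |J ρ u| ≤ 2 := by
  unfold J
  rw [abs_le]
  have h1 := lam_nonneg u
  have h2 := lam_nonneg (u - ρ)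
  have h3 := lam_nonneg (u - 2 * ρ)
  have h4 := lam_le_one u
  have h5 := lam_le_one (u - ρ)
  have h6 := lam_le_one (u - 2 * ρ)
  constructor <;> linarith

theorem J_lip (ρ s t : ℝ) : |J ρ s - J ρ t| ≤ 4 * |s - t| := by
  unfold J
  have e1 : lam s - 2 * lam (s - ρ) + lam (s - 2 * ρ) -
      (lam t - 2 * lam (t - ρ) + lam (t - 2 * ρ)) = (lam s - lam t) +
      (-(2 * (lam (s - ρ) - lam (t - ρ))) + (lam (s - 2 * ρ) - lam (t - 2 * ρ))) := by ring
  rw [e1]
  have h1 := lam_lip s t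
  have h2 := lam_lip (s - ρ) (t - ρ)
  have h3 := lam_lip (s - 2 * ρ) (t - 2 * ρ)
  rw [sub_sub_sub_cancel_right] at h2 h3
  calc _ ≤ |lam s - lam t| +
        |(-(2 * (lam (s - ρ) - lam (t - ρ))) + (lam (s - 2 * ρ) - lam (t - 2 * ρ)))| :=
        abs_add_le _ _
    _ ≤ |lam s - lam t| + (|-(2 * (lam (s - ρ) - lam (t - ρ)))| +
        |lam (s - 2 * ρ) - lam (t - 2 * ρ)|) := by
        gcongr
        exact abs_add_le _ _
    _ ≤ |s - t| + (2 * |s - t| + |s - t|) := by
        gcongr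
        rw [abs_neg, abs_mul, abs_of_pos (by norm_num : (0 : ℝ) < 2)]
        gcongr
    _ = _ := by ring

theorem inv_sq_le {ρ : ℝ} (h : ρ ∈ Icc (1 : ℝ) 2) : 0 ≤ (ρ ^ 2)⁻¹ ∧ (ρ ^ 2)⁻¹ ≤ 1 := by
  refine ⟨by positivity, inv_le_one_of_one_le₀ ?_⟩
  nlinarith [h.1]

theorem inv_cont : ContinuousOn (fun ρ : ℝ => (ρ ^ 2)⁻¹) (uIcc 1 2) := by
  rw [uIcc_of_le (by norm_num : (1 : ℝ) ≤ 2)]
  refine ContinuousOn.inv₀ (by fun_prop) fun ρ hρ => ?_
  have := hρ.1
  positivity

theorem ii (f : ℝ → ℝ) (hf : Continuous f) :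
    IntervalIntegrable (fun ρ : ℝ => (ρ ^ 2)⁻¹ * f ρ) volume 1 2 :=
  (inv_cont.mul hf.continuousOn).intervalIntegrable

/-- the derivative of the bump -/
noncomputable def kd (u : ℝ) : ℝ := ∫ ρ in (1 : ℝ)..2, (ρ ^ 2)⁻¹ * J ρ u

theorem Jc (u : ℝ) : Continuous (fun ρ => J ρ u) := J_cont.comp (by fun_prop : Continuous
  (fun ρ : ℝ => (ρ, u)))

theorem Jc2 (ρ : ℝ) : Continuous (fun u => J ρ u) := J_cont.comp (by fun_prop : Continuous
  (fun u : ℝ => (ρ, u)))

theorem kd_bd (u : ℝ) : |kd u| ≤ 2 := by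
  have := intervalIntegral.norm_integral_le_of_norm_le_const (a := (1 : ℝ)) (b := 2) (C := 2)
    (f := fun ρ => (ρ ^ 2)⁻¹ * J ρ u) (fun ρ hρ => by
      rw [uIoc_of_le (by norm_num : (1 : ℝ) ≤ 2)] at hρ
      have h1 := inv_sq_le ⟨hρ.1.le, hρ.2⟩
      rw [Real.norm_eq_abs, abs_mul, abs_of_nonneg h1.1]
      calc _ ≤ 1 * 2 := mul_le_mul h1.2 (J_bd _ _) (abs_nonneg _) zero_le_one
        _ = 2 := by norm_num)
  rw [Real.norm_eq_abs] at this
  refine this.trans ?_
  norm_num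

theorem kd_lip (s t : ℝ) : |kd s - kd t| ≤ 4 * |s - t| := by
  have e1 : kd s - kd t = ∫ ρ in (1 : ℝ)..2, ((ρ ^ 2)⁻¹ * J ρ s - (ρ ^ 2)⁻¹ * J ρ t) := by
    unfold kd
    rw [← intervalIntegral.integral_sub (ii _ (Jc s)) (ii _ (Jc t))]
  rw [e1]
  have := intervalIntegral.norm_integral_le_of_norm_le_const (a := (1 : ℝ)) (b := 2)
    (C := 4 * |s - t|)
    (f := fun ρ => (ρ ^ 2)⁻¹ * J ρ s - (ρ ^ 2)⁻¹ * J ρ t) (fun ρ hρ => by
      rw [uIoc_of_le (by norm_num : (1 : ℝ) ≤ 2)] at hρ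
      have h1 := inv_sq_le ⟨hρ.1.le, hρ.2⟩
      rw [Real.norm_eq_abs, ← mul_sub, abs_mul, abs_of_nonneg h1.1]
      calc _ ≤ 1 * (4 * |s - t|) := mul_le_mul h1.2 (J_lip _ _ _) (abs_nonneg _) zero_le_one
        _ = _ := by ring)
  rw [Real.norm_eq_abs] at this
  refine this.trans (le_of_eq ?_)
  norm_num

theorem kd_cont : Continuous kd := by
  have h1 : LipschitzWith 4 kd := by
    refine LipschitzWith.of_dist_le_mul fun s t => ?_
    rw [Real.dist_eq, Real.dist_eq]
    exact kd_lip s t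
  exact h1.continuous

theorem swap (F : ℝ → ℝ → ℝ) (hm : Measurable (Function.uncurry F)) (B a b c d : ℝ)
    (hab : a ≤ b) (hcd : c ≤ d) (hB : ∀ x ∈ Ioc a b, ∀ y ∈ Ioc c d, |F x y| ≤ B) :
    ∫ x in a..b, ∫ y in c..d, F x y = ∫ y in c..d, ∫ x in a..b, F x y := by
  simp only [intervalIntegral.integral_of_le hab, intervalIntegral.integral_of_le hcd]
  refine integral_integral_swap ?_
  rw [Measure.prod_restrict]
  refine Measure.integrableOn_of_bounded (M := B) ?_ hm.aestronglyMeasurable ?_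
  · rw [Measure.prod_prod]
    exact ENNReal.mul_ne_top (by simp) (by simp)
  · rw [ae_restrict_iff' (measurableSet_Ioc.prod measurableSet_Ioc)]
    refine Filter.Eventually.of_forall fun p hp => ?_
    rw [Real.norm_eq_abs]
    exact hB _ hp.1 _ hp.2


/-- primitive of the clamp -/
noncomputable def Lam (x : ℝ) : ℝ := ∫ u in (0 : ℝ)..x, lam u

theorem lam_ii (a b : ℝ) : IntervalIntegrable lam volume a b := lam_cont.intervalIntegrable a b

theorem Lam_of_nonpos {x : ℝ} (h : x ≤ 0) : Lam x = 0 := by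
  unfold Lam
  have h1 : ∫ u in (0 : ℝ)..x, lam u = ∫ u in (0 : ℝ)..x, (0 : ℝ) :=
    intervalIntegral.integral_congr fun u hu => by
      rw [uIcc_of_ge h] at hu
      exact lam_of_nonpos hu.2
  rw [h1]
  simp

theorem Lam_sub (a b : ℝ) : Lam b - Lam a = ∫ u in a..b, lam u :=
  intervalIntegral.integral_interval_sub_left (lam_ii _ _) (lam_ii _ _)

/-- integral of the second difference -/
theorem S_eq (ρ t : ℝ) (hρ : 0 ≤ ρ) :
    ∫ u in (0 : ℝ)..t, J ρ u = Lam t - 2 * Lam (t - ρ) + Lam (t - 2 * ρ) := by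
  unfold J
  have c1 : Continuous (fun u : ℝ => lam (u - ρ)) := lam_cont.comp (by fun_prop)
  have c2 : Continuous (fun u : ℝ => lam (u - 2 * ρ)) := lam_cont.comp (by fun_prop)
  have i0 : IntervalIntegrable (fun u : ℝ => 2 * lam (u - ρ)) volume 0 t :=
    (continuous_const.mul c1).intervalIntegrable _ _
  have i1 : IntervalIntegrable (fun u : ℝ => lam u - 2 * lam (u - ρ)) volume 0 t :=
    (lam_cont.sub (continuous_const.mul c1)).intervalIntegrable _ _
  rw [intervalIntegral.integral_add i1 (c2.intervalIntegrable _ _),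
    intervalIntegral.integral_sub (lam_ii _ _) i0,
    intervalIntegral.integral_const_mul,
    intervalIntegral.integral_comp_sub_right (fun u => lam u) ρ,
    intervalIntegral.integral_comp_sub_right (fun u => lam u) (2 * ρ),
    ← Lam_sub (0 - ρ) (t - ρ), ← Lam_sub (0 - 2 * ρ) (t - 2 * ρ),
    Lam_of_nonpos (x := 0 - ρ) (by linarith),
    Lam_of_nonpos (x := 0 - 2 * ρ) (by linarith)]
  unfold Lam
  ring

theorem S_bd (ρ t : ℝ) (hρ : 0 ≤ ρ) : 0 ≤ Lam t - 2 * Lam (t - ρ) + Lam (t - 2 * ρ) ∧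
    Lam t - 2 * Lam (t - ρ) + Lam (t - 2 * ρ) ≤ ρ := by
  have h1 : Lam t - Lam (t - ρ) = ∫ u in (t - ρ)..t, lam u := Lam_sub _ _
  have h2 : Lam (t - ρ) - Lam (t - 2 * ρ) = ∫ u in (t - ρ)..t, lam (u - ρ) := by
    rw [Lam_sub, intervalIntegral.integral_comp_sub_right (fun u => lam u) ρ]
    congr 1
    ring
  have hle : t - ρ ≤ t := by linarith
  have c1 : Continuous (fun u : ℝ => lam (u - ρ)) := lam_cont.comp (by fun_prop)
  have h3 : ∫ u in (t - ρ)..t, lam (u - ρ) ≤ ∫ u in (t - ρ)..t, lam u :=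
    intervalIntegral.integral_mono_on hle (c1.intervalIntegrable _ _) (lam_ii _ _)
      fun u _ => lam_mono (by linarith)
  have h4 : ∫ u in (t - ρ)..t, lam u ≤ ρ := by
    calc ∫ u in (t - ρ)..t, lam u ≤ ∫ _u in (t - ρ)..t, (1 : ℝ) :=
          intervalIntegral.integral_mono_on hle (lam_ii _ _) (by simp) fun u _ => lam_le_one u
      _ = ρ := by
          rw [intervalIntegral.integral_const, smul_eq_mul]
          ring
  have h5 : 0 ≤ ∫ u in (t - ρ)..t, lam (u - ρ) :=
    intervalIntegral.integral_nonneg hle fun u _ => lam_nonneg _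
  constructor <;> linarith

theorem S_zero_of_le (ρ t : ℝ) (hρ : 0 ≤ ρ) (ht : t ≤ 0) :
    Lam t - 2 * Lam (t - ρ) + Lam (t - 2 * ρ) = 0 := by
  rw [Lam_of_nonpos ht, Lam_of_nonpos (x := t - ρ) (by linarith),
    Lam_of_nonpos (x := t - 2 * ρ) (by linarith)]
  ring

theorem S_zero_of_ge (ρ t : ℝ) (hρ : ρ ∈ Icc (1 : ℝ) 2) (ht : 5 ≤ t) :
    Lam t - 2 * Lam (t - ρ) + Lam (t - 2 * ρ) = 0 := by
  have h0 : ∀ a b : ℝ, 1 ≤ a → a ≤ b → Lam b - Lam a = b - a := by
    intro a b ha hab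
    rw [Lam_sub]
    have h1 : ∫ u in a..b, lam u = ∫ _u in a..b, (1 : ℝ) :=
      intervalIntegral.integral_congr fun u hu => by
        rw [uIcc_of_le hab] at hu
        exact lam_of_one_le (ha.trans hu.1)
    rw [h1, intervalIntegral.integral_const, smul_eq_mul, mul_one]
  have h1 := h0 (t - ρ) t (by linarith [hρ.2]) (by linarith [hρ.1])
  have h2 := h0 (t - 2 * ρ) (t - ρ) (by linarith [hρ.2]) (by linarith [hρ.1])
  linarith

/-- the bump -/
noncomputable def kk (t : ℝ) : ℝ := ∫ u in (0 : ℝ)..t, kd u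

theorem J_of_nonpos (ρ u : ℝ) (hρ : 0 ≤ ρ) (hu : u ≤ 0) : J ρ u = 0 := by
  unfold J
  rw [lam_of_nonpos hu, lam_of_nonpos (x := u - ρ) (by linarith),
    lam_of_nonpos (x := u - 2 * ρ) (by linarith)]
  ring

theorem J_of_ge (ρ u : ℝ) (hρ : ρ ∈ Icc (1 : ℝ) 2) (hu : 5 ≤ u) : J ρ u = 0 := by
  unfold J
  rw [lam_of_one_le (x := u) (by linarith), lam_of_one_le (x := u - ρ) (by linarith [hρ.2]),
    lam_of_one_le (x := u - 2 * ρ) (by linarith [hρ.2])]
  ring

theorem kd_zero (u : ℝ) (hu : u ≤ 0 ∨ 5 ≤ u) : kd u = 0 := by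
  unfold kd
  have h1 : ∫ ρ in (1 : ℝ)..2, (ρ ^ 2)⁻¹ * J ρ u = ∫ ρ in (1 : ℝ)..2, (0 : ℝ) :=
    intervalIntegral.integral_congr fun ρ hρ => by
      rw [uIcc_of_le (by norm_num : (1 : ℝ) ≤ 2)] at hρ
      rcases hu with hu | hu
      · rw [J_of_nonpos ρ u (by linarith [hρ.1]) hu, mul_zero]
      · rw [J_of_ge ρ u hρ hu, mul_zero]
  rw [h1]
  simp

theorem kk_form (t : ℝ) : kk t = ∫ ρ in (1 : ℝ)..2,
    (ρ ^ 2)⁻¹ * (Lam t - 2 * Lam (t - ρ) + Lam (t - 2 * ρ)) := by
  rcases le_total t 0 with ht | ht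
  · have h1 : kk t = ∫ u in (0 : ℝ)..t, (0 : ℝ) :=
      intervalIntegral.integral_congr fun u hu => by
        rw [uIcc_of_ge ht] at hu
        exact kd_zero u (Or.inl hu.2)
    have h2 : ∫ ρ in (1 : ℝ)..2, (ρ ^ 2)⁻¹ * (Lam t - 2 * Lam (t - ρ) + Lam (t - 2 * ρ)) =
        ∫ ρ in (1 : ℝ)..2, (0 : ℝ) :=
      intervalIntegral.integral_congr fun ρ hρ => by
        rw [uIcc_of_le (by norm_num : (1 : ℝ) ≤ 2)] at hρ
        rw [S_zero_of_le ρ t (by linarith [hρ.1]) ht, mul_zero]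
    rw [h1, h2]
    simp
  · unfold kk kd
    rw [swap (fun u ρ => (ρ ^ 2)⁻¹ * J ρ u) ?_ 2 0 t 1 2 ht (by norm_num) ?_]
    · refine intervalIntegral.integral_congr fun ρ hρ => ?_
      rw [uIcc_of_le (by norm_num : (1 : ℝ) ≤ 2)] at hρ
      rw [intervalIntegral.integral_const_mul, S_eq ρ t (by linarith [hρ.1])]
    · have h1 : Measurable (fun p : ℝ × ℝ => (p.2 ^ 2)⁻¹) := by fun_prop
      have h2 : Continuous (fun p : ℝ × ℝ => J p.2 p.1) :=
        J_cont.comp (by fun_prop : Continuous (fun p : ℝ × ℝ => (p.2, p.1)))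
      exact h1.mul h2.measurable
    · intro u _ ρ hρ
      have h1 := inv_sq_le ⟨hρ.1.le, hρ.2⟩
      rw [abs_mul, abs_of_nonneg h1.1]
      calc _ ≤ 1 * 2 := mul_le_mul h1.2 (J_bd _ _) (abs_nonneg _) zero_le_one
        _ = 2 := by norm_num

theorem Lam_cont : Continuous Lam := by
  unfold Lam
  exact intervalIntegral.continuous_primitive (fun a b => lam_ii a b) 0

theorem S_cont (t : ℝ) :
    Continuous (fun ρ : ℝ => Lam t - 2 * Lam (t - ρ) + Lam (t - 2 * ρ)) := by
  have := Lam_cont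
  fun_prop

theorem kk_01 (t : ℝ) : 0 ≤ kk t ∧ kk t ≤ 1 := by
  rw [kk_form]
  constructor
  · refine intervalIntegral.integral_nonneg (by norm_num) fun ρ hρ => ?_
    exact mul_nonneg (inv_sq_le hρ).1 (S_bd ρ t (by linarith [hρ.1])).1
  · calc _ ≤ ∫ _ρ in (1 : ℝ)..2, (1 : ℝ) := by
          refine intervalIntegral.integral_mono_on (by norm_num) (ii _ (S_cont t)) (by simp)
            fun ρ hρ => ?_
          have h1 := S_bd ρ t (by linarith [hρ.1])
          have h2 : 0 < ρ := by linarith [hρ.1]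
          rw [inv_mul_le_iff₀ (by positivity), mul_one]
          nlinarith [hρ.1, h1.2]
      _ = 1 := by norm_num

theorem kk_zero (t : ℝ) (ht : t ≤ 0 ∨ 5 ≤ t) : kk t = 0 := by
  rw [kk_form]
  have h2 : ∫ ρ in (1 : ℝ)..2, (ρ ^ 2)⁻¹ * (Lam t - 2 * Lam (t - ρ) + Lam (t - 2 * ρ)) =
      ∫ ρ in (1 : ℝ)..2, (0 : ℝ) :=
    intervalIntegral.integral_congr fun ρ hρ => by
      rw [uIcc_of_le (by norm_num : (1 : ℝ) ≤ 2)] at hρ
      rcases ht with ht | ht
      · rw [S_zero_of_le ρ t (by linarith [hρ.1]) ht, mul_zero]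
      · rw [S_zero_of_ge ρ t hρ ht, mul_zero]
  rw [h2]
  simp

theorem kk_der (t : ℝ) : HasDerivAt kk (kd t) t :=
  intervalIntegral.integral_hasDerivAt_right (kd_cont.intervalIntegrable _ _)
    (kd_cont.stronglyMeasurableAtFilter _ _) kd_cont.continuousAt

theorem kk_pos : 0 < kk 1 := by
  rw [kk_form]
  have hL : Lam 1 = 1 / 2 := by
    unfold Lam
    have h1 : ∫ u in (0 : ℝ)..1, lam u = ∫ u in (0 : ℝ)..1, u :=
      intervalIntegral.integral_congr fun u hu => by
        rw [uIcc_of_le zero_le_one] at hu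
        exact lam_of_mem hu.1 hu.2
    rw [h1, integral_id]
    norm_num
  calc (0 : ℝ) < 1 / 8 := by norm_num
    _ = ∫ _ρ in (1 : ℝ)..2, (1 / 8 : ℝ) := by norm_num
    _ ≤ _ := by
      refine intervalIntegral.integral_mono_on (by norm_num) (by simp) (ii _ (S_cont 1))
        fun ρ hρ => ?_
      rw [Lam_of_nonpos (x := 1 - ρ) (by linarith [hρ.1]),
        Lam_of_nonpos (x := 1 - 2 * ρ) (by linarith [hρ.1]), hL]
      have h2 : 0 < ρ := by linarith [hρ.1]
      rw [inv_mul_eq_div, le_div_iff₀ (by positivity)]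
      nlinarith [hρ.1, hρ.2]

theorem kk_cont : Continuous kk := continuous_iff_continuousAt.2 fun t => (kk_der t).continuousAt

/-- indicator of a half line -/
noncomputable def st (a x : ℝ) : ℝ := if a < x then 1 else 0

theorem st_meas : Measurable (fun p : ℝ × ℝ => st p.1 p.2) :=
  Measurable.ite (measurableSet_lt measurable_fst measurable_snd) measurable_const measurable_const

theorem st_bd (a x : ℝ) : 0 ≤ st a x ∧ st a x ≤ 1 := by
  unfold st
  split_ifs <;> norm_num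

theorem bdd_ii (g : ℝ → ℝ) (hg : Measurable g) (B : ℝ) (hb : ∀ t, |g t| ≤ B) (a b : ℝ) :
    IntervalIntegrable g volume a b := by
  rw [intervalIntegrable_iff]
  refine Measure.integrableOn_of_bounded (M := B) ?_ hg.aestronglyMeasurable ?_
  · simp
  · exact Filter.Eventually.of_forall hb

theorem int_st (g : ℝ → ℝ) (hg : Measurable g) (hb : ∀ t, |g t| ≤ 1) (a : ℝ) (h0 : 0 ≤ a)
    (h5 : a ≤ 5) : ∫ u in (0 : ℝ)..5, g u * st a u = ∫ u in a..5, g u := by
  have hm : Measurable (fun u => g u * st a u) :=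
    hg.mul (st_meas.comp (by fun_prop : Measurable (fun u : ℝ => (a, u))))
  have hbd : ∀ u, |g u * st a u| ≤ 1 := by
    intro u
    rw [abs_mul, abs_of_nonneg (st_bd a u).1]
    calc _ ≤ (1 : ℝ) * 1 := mul_le_mul (hb u) (st_bd a u).2 (st_bd a u).1 zero_le_one
      _ = 1 := by norm_num
  rw [← intervalIntegral.integral_add_adjacent_intervals (bdd_ii _ hm 1 hbd 0 a)
    (bdd_ii _ hm 1 hbd a 5)]
  have h1 : ∫ u in (0 : ℝ)..a, g u * st a u = 0 := by
    rw [intervalIntegral.integral_of_le h0]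
    rw [setIntegral_congr_fun (g := fun _ => (0 : ℝ)) measurableSet_Ioc fun u hu => by
      simp only [st, not_lt.2 hu.2, if_false, mul_zero]]
    simp
  have h2 : ∫ u in a..5, g u * st a u = ∫ u in a..5, g u := by
    rw [intervalIntegral.integral_of_le h5, intervalIntegral.integral_of_le h5]
    exact setIntegral_congr_fun measurableSet_Ioc fun u hu => by
      simp only [st, hu.1, if_true, mul_one]
  rw [h1, h2, zero_add]

theorem int_lam (x : ℝ) : ∫ s in (0 : ℝ)..1, st s x = lam x := by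
  rcases le_total x 0 with hx | hx
  · rw [lam_of_nonpos hx, intervalIntegral.integral_of_le zero_le_one]
    rw [setIntegral_congr_fun (g := fun _ => (0 : ℝ)) measurableSet_Ioc fun u hu => by
      simp only [st, not_lt.2 (hx.trans hu.1.le), if_false]]
    simp
  · have hm : Measurable (fun s => st s x) :=
      st_meas.comp (by fun_prop : Measurable (fun s : ℝ => (s, x)))
    have hbd : ∀ s, |st s x| ≤ 1 := fun s => by
      rw [abs_of_nonneg (st_bd s x).1]
      exact (st_bd s x).2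
    have key : ∀ y : ℝ, 0 ≤ y → y ≤ x → ∫ s in (0 : ℝ)..y, st s x = y := by
      intro y hy hyx
      rw [intervalIntegral.integral_of_le hy, integral_Ioc_eq_integral_Ioo]
      rw [setIntegral_congr_fun (g := fun _ => (1 : ℝ)) measurableSet_Ioo fun u hu => by
        simp only [st, lt_of_lt_of_le hu.2 hyx, if_true]]
      simp [hy]
    rcases le_total x 1 with hx1 | hx1
    · rw [lam_of_mem hx hx1, ← intervalIntegral.integral_add_adjacent_intervals
        (bdd_ii _ hm 1 hbd 0 x) (bdd_ii _ hm 1 hbd x 1), key x hx le_rfl]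
      have h2 : ∫ s in x..1, st s x = 0 := by
        rw [intervalIntegral.integral_of_le hx1]
        rw [setIntegral_congr_fun (g := fun _ => (0 : ℝ)) measurableSet_Ioc fun u hu => by
          simp only [st, not_lt.2 hu.1.le, if_false]]
        simp
      rw [h2, add_zero]
    · rw [lam_of_one_le hx1]
      exact key 1 zero_le_one hx1

/-- the indicator form of the second difference -/
noncomputable def D (ρ s u : ℝ) : ℝ := st s u - 2 * st s (u - ρ) + st s (u - 2 * ρ)

theorem D_meas (ρ : ℝ) : Measurable (fun p : ℝ × ℝ => D ρ p.1 p.2) := by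
  unfold D
  exact (st_meas.sub ((st_meas.comp (by fun_prop :
    Measurable (fun p : ℝ × ℝ => (p.1, p.2 - ρ)))).const_mul 2)).add
    (st_meas.comp (by fun_prop : Measurable (fun p : ℝ × ℝ => (p.1, p.2 - 2 * ρ))))

theorem D_bd (ρ s u : ℝ) : |D ρ s u| ≤ 2 := by
  unfold D
  have h1 := st_bd s u
  have h2 := st_bd s (u - ρ)
  have h3 := st_bd s (u - 2 * ρ)
  rw [abs_le]
  constructor <;> linarith [h1.1, h1.2, h2.1, h2.2, h3.1, h3.2]

theorem int_D (ρ u : ℝ) : ∫ s in (0 : ℝ)..1, D ρ s u = J ρ u := by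
  unfold D J
  have hi : ∀ x : ℝ, IntervalIntegrable (fun s => st s x) volume 0 1 := fun x =>
    bdd_ii (fun s => st s x) (st_meas.comp (by fun_prop : Measurable (fun s : ℝ => (s, x)))) 1
      (fun s => by
        rw [abs_of_nonneg (st_bd s x).1]
        exact (st_bd s x).2) 0 1
  rw [intervalIntegral.integral_add ((hi _).sub ((hi _).const_mul 2)) (hi _),
    intervalIntegral.integral_sub (hi _) ((hi _).const_mul 2),
    intervalIntegral.integral_const_mul, int_lam, int_lam, int_lam]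

theorem st_shift (s u c : ℝ) : st s (u - c) = st (s + c) u := by
  unfold st
  simp only [lt_sub_iff_add_lt]

theorem A1_diff (g : ℝ → ℝ) (hg : Measurable g) (hb : ∀ t, |g t| ≤ 1) (ρ s : ℝ)
    (hρ : ρ ∈ Icc (1 : ℝ) 2) (hs : s ∈ Icc (0 : ℝ) 1) :
    A1 ρ g s - A1 ρ g (s + ρ) = ρ⁻¹ * ∫ u in (0 : ℝ)..5, g u * D ρ s u := by
  have hi := bdd_ii g hg 1 hb
  have e1 : A1 ρ g s = ρ⁻¹ * ∫ u in s..(s + ρ), g u := by
    unfold A1
    rw [intervalIntegral.integral_comp_add_left (fun u => g u) s, add_zero]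
  have e2 : A1 ρ g (s + ρ) = ρ⁻¹ * ∫ u in (s + ρ)..(s + 2 * ρ), g u := by
    unfold A1
    rw [intervalIntegral.integral_comp_add_left (fun u => g u) (s + ρ), add_zero]
    congr 2
    ring
  have hm : ∀ a, Measurable (fun u => g u * st a u) := fun a =>
    hg.mul (st_meas.comp (by fun_prop : Measurable (fun u : ℝ => (a, u))))
  have hbd : ∀ a u, |g u * st a u| ≤ 1 := by
    intro a u
    rw [abs_mul, abs_of_nonneg (st_bd a u).1]
    calc _ ≤ (1 : ℝ) * 1 := mul_le_mul (hb u) (st_bd a u).2 (st_bd a u).1 zero_le_one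
      _ = 1 := by norm_num
  have hii : ∀ a, IntervalIntegrable (fun u => g u * st a u) volume 0 5 := fun a =>
    bdd_ii _ (hm a) 1 (hbd a) 0 5
  have e3 : ∫ u in (0 : ℝ)..5, g u * D ρ s u =
      (∫ u in (0 : ℝ)..5, g u * st s u) - 2 * (∫ u in (0 : ℝ)..5, g u * st (s + ρ) u) +
        ∫ u in (0 : ℝ)..5, g u * st (s + 2 * ρ) u := by
    rw [← intervalIntegral.integral_const_mul,
      ← intervalIntegral.integral_sub (hii _) ((hii _).const_mul 2),
      ← intervalIntegral.integral_add ((hii _).sub ((hii _).const_mul 2)) (hii _)]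
    refine intervalIntegral.integral_congr fun u _ => ?_
    simp only [D, st_shift]
    ring
  rw [e1, e2, e3, int_st g hg hb s hs.1 (by linarith [hs.2]),
    int_st g hg hb (s + ρ) (by linarith [hs.1, hρ.1]) (by linarith [hs.2, hρ.2]),
    int_st g hg hb (s + 2 * ρ) (by linarith [hs.1, hρ.1]) (by linarith [hs.2, hρ.2]), ← mul_sub]
  congr 1
  have e4 := intervalIntegral.integral_add_adjacent_intervals (hi s (s + ρ)) (hi (s + ρ) 5)
  have e5 := intervalIntegral.integral_add_adjacent_intervals (hi (s + ρ) (s + 2 * ρ))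
    (hi (s + 2 * ρ) 5)
  linarith

theorem rep (g : ℝ → ℝ) (hg : Measurable g) (hb : ∀ t, |g t| ≤ 1) :
    ∫ t in (0 : ℝ)..5, g t * kd t =
      ∫ ρ in (1 : ℝ)..2, ρ⁻¹ * ∫ s in (0 : ℝ)..1, (A1 ρ g s - A1 ρ g (s + ρ)) := by
  have h12 : (1 : ℝ) ≤ 2 := by norm_num
  have h05 : (0 : ℝ) ≤ 5 := by norm_num
  have e1 : ∫ t in (0 : ℝ)..5, g t * kd t =
      ∫ t in (0 : ℝ)..5, ∫ ρ in (1 : ℝ)..2, g t * ((ρ ^ 2)⁻¹ * J ρ t) := by
    refine intervalIntegral.integral_congr fun t _ => ?_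
    rw [intervalIntegral.integral_const_mul]
    rfl
  rw [e1, swap (fun t ρ => g t * ((ρ ^ 2)⁻¹ * J ρ t)) ?_ 2 0 5 1 2 h05 h12 ?_]
  · refine intervalIntegral.integral_congr fun ρ hρ => ?_
    rw [uIcc_of_le h12] at hρ
    have hρ0 : ρ ≠ 0 := by
      have := hρ.1
      positivity
    have e2 : ∫ s in (0 : ℝ)..1, (A1 ρ g s - A1 ρ g (s + ρ)) =
        ρ⁻¹ * ∫ u in (0 : ℝ)..5, g u * J ρ u := by
      have e3 : ∫ s in (0 : ℝ)..1, (A1 ρ g s - A1 ρ g (s + ρ)) =
          ∫ s in (0 : ℝ)..1, ρ⁻¹ * ∫ u in (0 : ℝ)..5, g u * D ρ s u :=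
        intervalIntegral.integral_congr fun s hs => by
          rw [uIcc_of_le zero_le_one] at hs
          exact A1_diff g hg hb ρ s hρ hs
      rw [e3, intervalIntegral.integral_const_mul,
        swap (fun s u => g u * D ρ s u) ?_ 2 0 1 0 5 zero_le_one h05 ?_]
      · congr 1
        refine intervalIntegral.integral_congr fun u _ => ?_
        rw [intervalIntegral.integral_const_mul, int_D]
      · exact (hg.comp measurable_snd).mul (D_meas ρ)
      · intro s _ u _
        rw [abs_mul]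
        calc _ ≤ (1 : ℝ) * 2 := mul_le_mul (hb u) (D_bd _ _ _) (abs_nonneg _) zero_le_one
          _ = 2 := by norm_num
    rw [e2, ← mul_assoc, ← intervalIntegral.integral_const_mul]
    have e4 : (fun t => g t * ((ρ ^ 2)⁻¹ * J ρ t)) = fun t => (ρ⁻¹ * ρ⁻¹) * (g t * J ρ t) := by
      funext t
      rw [sq, mul_inv]
      ring
    rw [e4]
  · have h1 : Measurable (fun p : ℝ × ℝ => (p.2 ^ 2)⁻¹) := by fun_prop
    have h2 : Continuous (fun p : ℝ × ℝ => J p.2 p.1) :=
      J_cont.comp (by fun_prop : Continuous (fun p : ℝ × ℝ => (p.2, p.1)))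
    exact (hg.comp measurable_fst).mul (h1.mul h2.measurable)
  · intro t _ ρ hρ
    have h1 := inv_sq_le ⟨hρ.1.le, hρ.2⟩
    rw [abs_mul, abs_mul, abs_of_nonneg h1.1]
    calc _ ≤ (1 : ℝ) * (1 * 2) := mul_le_mul (hb t)
          (mul_le_mul h1.2 (J_bd _ _) (abs_nonneg _) zero_le_one)
          (mul_nonneg h1.1 (abs_nonneg _)) zero_le_one
      _ = 2 := by norm_num

end BumpAux

open BumpAux

theorem bump : StBump := by
  refine ⟨kk, kd, 4, ⟨by norm_num, kk_01, fun t ht => ⟨kk_zero t ht, kd_zero t ht⟩, kk_der,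
    fun t => (kd_bd t).trans (by norm_num), kd_lip, ?_, rep⟩⟩
  refine intervalIntegral.integral_pos (by norm_num) (kk_cont.pow 2).continuousOn
    (fun t _ => sq_nonneg _) ⟨1, by norm_num, ?_⟩
  have := kk_pos
  positivity

end Pool.Agent.R286.MG
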