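import Pool.Agent.R286.MG.Stm

/-!
# MG-CELL: in one cell a continuous density can be replaced by a set

`cell_of_il : StIL d → StCell d`, the iteration of the improvement step.
-/

set_option autoImplicit false

open MeasureTheory Finset Filter Topology

namespace Pool.Agent.R286.MG.CellAux

/-- an `L²`-Cauchy sequence with values in `[0,1]` has an a.e. convergent subsequence -/
theorem l2_lim {α : Type*} [MeasurableSpace α] (μ : Measure α) [IsFiniteMeasure μ]
    (v : ℕ → α → ℝ) (hv : ∀ n, Measurable (v n)) (h01 : ∀ n y, 0 ≤ v n y ∧ v n y ≤ 1)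
    (a : ℕ → ℝ) (ha : Tendsto a atTop (𝓝 0))
    (hc : ∀ n m, n ≤ m → ∫ y, (v m y - v n y) ^ 2 ∂μ ≤ a n) :
    ∃ (ns : ℕ → ℕ) (g : α → ℝ), StrictMono ns ∧ Measurable g ∧
      ∀ᵐ y ∂μ, Tendsto (fun i => v (ns i) y) atTop (𝓝 (g y)) := by
  have hmem : ∀ n, MemLp (v n) 2 μ := fun n =>
    MemLp.of_bound (hv n).aestronglyMeasurable 1 (Eventually.of_forall fun y => by
      rw [Real.norm_eq_abs, abs_of_nonneg (h01 n y).1]; exact (h01 n y).2)
  let F : ℕ → Lp ℝ 2 μ := fun n => (hmem n).toLp
  have hdist : ∀ n m, n ≤ m → dist (F m) (F n) ^ 2 ≤ a n := by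
    intro n m hnm
    refine le_trans (le_of_eq ?_) (hc n m hnm)
    rw [dist_eq_norm, ← real_inner_self_eq_norm_sq, MeasureTheory.L2.inner_def]
    apply integral_congr_ae
    filter_upwards [(hmem m).coeFn_toLp, (hmem n).coeFn_toLp, Lp.coeFn_sub (F m) (F n)]
      with y h1 h2 h3
    rw [h3, Pi.sub_apply, h1, h2]
    simp only [real_inner_self_eq_norm_sq, Real.norm_eq_abs, sq_abs]
  have hcau : CauchySeq F := by
    rw [Metric.cauchySeq_iff']
    intro ε hε
    have h1 : ∀ᶠ n in atTop, a n < ε ^ 2 := ha.eventually (gt_mem_nhds (by positivity))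
    obtain ⟨N, hN⟩ := h1.exists
    refine ⟨N, fun n hn => ?_⟩
    have h2 := hdist N n hn
    by_contra h3
    push Not at h3
    have : ε ^ 2 ≤ dist (F n) (F N) ^ 2 := by gcongr
    linarith
  obtain ⟨G, hG⟩ := cauchySeq_tendsto_of_complete hcau
  have h1 : TendstoInMeasure μ (fun n => (F n : α → ℝ)) atTop (G : α → ℝ) :=
    tendstoInMeasure_of_tendsto_Lp hG
  obtain ⟨ns, hns, hns'⟩ := h1.exists_seq_tendsto_ae
  refine ⟨ns, (Lp.aestronglyMeasurable G).mk _, hns,
    (Lp.aestronglyMeasurable G).stronglyMeasurable_mk.measurable, ?_⟩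
  have h2 : ∀ᵐ y ∂μ, ∀ n, F n y = v n y := by
    rw [ae_all_iff]; exact fun n => (hmem n).coeFn_toLp
  filter_upwards [hns', h2, (Lp.aestronglyMeasurable G).ae_eq_mk] with y h3 h4 h5
  rw [← h5]
  simpa only [h4] using h3

theorem int_bdd {α : Type*} [MeasurableSpace α] {μ : Measure α} [IsFiniteMeasure μ] {f : α → ℝ}
    (hf : Measurable f) (C : ℝ) (hC : ∀ y, |f y| ≤ C) : Integrable f μ :=
  Integrable.of_bound hf.aestronglyMeasurable C (ae_of_all _ hC)

theorem cell_eq {d : ℕ} (k : Fin d → ℤ) :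
    cell k = Set.pi Set.univ (fun i => Set.Ico (k i : ℝ) ((k i : ℝ) + 1)) := by
  ext y
  simp [cell]

theorem measurableSet_cell {d : ℕ} (k : Fin d → ℤ) : MeasurableSet (cell k) := by
  rw [cell_eq]
  exact MeasurableSet.univ_pi fun i => measurableSet_Ico

theorem cell_bdd {d : ℕ} (k : Fin d → ℤ) : Bornology.IsBounded (cell k) := by
  refine (Metric.isBounded_Icc (fun i => (k i : ℝ)) (fun i => (k i : ℝ) + 1)).subset ?_
  intro y hy
  exact ⟨fun i => (hy i).1, fun i => (hy i).2.le⟩

/-- continuous with values in `[0,1]` -/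
def Good {d : ℕ} (v : Pt d → ℝ) : Prop := Continuous v ∧ ∀ y, 0 ≤ v y ∧ v y ≤ 1

/-- the relation between the history `F` up to time `l` and the next function `v'` -/
structure Rel {d : ℕ} (E : Set (Pt d)) (k : Fin d → ℤ) (c0 : ℝ) (e : ℕ → ℝ) (l : ℕ)
    (F : ℕ → Pt d → ℝ) (v' : Pt d → ℝ) : Prop where
  good : Good v'
  off : ∀ y, y ∉ cell k → v' y = F l y
  t0 : |∫ y in cell k, (v' y - F l y)| ≤ e l
  t1 : ∀ i, i ≤ l → |∫ y in cell k, (v' y - F l y) * F i y| ≤ e l
  en : c0 * (∫ y in cell k, (min (F l y) (1 - F l y)) ^ 2) - e l ≤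
    ∫ y in cell k, (v' y - F l y) ^ 2
  p : ∀ r : ℝ, 1 ≤ r → ∀ x x' : Pt d, |P E (fun y => v' y - F l y) r x -
    P E (fun y => v' y - F l y) r x'| ≤ e l * r ^ (d - 1) * ‖x - x'‖

theorem Rel.congr {d : ℕ} {E : Set (Pt d)} {k : Fin d → ℤ} {c0 : ℝ} {e : ℕ → ℝ} {l : ℕ}
    {F G : ℕ → Pt d → ℝ} {v' : Pt d → ℝ} (h : Rel E k c0 e l F v') (hFG : ∀ i, i ≤ l → F i = G i) :
    Rel E k c0 e l G v' := by
  have h1 : F l = G l := hFG l le_rfl
  refine ⟨h.good, ?_, ?_, ?_, ?_, ?_⟩
  · rw [← h1]; exact h.off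
  · rw [← h1]; exact h.t0
  · intro i hi
    rw [← h1, ← hFG i hi]; exact h.t1 i hi
  · rw [← h1]; exact h.en
  · rw [← h1]; exact h.p

/-- the sequence -/
theorem exists_seq {d : ℕ} (E : Set (Pt d)) (k : Fin d → ℤ) (c0 : ℝ) (e : ℕ → ℝ)
    (step : ∀ (l : ℕ) (F : ℕ → Pt d → ℝ), (∀ i, Good (F i)) → ∃ v', Rel E k c0 e l F v')
    (v : Pt d → ℝ) (hv : Good v) :
    ∃ s : ℕ → Pt d → ℝ, s 0 = v ∧ (∀ l, Good (s l)) ∧ ∀ l, Rel E k c0 e l s (s (l + 1)) := by
  let hist : ℕ → {F : ℕ → Pt d → ℝ // ∀ i, Good (F i)} := fun n =>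
    Nat.rec ⟨fun _ => v, fun _ => hv⟩ (fun l H =>
      ⟨Function.update H.1 (l + 1) (Classical.choose (step l H.1 H.2)), fun i => by
        by_cases hi : i = l + 1
        · subst hi
          rw [Function.update_self]
          exact (Classical.choose_spec (step l H.1 H.2)).good
        · rw [Function.update_of_ne hi]
          exact H.2 i⟩) n
  have hsucc : ∀ l, (hist (l + 1)).1 = Function.update (hist l).1 (l + 1)
      (Classical.choose (step l (hist l).1 (hist l).2)) := fun l => rfl
  have hstab : ∀ l i, i ≤ l → (hist l).1 i = (hist i).1 i := by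
    intro l
    induction l with
    | zero => intro i hi; obtain rfl : i = 0 := by omega
              rfl
    | succ l ih =>
      intro i hi
      rcases Nat.lt_or_ge i (l + 1) with h1 | h1
      · rw [hsucc, Function.update_of_ne (by omega)]
        exact ih i (by omega)
      · obtain rfl : i = l + 1 := by omega
        rfl
  refine ⟨fun i => (hist i).1 i, rfl, fun l => (hist l).2 l, fun l => ?_⟩
  have h1 := Classical.choose_spec (step l (hist l).1 (hist l).2)
  have h2 : (hist (l + 1)).1 (l + 1) = Classical.choose (step l (hist l).1 (hist l).2) := by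
    rw [hsucc, Function.update_self]
  simp only []
  rw [h2]
  exact h1.congr (fun i hi => hstab l i hi)

/-- a.e. properties are preserved by `y ↦ x + r y` -/
theorem ae_affine {d : ℕ} {p : Pt d → Prop} (h : ∀ᵐ z ∂(volume : Measure (Pt d)), p z) {r : ℝ}
    (hr : r ≠ 0) (x : Pt d) : ∀ᵐ y ∂(volume : Measure (Pt d)), p (x + r • y) := by
  rw [ae_iff] at h ⊢
  have h1 : {y : Pt d | ¬ p (x + r • y)} = (fun y => r • y) ⁻¹' ((fun z => x + z) ⁻¹' {z | ¬ p z}) :=
    rfl
  rw [h1, Measure.addHaar_preimage_smul _ hr, measure_preimage_add, h, mul_zero]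

theorem P_add {d : ℕ} {E : Set (Pt d)} (hEb : Bornology.IsBounded E) {a b : Pt d → ℝ}
    (ha : Measurable a) (hb : Measurable b) (Ca Cb : ℝ) (hCa : ∀ y, |a y| ≤ Ca)
    (hCb : ∀ y, |b y| ≤ Cb) (r : ℝ) (x : Pt d) :
    P E (fun y => a y + b y) r x = P E a r x + P E b r x := by
  have : IsFiniteMeasure ((volume : Measure (Pt d)).restrict E) :=
    ⟨by rw [Measure.restrict_apply_univ]; exact hEb.measure_lt_top⟩
  have hm : Measurable (fun y : Pt d => x + r • y) := by fun_prop
  unfold P
  rw [integral_add, mul_add]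
  · exact int_bdd (ha.comp hm) Ca fun y => hCa _
  · exact int_bdd (hb.comp hm) Cb fun y => hCb _

section analysis

variable {α : Type*} [MeasurableSpace α]

theorem int4 {μ : Measure α} {f1 f2 f3 f4 : α → ℝ} (h1 : Integrable f1 μ) (h2 : Integrable f2 μ)
    (h3 : Integrable f3 μ) (h4 : Integrable f4 μ) (c2 c3 c4 : ℝ) :
    ∫ y, (f1 y + c2 * f2 y + c3 * f3 y + c4 * f4 y) ∂μ =
      ∫ y, f1 y ∂μ + c2 * ∫ y, f2 y ∂μ + c3 * ∫ y, f3 y ∂μ + c4 * ∫ y, f4 y ∂μ := by
  have h12 : Integrable (fun y => f1 y + c2 * f2 y) μ := h1.add (h2.const_mul c2)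
  have h123 : Integrable (fun y => f1 y + c2 * f2 y + c3 * f3 y) μ := h12.add (h3.const_mul c3)
  rw [integral_add h123 (h4.const_mul c4), integral_add h12 (h3.const_mul c3),
    integral_add h1 (h2.const_mul c2), integral_const_mul, integral_const_mul, integral_const_mul]

/-- the abstract convergence statement: nearly orthogonal increments with a large energy -/
theorem converge (μ : Measure α) [IsFiniteMeasure μ] (s : ℕ → α → ℝ) (hs : ∀ n, Measurable (s n))
    (h01 : ∀ n y, 0 ≤ s n y ∧ s n y ≤ 1) (e : ℕ → ℝ) (he0 : ∀ n, 0 ≤ e n) (he : Summable e)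
    (t0 : ∀ l, |∫ y, (s (l + 1) y - s l y) ∂μ| ≤ e l)
    (t1 : ∀ l i, i ≤ l → |∫ y, (s (l + 1) y - s l y) * s i y ∂μ| ≤ e l)
    (c0 : ℝ) (hc0 : 0 < c0)
    (en : ∀ l, c0 * (∫ y, (min (s l y) (1 - s l y)) ^ 2 ∂μ) - e l ≤
      ∫ y, (s (l + 1) y - s l y) ^ 2 ∂μ) :
    ∃ (ns : ℕ → ℕ) (g : α → ℝ), StrictMono ns ∧ Measurable g ∧
      (∀ᵐ y ∂μ, Tendsto (fun i => s (ns i) y) atTop (𝓝 (g y))) ∧
      ∀ᵐ y ∂μ, g y = 0 ∨ g y = 1 := by
  have hd : ∀ n m y, |s m y - s n y| ≤ 1 := by
    intro n m y
    have h1 := h01 n y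
    have h2 := h01 m y
    rw [abs_le]
    constructor <;> linarith
  have hsm : ∀ n m, Measurable (fun y => s m y - s n y) := fun n m => (hs m).sub (hs n)
  have habs : ∀ n y, |s n y| ≤ 1 := fun n y => by
    rw [abs_of_nonneg (h01 n y).1]; exact (h01 n y).2
  have hint1 : ∀ n m, Integrable (fun y => s m y - s n y) μ := fun n m =>
    int_bdd (hsm n m) 1 (hd n m)
  have hint2 : ∀ n m, Integrable (fun y => (s m y - s n y) ^ 2) μ := fun n m =>
    int_bdd ((hsm n m).pow_const 2) 1 fun y => by
      rw [abs_pow]; exact pow_le_one₀ (abs_nonneg _) (hd n m y)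
  have hint3 : ∀ n m i, Integrable (fun y => (s m y - s n y) * s i y) μ := fun n m i =>
    int_bdd ((hsm n m).mul (hs i)) 1 fun y => by
      rw [abs_mul]; exact mul_le_one₀ (hd n m y) (abs_nonneg _) (habs i y)
  have hint4 : ∀ n, Integrable (fun y => s n y * (1 - s n y)) μ := fun n =>
    int_bdd ((hs n).mul (measurable_const.sub (hs n))) 1 fun y => by
      rw [abs_mul]
      refine mul_le_one₀ (habs n y) (abs_nonneg _) ?_
      rw [abs_le]; constructor <;> linarith [(h01 n y).1, (h01 n y).2]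
  set B : ℕ → ℝ := fun l => ∫ y, (s (l + 1) y - s l y) ^ 2 ∂μ with hB
  have hB0 : ∀ l, 0 ≤ B l := fun l => integral_nonneg fun y => sq_nonneg _
  set X : ℕ → ℝ := fun l => ∫ y, s l y * (1 - s l y) ∂μ with hX
  have hX0 : ∀ l, 0 ≤ X l := fun l => integral_nonneg fun y =>
    mul_nonneg (h01 l y).1 (by linarith [(h01 l y).2])
  have hXs : ∀ l, X (l + 1) ≤ X l + 3 * e l - B l := by
    intro l
    have h1 : X (l + 1) = X l + 1 * (∫ y, (s (l + 1) y - s l y) ∂μ) +
        (-2) * (∫ y, (s (l + 1) y - s l y) * s l y ∂μ) + (-1) * B l := by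
      rw [hX, hB]
      simp only []
      rw [← int4 (hint4 l) (hint1 l (l + 1)) (hint3 l (l + 1) l) (hint2 l (l + 1))]
      congr 1
      ext y
      ring
    have h2 := t0 l
    have h3 := t1 l l le_rfl
    rw [abs_le] at h2 h3
    linarith
  have hsumB : Summable B := by
    apply summable_of_sum_range_le (c := X 0 + 3 * ∑' l, e l) hB0
    intro n
    have h1 : ∀ n, ∑ l ∈ range n, B l ≤ X 0 - X n + 3 * ∑ l ∈ range n, e l := by
      intro n
      induction n with
      | zero => simp
      | succ n ih =>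
        rw [sum_range_succ, sum_range_succ]
        have := hXs n
        linarith
    have h2 := h1 n
    have h3 := hX0 n
    have h4 : ∑ l ∈ range n, e l ≤ ∑' l, e l := he.sum_le_tsum _ (fun i _ => he0 i)
    linarith
  have hD : ∀ n m, n ≤ m → ∫ y, (s m y - s n y) ^ 2 ∂μ ≤
      ∑ l ∈ range m, (4 * e l + B l) - ∑ l ∈ range n, (4 * e l + B l) := by
    intro n m hnm
    induction m, hnm using Nat.le_induction with
    | base => simp
    | succ m hnm ih =>
      rw [sum_range_succ]
      have h1 : ∫ y, (s (m + 1) y - s n y) ^ 2 ∂μ = (∫ y, (s m y - s n y) ^ 2 ∂μ) +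
          2 * (∫ y, (s (m + 1) y - s m y) * s m y ∂μ) +
          (-2) * (∫ y, (s (m + 1) y - s m y) * s n y ∂μ) + 1 * B m := by
        rw [hB]
        simp only []
        rw [← int4 (hint2 n m) (hint3 m (m + 1) m) (hint3 m (m + 1) n) (hint2 m (m + 1))]
        congr 1
        ext y
        ring
      have h2 := t1 m m le_rfl
      have h3 := t1 m n hnm
      rw [abs_le] at h2 h3
      rw [h1]
      linarith
  have hsumc : Summable (fun l => 4 * e l + B l) := (he.mul_left 4).add hsumB
  obtain ⟨ns, g, hns, hg, hlim⟩ := l2_lim μ s hs h01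
    (fun n => (∑' l, (4 * e l + B l)) - ∑ l ∈ range n, (4 * e l + B l))
    (by
      have := (tendsto_const_nhds (x := ∑' l, (4 * e l + B l))).sub hsumc.hasSum.tendsto_sum_nat
      simpa using this)
    (by
      intro n m hnm
      have h1 := hD n m hnm
      have h2 : ∑ l ∈ range m, (4 * e l + B l) ≤ ∑' l, (4 * e l + B l) :=
        hsumc.sum_le_tsum _ (fun i _ => by have := he0 i; have := hB0 i; positivity)
      linarith)
  refine ⟨ns, g, hns, hg, hlim, ?_⟩
  have hmin : ∀ n, Measurable (fun y => (min (s n y) (1 - s n y)) ^ 2) := fun n =>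
    ((hs n).min (measurable_const.sub (hs n))).pow_const 2
  have hT1 : Tendsto (fun i => ∫ y, (min (s (ns i) y) (1 - s (ns i) y)) ^ 2 ∂μ) atTop
      (𝓝 (∫ y, (min (g y) (1 - g y)) ^ 2 ∂μ)) := by
    apply tendsto_integral_of_dominated_convergence (fun _ => (1 : ℝ))
    · exact fun n => (hmin _).aestronglyMeasurable
    · exact integrable_const _
    · intro n
      refine ae_of_all _ fun y => ?_
      have h1 := h01 (ns n) y
      rw [Real.norm_eq_abs, abs_pow, abs_of_nonneg (le_min h1.1 (by linarith))]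
      exact pow_le_one₀ (le_min h1.1 (by linarith)) ((min_le_left _ _).trans h1.2)
    · filter_upwards [hlim] with y hy
      exact (hy.min (tendsto_const_nhds.sub hy)).pow 2
  have hT2 : Tendsto (fun i => (B (ns i) + e (ns i)) / c0) atTop (𝓝 0) := by
    have h1 := (hsumB.tendsto_atTop_zero.add he.tendsto_atTop_zero).comp hns.tendsto_atTop
    have h2 := h1.div_const c0
    simpa using h2
  have hle : ∫ y, (min (g y) (1 - g y)) ^ 2 ∂μ ≤ 0 := by
    refine le_of_tendsto_of_tendsto' hT1 hT2 fun i => ?_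
    rw [le_div_iff₀ hc0]
    have := en (ns i)
    simp only [hB]
    linarith
  have hg01 : ∀ᵐ y ∂μ, 0 ≤ g y ∧ g y ≤ 1 := by
    filter_upwards [hlim] with y hy
    exact ⟨ge_of_tendsto' hy fun i => (h01 _ y).1, le_of_tendsto' hy fun i => (h01 _ y).2⟩
  have hint5 : Integrable (fun y => (min (g y) (1 - g y)) ^ 2) μ := by
    refine Integrable.of_bound ((hg.min (measurable_const.sub hg)).pow_const 2).aestronglyMeasurable
      1 ?_
    filter_upwards [hg01] with y h1
    rw [Real.norm_eq_abs, abs_pow, abs_of_nonneg (le_min h1.1 (by linarith))]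
    exact pow_le_one₀ (le_min h1.1 (by linarith)) ((min_le_left _ _).trans h1.2)
  have h0 : ∫ y, (min (g y) (1 - g y)) ^ 2 ∂μ = 0 :=
    le_antisymm hle (integral_nonneg fun y => sq_nonneg _)
  rw [integral_eq_zero_iff_of_nonneg (fun y => sq_nonneg _) hint5] at h0
  filter_upwards [h0, hg01] with y h1 h2
  have h3 : min (g y) (1 - g y) = 0 := by
    have : (min (g y) (1 - g y)) ^ 2 = 0 := h1
    exact pow_eq_zero_iff (two_ne_zero) |>.1 this
  rcases min_choice (g y) (1 - g y) with h4 | h4
  · left; rw [← h4]; exact h3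
  · right; rw [h4] at h3; linarith

end analysis

end Pool.Agent.R286.MG.CellAux

namespace Pool.Agent.R286.MG

open CellAux

theorem cell_of_il (d : ℕ) (h : StIL d) : StCell d := by
  obtain ⟨c0, hc0, h⟩ := h
  intro E hE hEb k v hv hv01 ε hε
  have h := h E hE hEb k
  -- the errors
  set e : ℕ → ℝ := fun l => ε * (1 / 2 : ℝ) ^ (l + 1) with he
  have he0 : ∀ l, 0 < e l := fun l => by simp only [he]; positivity
  have hesum : ∀ n, ∑ l ∈ range n, e l = ε * (1 - (1 / 2 : ℝ) ^ n) := by
    intro n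
    induction n with
    | zero => simp
    | succ n ih => rw [sum_range_succ, ih]; simp only [he]; ring
  have hele : ∀ n, ∑ l ∈ range n, e l ≤ ε := by
    intro n
    rw [hesum]
    have : (0 : ℝ) < (1 / 2 : ℝ) ^ n := by positivity
    nlinarith
  have hes : Summable e := summable_of_sum_range_le (fun l => (he0 l).le) hele
  -- one step
  have step : ∀ (l : ℕ) (F : ℕ → Pt d → ℝ), (∀ i, Good (F i)) →
      ∃ v', Rel E k c0 e l F v' := by
    intro l F hF
    obtain ⟨u, hu1, hu2, hu3, hu4, hu5, hu6⟩ := h (F l) (hF l).1 (hF l).2 (l + 2)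
      (fun i => if (i : ℕ) = 0 then (fun _ => 1) else F ((i : ℕ) - 1))
      (fun i => by
        by_cases hi : (i : ℕ) = 0
        · simp only [hi, if_true]; exact continuous_const
        · simp only [hi, if_false]; exact (hF _).1) (e l) (he0 l)
    have hsub : ∀ y, F l y + u y - F l y = u y := fun y => by ring
    refine ⟨fun y => F l y + u y, ⟨⟨(hF l).1.add hu1, hu3⟩, ?_, ?_, ?_, ?_, ?_⟩⟩
    · intro y hy
      simp only [hu2 y hy, add_zero]
    · have := hu4 ⟨0, by omega⟩
      simpa [hsub] using this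
    · intro i hi
      have := hu4 ⟨i + 1, by omega⟩
      simpa [hsub] using this
    · simp only [hsub]
      exact hu5
    · simp only [hsub]
      exact hu6
  obtain ⟨s, hs0, hsg, hsr⟩ := exists_seq E k c0 e step v ⟨hv, hv01⟩
  -- convergence
  have hcm : MeasurableSet (cell k) := measurableSet_cell k
  have : IsFiniteMeasure ((volume : Measure (Pt d)).restrict (cell k)) :=
    ⟨by rw [Measure.restrict_apply_univ]; exact (cell_bdd k).measure_lt_top⟩
  obtain ⟨ns, g, hns, hg, hlim, hg01⟩ := converge ((volume : Measure (Pt d)).restrict (cell k)) s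
    (fun n => (hsg n).1.measurable) (fun n => (hsg n).2) e (fun n => (he0 n).le) hes
    (fun l => (hsr l).t0) (fun l i hi => (hsr l).t1 i hi) c0 hc0 (fun l => (hsr l).en)
  have hT : MeasurableSet (cell k ∩ {y | g y = 1}) := hcm.inter (hg (measurableSet_singleton 1))
  refine ⟨cell k ∩ {y | g y = 1}, hT, Set.inter_subset_left, ?_⟩
  -- off the cell nothing changes
  have hoff : ∀ l y, y ∉ cell k → s l y = v y := by
    intro l y hy
    induction l with
    | zero => rw [hs0]
    | succ l ih => rw [(hsr l).off y hy, ih]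
  have hlim2 : ∀ᵐ y ∂(volume : Measure (Pt d)), Tendsto (fun i => s (ns i) y - v y) atTop
      (𝓝 ((cell k ∩ {y | g y = 1}).indicator (fun _ => (1 : ℝ)) y - (cell k).indicator v y)) := by
    rw [ae_restrict_iff' hcm] at hlim hg01
    filter_upwards [hlim, hg01] with y h1 h2
    by_cases hy : y ∈ cell k
    · have h3 := h1 hy
      have h4 : (cell k ∩ {y | g y = 1}).indicator (fun _ => (1 : ℝ)) y = g y := by
        rcases h2 hy with h5 | h5
        · rw [Set.indicator_of_notMem, h5]
          rintro ⟨_, h6⟩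
          rw [Set.mem_ofPred_eq, h5] at h6
          exact zero_ne_one h6
        · rw [Set.indicator_of_mem (show y ∈ cell k ∩ {y | g y = 1} from ⟨hy, h5⟩), h5]
      rw [h4, Set.indicator_of_mem hy]
      exact h3.sub_const _
    · have h4 : (cell k ∩ {y | g y = 1}).indicator (fun _ => (1 : ℝ)) y = 0 :=
        Set.indicator_of_notMem (fun h6 => hy h6.1) _
      rw [h4, Set.indicator_of_notMem hy]
      have h5 : (fun i => s (ns i) y - v y) = fun _ => (0 : ℝ) - 0 := by
        ext i
        rw [hoff _ y hy]; ring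
      rw [h5]
      exact tendsto_const_nhds
  -- the Lipschitz bounds of the partial sums
  have hsd : ∀ l y, |s l y - v y| ≤ 1 := by
    intro l y
    have h1 := (hsg l).2 y
    have h2 := hv01 y
    rw [abs_le]
    constructor <;> linarith
  have hsd2 : ∀ l y, |s (l + 1) y - s l y| ≤ 1 := by
    intro l y
    have h1 := (hsg l).2 y
    have h2 := (hsg (l + 1)).2 y
    rw [abs_le]
    constructor <;> linarith
  have hPl : ∀ l, ∀ r : ℝ, 1 ≤ r → ∀ x x' : Pt d, |P E (fun y => s l y - v y) r x -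
      P E (fun y => s l y - v y) r x'| ≤ (∑ i ∈ range l, e i) * (r ^ (d - 1) * ‖x - x'‖) := by
    intro l
    induction l with
    | zero =>
      intro r hr x x'
      simp [hs0, P]
    | succ l ih =>
      intro r hr x x'
      have h1 : ∀ z, P E (fun y => s (l + 1) y - v y) r z =
          P E (fun y => s l y - v y) r z + P E (fun y => s (l + 1) y - s l y) r z := by
        intro z
        rw [← P_add hEb (a := fun y => s l y - v y) (b := fun y => s (l + 1) y - s l y)
          ((hsg l).1.measurable.sub hv.measurable)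
          ((hsg (l + 1)).1.measurable.sub (hsg l).1.measurable) 1 1 (hsd l) (hsd2 l) r z]
        congr 1
        ext y
        ring
      have h2 := ih r hr x x'
      have h3 := (hsr l).p r hr x x'
      rw [h1 x, h1 x', sum_range_succ, add_mul]
      have h4 : P E (fun y => s l y - v y) r x + P E (fun y => s (l + 1) y - s l y) r x -
          (P E (fun y => s l y - v y) r x' + P E (fun y => s (l + 1) y - s l y) r x') =
          (P E (fun y => s l y - v y) r x - P E (fun y => s l y - v y) r x') +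
          (P E (fun y => s (l + 1) y - s l y) r x - P E (fun y => s (l + 1) y - s l y) r x') := by
        ring
      rw [h4]
      refine (abs_add_le _ _).trans (add_le_add h2 ?_)
      rw [← mul_assoc]
      exact h3
  -- the limit
  have hfin : IsFiniteMeasure ((volume : Measure (Pt d)).restrict E) :=
    ⟨by rw [Measure.restrict_apply_univ]; exact hEb.measure_lt_top⟩
  intro r hr x x'
  have hPlim : ∀ z : Pt d, Tendsto (fun i => P E (fun y => s (ns i) y - v y) r z) atTop
      (𝓝 (P E (fun y => (cell k ∩ {y | g y = 1}).indicator (fun _ => (1 : ℝ)) y -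
        (cell k).indicator v y) r z)) := by
    intro z
    unfold P
    refine Tendsto.const_mul _ ?_
    apply tendsto_integral_of_dominated_convergence (fun _ => (1 : ℝ))
    · intro n
      have hm : Measurable (fun y : Pt d => z + r • y) := by fun_prop
      exact (((hsg (ns n)).1.measurable.sub hv.measurable).comp hm).aestronglyMeasurable
    · exact integrable_const _
    · intro n
      exact ae_of_all _ fun y => hsd _ _
    · exact ae_restrict_of_ae (ae_affine hlim2 (by linarith : r ≠ 0) z)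
  have hfinal := ((hPlim x).sub (hPlim x')).abs
  refine le_of_tendsto' hfinal fun i => ?_
  refine (hPl (ns i) r hr x x').trans ?_
  rw [mul_assoc]
  have : 0 ≤ r ^ (d - 1) * ‖x - x'‖ := by positivity
  exact mul_le_mul_of_nonneg_right (hele _) this

end Pool.Agent.R286.MG
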