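import Pool.Agent.R286.MG.EnB

/-!
# MG-EN: the energy bound (MP_b01677_an)
-/

set_option autoImplicit false

open MeasureTheory Set
open scoped ENNReal

namespace Pool.Agent.R286.MG.EnAux

variable {n : ℕ}

attribute [local irreducible] ins A Dl

theorem enorm_sq (x : ℝ) : ‖x‖ₑ ^ 2 = ENNReal.ofReal (x ^ 2) := by
  rw [Real.enorm_eq_ofReal_abs, ← ENNReal.ofReal_pow (abs_nonneg x), sq_abs]

/-- the slope of the substitution -/
noncomputable def aa (m : ℕ) (r : ℝ) : ℝ := 5 * m * r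

/-- the offset of the substitution -/
noncomputable def bb (k : Fin (n + 1) → ℤ) (m : ℕ) (q : Fin (n + 1) → Fin m) (i : Fin (n + 1))
    (x : Pt (n + 1)) : ℝ := 5 * (m * (x i - k i) - (q i : ℕ))

/-- product over the other coordinates -/
noncomputable def Pr (κ : ℝ → ℝ) (k : Fin (n + 1) → ℤ) (m : ℕ) (q : Fin (n + 1) → Fin m)
    (i : Fin (n + 1)) (r : ℝ) (x : Pt (n + 1)) (y' : Fin n → ℝ) : ℝ :=
  ∏ j : Fin n, κ (5 * (m * (x (i.succAbove j) + r * y' j - k (i.succAbove j)) -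
    (q (i.succAbove j) : ℕ)))

/-- the one-dimensional integral -/
noncomputable def Kf (κ' : ℝ → ℝ) (E : Set (Pt (n + 1))) (k : Fin (n + 1) → ℤ) (m : ℕ)
    (q : Fin (n + 1) → Fin m) (i : Fin (n + 1)) (r : ℝ) (x : Pt (n + 1)) (y' : Fin n → ℝ) : ℝ :=
  ∫ t in (0 : ℝ)..5, G E (ins i ((t - bb k m q i x) / aa m r) y') * κ' t

theorem dφ_ins (κ κ' : ℝ → ℝ) (k : Fin (n + 1) → ℤ) (m : ℕ) (q : Fin (n + 1) → Fin m)
    (i : Fin (n + 1)) (r : ℝ) (x : Pt (n + 1)) (t : ℝ) (y' : Fin n → ℝ) :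
    dφ κ κ' k m q i (x + r • ins i t y') =
      5 * m * κ' (aa m r * t + bb k m q i x) * Pr κ k m q i r x y' := by
  unfold dφ Pr
  have h1 : (5 : ℝ) * (m * ((x + r • ins i t y') i - k i) - (q i : ℕ)) =
      aa m r * t + bb k m q i x := by
    rw [Pi.add_apply, Pi.smul_apply, ins_same, smul_eq_mul]
    unfold aa bb
    ring
  rw [h1]
  congr 1
  rw [← Finset.compl_singleton, ← Fin.image_succAbove_univ,
    Finset.prod_image (fun a _ b _ h => Fin.succAbove_right_injective h)]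
  refine Finset.prod_congr rfl fun j _ => ?_
  rw [Pi.add_apply, Pi.smul_apply, ins_succ, smul_eq_mul]

theorem dφ_cont {κ κ' : ℝ → ℝ} {C : ℝ} (hb : Bump κ κ' C) (k : Fin (n + 1) → ℤ) (m : ℕ)
    (q : Fin (n + 1) → Fin m) (i : Fin (n + 1)) : Continuous (dφ κ κ' k m q i) := by
  unfold dφ
  refine (continuous_const.mul ((bump_cont' hb).comp (by fun_prop))).mul
    (continuous_finsetProd _ fun i' _ => (bump_cont hb).comp (by fun_prop))

theorem dφ_abs {κ κ' : ℝ → ℝ} {C : ℝ} (hb : Bump κ κ' C) (k : Fin (n + 1) → ℤ) (m : ℕ)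
    (q : Fin (n + 1) → Fin m) (i : Fin (n + 1)) (y : Pt (n + 1)) :
    |dφ κ κ' k m q i y| ≤ 5 * m * C := by
  unfold dφ
  rw [abs_mul, abs_mul, Finset.abs_prod, abs_of_nonneg (by positivity : (0 : ℝ) ≤ 5 * m)]
  have h1 : ∏ i' ∈ Finset.univ.erase i, |κ (5 * (m * (y i' - k i') - (q i' : ℕ)))| ≤ 1 :=
    Finset.prod_le_one (fun _ _ => abs_nonneg _) fun i' _ => by
      rw [abs_of_nonneg (hb.h01 _).1]; exact (hb.h01 _).2
  have h2 := hb.hbd (5 * (m * (y i - k i) - (q i : ℕ)))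
  have hC : 0 ≤ C := zero_le_one.trans hb.hC
  calc 5 * (m : ℝ) * |κ' (5 * (m * (y i - k i) - (q i : ℕ)))| *
        ∏ i' ∈ Finset.univ.erase i, |κ (5 * (m * (y i' - k i') - (q i' : ℕ)))|
      ≤ (5 * m * C) * 1 := mul_le_mul (mul_le_mul_of_nonneg_left h2 (by positivity)) h1
        (Finset.prod_nonneg fun _ _ => abs_nonneg _) (by positivity)
    _ = _ := mul_one _

theorem P_eq {κ κ' : ℝ → ℝ} {C : ℝ} (hb : Bump κ κ' C) {E : Set (Pt (n + 1))}
    (hE : MeasurableSet E) (hv : volume E ≠ ⊤) (k : Fin (n + 1) → ℤ) {m : ℕ} (hm : 1 ≤ m)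
    (q : Fin (n + 1) → Fin m) (i : Fin (n + 1)) {r : ℝ} (hr : 0 < r) (x : Pt (n + 1)) :
    P E (dφ κ κ' k m q i) r x =
      r ^ n * ∫ y' : Fin n → ℝ, Pr κ k m q i r x y' * Kf κ' E k m q i r x y' := by
  have hm0 : (0 : ℝ) < m := by exact_mod_cast hm
  have ha : 0 < aa m r := by unfold aa; positivity
  have hcont : Continuous (fun y : Pt (n + 1) => dφ κ κ' k m q i (x + r • y)) :=
    (dφ_cont hb k m q i).comp (by fun_prop)
  have hint : Integrable (fun y : Pt (n + 1) => G E y * dφ κ κ' k m q i (x + r • y)) := by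
    refine ((G_int hE hv).const_mul (5 * m * C)).mono'
      ((G_meas hE).mul hcont.measurable).aestronglyMeasurable
      (Filter.Eventually.of_forall fun y => ?_)
    rw [norm_mul, Real.norm_eq_abs, Real.norm_eq_abs, abs_of_nonneg (G_nonneg E y), mul_comm]
    exact mul_le_mul_of_nonneg_right (dφ_abs hb k m q i _) (G_nonneg E y)
  have h1 : ∫ y in E, dφ κ κ' k m q i (x + r • y) =
      ∫ y, G E y * dφ κ κ' k m q i (x + r • y) := by
    rw [← integral_indicator hE]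
    congr 1
    funext y
    unfold G
    by_cases h : y ∈ E
    · rw [indicator_of_mem h, indicator_of_mem h, one_mul]
    · rw [indicator_of_notMem h, indicator_of_notMem h, zero_mul]
  unfold P
  rw [h1, integral_ins i hint]
  have h2 : ∀ y' : Fin n → ℝ, ∫ t : ℝ, G E (ins i t y') * dφ κ κ' k m q i (x + r • ins i t y') =
      r⁻¹ * (Pr κ k m q i r x y' * Kf κ' E k m q i r x y') := by
    intro y'
    have h3 : (fun t : ℝ => G E (ins i t y') * dφ κ κ' k m q i (x + r • ins i t y')) =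
        fun t => (5 * m * Pr κ k m q i r x y') *
          (G E (ins i t y') * κ' (aa m r * t + bb k m q i x)) := by
      funext t
      rw [dφ_ins]
      ring
    rw [h3, integral_const_mul, subst' hb ha (fun t => G E (ins i t y'))]
    show 5 * (m : ℝ) * Pr κ k m q i r x y' * ((aa m r)⁻¹ * Kf κ' E k m q i r x y') = _
    have h4 : (5 : ℝ) * m * (aa m r)⁻¹ = r⁻¹ := by
      unfold aa
      field_simp
    rw [← h4]
    ring
  simp only [h2]
  rw [integral_const_mul, pow_succ, mul_assoc, mul_inv_cancel_left₀ hr.ne']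

/-! ### the cubes -/

/-- corners -/
noncomputable def al (k : Fin (n + 1) → ℤ) (m : ℕ) (r : ℝ) (x : Pt (n + 1)) (c : ℕ)
    (j : Fin (n + 1)) : ℝ := ((c : ℝ) / m + k j - x j) / r

/-- cubes -/
def Q (k : Fin (n + 1) → ℤ) (m : ℕ) (r : ℝ) (x : Pt (n + 1)) (q : Fin (n + 1) → Fin m) :
    Set (Pt (n + 1)) :=
  univ.pi fun j => Ioc (al k m r x (q j) j) (al k m r x (q j) j + 1 / (m * r))

/-- cubes in the other coordinates -/
def Q' (k : Fin (n + 1) → ℤ) (m : ℕ) (r : ℝ) (x : Pt (n + 1)) (q : Fin (n + 1) → Fin m)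
    (i : Fin (n + 1)) : Set (Fin n → ℝ) :=
  univ.pi fun j => Ioc (al k m r x (q (i.succAbove j)) (i.succAbove j))
    (al k m r x (q (i.succAbove j)) (i.succAbove j) + 1 / (m * r))

theorem Q_meas (k : Fin (n + 1) → ℤ) (m : ℕ) (r : ℝ) (x : Pt (n + 1)) (q : Fin (n + 1) → Fin m) :
    MeasurableSet (Q k m r x q) := MeasurableSet.univ_pi fun _ => measurableSet_Ioc

theorem Q'_meas (k : Fin (n + 1) → ℤ) (m : ℕ) (r : ℝ) (x : Pt (n + 1)) (q : Fin (n + 1) → Fin m)
    (i : Fin (n + 1)) : MeasurableSet (Q' k m r x q i) :=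
  MeasurableSet.univ_pi fun _ => measurableSet_Ioc

theorem Q'_vol (k : Fin (n + 1) → ℤ) (m : ℕ) (r : ℝ) (x : Pt (n + 1)) (q : Fin (n + 1) → Fin m)
    (i : Fin (n + 1)) : volume (Q' k m r x q i) = ENNReal.ofReal (1 / (m * r)) ^ n := by
  unfold Q'
  rw [Real.volume_pi_Ioc]
  simp

theorem al_lt {k : Fin (n + 1) → ℤ} {m : ℕ} (hm : 1 ≤ m) {r : ℝ} (hr : 0 < r) {x : Pt (n + 1)}
    {c : ℕ} {j : Fin (n + 1)} {t : ℝ} :
    al k m r x c j < t ↔ 0 < m * (x j + r * t - k j) - c := by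
  have hm0 : (0 : ℝ) < m := by exact_mod_cast hm
  unfold al
  rw [div_lt_iff₀ hr]
  have h1 : (c : ℝ) / m + k j - x j < t * r ↔ (c : ℝ) / m < x j + r * t - k j := by
    constructor <;> intro h <;> linarith
  rw [h1, div_lt_iff₀ hm0]
  constructor <;> intro h <;> linarith

theorem le_al {k : Fin (n + 1) → ℤ} {m : ℕ} (hm : 1 ≤ m) {r : ℝ} (hr : 0 < r) {x : Pt (n + 1)}
    {c : ℕ} {j : Fin (n + 1)} {t : ℝ} :
    t ≤ al k m r x c j + 1 / (m * r) ↔ m * (x j + r * t - k j) - c ≤ 1 := by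
  have hm0 : (0 : ℝ) < m := by exact_mod_cast hm
  have h0 : al k m r x c j + 1 / (m * r) = al k m r x (c + 1) j := by
    unfold al
    push_cast
    field_simp
    ring
  rw [h0, ← not_lt, al_lt hm hr, not_lt]
  push_cast
  constructor <;> intro h <;> linarith

theorem Q_disj {k : Fin (n + 1) → ℤ} {m : ℕ} (hm : 1 ≤ m) {r : ℝ} (hr : 0 < r) {x : Pt (n + 1)}
    {q q' : Fin (n + 1) → Fin m} (h : q ≠ q') : Disjoint (Q k m r x q) (Q k m r x q') := by
  obtain ⟨j, hj⟩ := Function.ne_iff.1 h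
  rw [Set.disjoint_left]
  intro y hy hy'
  have h1 := hy j (mem_univ j)
  have h2 := hy' j (mem_univ j)
  have h3 : ((q j : ℕ)) ≠ (q' j : ℕ) := fun h => hj (Fin.ext h)
  have a1 := (al_lt hm hr).1 h1.1
  have a2 := (le_al hm hr).1 h1.2
  have b1 := (al_lt hm hr).1 h2.1
  have b2 := (le_al hm hr).1 h2.2
  rcases lt_or_gt_of_ne h3 with h4 | h4
  · have : ((q j : ℕ) : ℝ) + 1 ≤ ((q' j : ℕ) : ℝ) := by exact_mod_cast h4
    linarith
  · have : ((q' j : ℕ) : ℝ) + 1 ≤ ((q j : ℕ) : ℝ) := by exact_mod_cast h4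
    linarith

theorem ins_mem {k : Fin (n + 1) → ℤ} {m : ℕ} (hm : 1 ≤ m) {r : ℝ} (hr : 0 < r) {x : Pt (n + 1)}
    {q : Fin (n + 1) → Fin m} {i : Fin (n + 1)} {t : ℝ} {y' : Fin n → ℝ}
    (ht : aa m r * t + bb k m q i x ∈ Ioc (0 : ℝ) 1) (hy : y' ∈ Q' k m r x q i) :
    ins i t y' ∈ Q k m r x q := by
  intro j _
  rcases Fin.eq_self_or_eq_succAbove i j with rfl | ⟨j, rfl⟩
  · rw [ins_same]
    have h1 : aa m r * t + bb k m q j x = 5 * (m * (x j + r * t - k j) - (q j : ℕ)) := by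
      unfold aa bb; ring
    rw [h1] at ht
    exact ⟨(al_lt hm hr).2 (by linarith [ht.1]), (le_al hm hr).2 (by linarith [ht.2])⟩
  · rw [ins_succ]
    exact hy j (mem_univ j)

theorem Pr_supp {κ κ' : ℝ → ℝ} {C : ℝ} (hb : Bump κ κ' C) {k : Fin (n + 1) → ℤ} {m : ℕ}
    (hm : 1 ≤ m) {q : Fin (n + 1) → Fin m} {i : Fin (n + 1)} {r : ℝ} (hr : 0 < r)
    {x : Pt (n + 1)} {y' : Fin n → ℝ} (h : Pr κ k m q i r x y' ≠ 0) : y' ∈ Q' k m r x q i := by
  intro j _
  have h1 : κ (5 * (m * (x (i.succAbove j) + r * y' j - k (i.succAbove j)) -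
    (q (i.succAbove j) : ℕ))) ≠ 0 := fun h0 => h (Finset.prod_eq_zero (Finset.mem_univ j) h0)
  constructor
  · rw [al_lt hm hr]
    by_contra hc
    exact h1 (hb.hsupp _ (Or.inl (by linarith))).1
  · rw [le_al hm hr]
    by_contra hc
    exact h1 (hb.hsupp _ (Or.inr (by linarith))).1

theorem Pr_abs {κ κ' : ℝ → ℝ} {C : ℝ} (hb : Bump κ κ' C) (k : Fin (n + 1) → ℤ) (m : ℕ)
    (q : Fin (n + 1) → Fin m) (i : Fin (n + 1)) (r : ℝ) (x : Pt (n + 1)) (y' : Fin n → ℝ) :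
    |Pr κ k m q i r x y'| ≤ 1 := by
  unfold Pr
  rw [Finset.abs_prod]
  exact Finset.prod_le_one (fun _ _ => abs_nonneg _) fun j _ => by
    rw [abs_of_nonneg (hb.h01 _).1]; exact (hb.h01 _).2

/-! ### estimates for one cube -/

theorem Kf_meas {κ κ' : ℝ → ℝ} {C : ℝ} (hb : Bump κ κ' C) {E : Set (Pt (n + 1))}
    (hE : MeasurableSet E) (k : Fin (n + 1) → ℤ) (m : ℕ)
    (q : Fin (n + 1) → Fin m) (i : Fin (n + 1)) (r : ℝ) (x : Pt (n + 1)) :
    Measurable (Kf κ' E k m q i r x) := by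
  unfold Kf
  simp_rw [intervalIntegral.integral_of_le (show (0 : ℝ) ≤ 5 by norm_num)]
  refine StronglyMeasurable.measurable ?_
  refine StronglyMeasurable.integral_prod_right' (ν := volume.restrict (Ioc (0 : ℝ) 5))
    (f := fun p : (Fin n → ℝ) × ℝ => G E (ins i ((p.2 - bb k m q i x) / aa m r) p.1) * κ' p.2) ?_
  refine Measurable.stronglyMeasurable (Measurable.mul ?_ ((bump_cont' hb).measurable.comp
    measurable_snd))
  exact (G_meas hE).comp ((ins_meas i).comp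
    (((measurable_snd.sub_const _).div_const _).prodMk measurable_fst))

theorem P_sq {κ κ' : ℝ → ℝ} {C : ℝ} (hb : Bump κ κ' C) {E : Set (Pt (n + 1))}
    (hE : MeasurableSet E) (hv : volume E ≠ ⊤) (k : Fin (n + 1) → ℤ) {m : ℕ} (hm : 1 ≤ m)
    (q : Fin (n + 1) → Fin m) (i : Fin (n + 1)) {r : ℝ} (hr : 0 < r) (x : Pt (n + 1)) :
    ‖P E (dφ κ κ' k m q i) r x‖ₑ ^ 2 ≤ ENNReal.ofReal (r ^ n) ^ 2 *
      (ENNReal.ofReal (1 / (m * r)) ^ n *
        ∫⁻ y' in Q' k m r x q i, ‖Kf κ' E k m q i r x y'‖ₑ ^ 2) := by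
  rw [P_eq hb hE hv k hm q i hr x, enorm_mul, Real.enorm_of_nonneg (pow_nonneg hr.le n), mul_pow]
  refine mul_le_mul' le_rfl ?_
  have h1 : ‖∫ y' : Fin n → ℝ, Pr κ k m q i r x y' * Kf κ' E k m q i r x y'‖ₑ ≤
      ∫⁻ y' in Q' k m r x q i, ‖Kf κ' E k m q i r x y'‖ₑ := by
    refine (enorm_integral_le_lintegral_enorm _).trans ?_
    rw [← lintegral_indicator (Q'_meas k m r x q i)]
    refine lintegral_mono fun y' => ?_
    by_cases h : y' ∈ Q' k m r x q i
    · rw [indicator_of_mem h, enorm_mul]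
      have h2 : ‖Pr κ k m q i r x y'‖ₑ ≤ 1 := by
        rw [Real.enorm_eq_ofReal_abs, ENNReal.ofReal_le_one]
        exact Pr_abs hb k m q i r x y'
      calc ‖Pr κ k m q i r x y'‖ₑ * ‖Kf κ' E k m q i r x y'‖ₑ ≤ 1 * _ := mul_le_mul' h2 le_rfl
        _ = _ := one_mul _
    · rw [indicator_of_notMem h]
      have h2 : Pr κ k m q i r x y' = 0 := by
        by_contra h3
        exact h (Pr_supp hb hm hr h3)
      simp [h2]
  refine (pow_le_pow_left' h1 2).trans ?_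
  have h3 := cs (volume.restrict (Q' k m r x q i)) (Kf_meas hb hE k m q i r x).enorm.aemeasurable
  rw [Measure.restrict_apply_univ, Q'_vol] at h3
  exact h3

theorem E_one {κ κ' : ℝ → ℝ} {C : ℝ} (hb : Bump κ κ' C) {E : Set (Pt (n + 1))}
    (hE : MeasurableSet E) (k : Fin (n + 1) → ℤ) {m : ℕ} (hm : 1 ≤ m)
    (q : Fin (n + 1) → Fin m) (i : Fin (n + 1)) {r : ℝ} (hr : 0 < r) (x : Pt (n + 1)) :
    ∫⁻ y' in Q' k m r x q i, ‖Kf κ' E k m q i r x y'‖ₑ ^ 2 ≤ ENNReal.ofReal (aa m r) *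
      ∫⁻ ρ in Ioc (1 : ℝ) 2, ∫⁻ y in Q k m r x q, ‖Dl E i (ρ * (1 / aa m r)) y‖ₑ ^ 2 := by
  have hm0 : (0 : ℝ) < m := by exact_mod_cast hm
  have ha : 0 < aa m r := by unfold aa; positivity
  set a := aa m r with haa
  set b := bb k m q i x with hbb
  have hS : MeasurableSet {t : ℝ | a * t + b ∈ Ioc (0 : ℝ) 1} :=
    measurableSet_Ioc.preimage ((measurable_id.const_mul a).add_const b)
  -- measurability
  have hΦ : Measurable fun p : ℝ × Pt (n + 1) => ‖Dl E i (p.1 * (1 / a)) p.2‖ₑ ^ 2 :=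
    ((Dl_meas hE i).comp ((measurable_fst.mul_const _).prodMk measurable_snd)).enorm.pow_const 2
  -- one line
  have h1 : ∀ y' : Fin n → ℝ, ‖Kf κ' E k m q i r x y'‖ₑ ^ 2 ≤ ENNReal.ofReal a *
      ∫⁻ ρ in Ioc (1 : ℝ) 2, ∫⁻ t in {t : ℝ | a * t + b ∈ Ioc (0 : ℝ) 1},
        ‖Dl E i (ρ * (1 / a)) (ins i t y')‖ₑ ^ 2 := by
    intro y'
    have hg : Measurable fun t : ℝ => G E (ins i ((t - b) / a) y') :=
      (G_meas hE).comp ((ins_meas i).comp
        (((measurable_id.sub_const _).div_const _).prodMk measurable_const))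
    have hK := K_bound hb hg (fun t => G_abs E _)
      (fun ρ s => Dl E i (ρ * (1 / a)) (ins i ((s - b) / a) y'))
      ((Dl_meas hE i).comp ((measurable_fst.mul_const _).prodMk ((ins_meas i).comp
        (((measurable_snd.sub_const _).div_const _).prodMk measurable_const))))
      (fun ρ hρ s => Dl_line i b y' (by linarith [hρ.1]) s)
    refine hK.trans (le_of_eq ?_)
    rw [← lintegral_const_mul' _ _ ENNReal.ofReal_ne_top]
    refine setLIntegral_congr_fun measurableSet_Ioc fun ρ _ => ?_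
    have hi : Measurable fun t : ℝ => ins i t y' :=
      (ins_meas i).comp (measurable_id.prodMk measurable_const)
    have hi2 : Measurable fun t : ℝ => ((ρ, ins i t y') : ℝ × Pt (n + 1)) :=
      measurable_const.prodMk hi
    have hΨ : Measurable fun t : ℝ => ‖Dl E i (ρ * (1 / a)) (ins i t y')‖ₑ ^ 2 := hΦ.comp hi2
    exact subst ha hΨ
  refine (lintegral_mono h1).trans ?_
  rw [lintegral_const_mul' _ _ ENNReal.ofReal_ne_top]
  refine mul_le_mul' le_rfl ?_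
  -- Fubini
  have hmm : Measurable (Function.uncurry fun (y' : Fin n → ℝ) (ρ : ℝ) =>
      ∫⁻ t in {t : ℝ | a * t + b ∈ Ioc (0 : ℝ) 1}, ‖Dl E i (ρ * (1 / a)) (ins i t y')‖ₑ ^ 2) := by
    have hi : Measurable fun p : ((Fin n → ℝ) × ℝ) × ℝ => ins i p.2 p.1.1 :=
      (ins_meas i).comp (measurable_snd.prodMk (measurable_fst.comp measurable_fst))
    have hi1 : Measurable fun p : ((Fin n → ℝ) × ℝ) × ℝ => p.1.2 :=
      measurable_snd.comp measurable_fst
    have hi2 : Measurable fun p : ((Fin n → ℝ) × ℝ) × ℝ =>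
        ((p.1.2, ins i p.2 p.1.1) : ℝ × Pt (n + 1)) := hi1.prodMk hi
    have : Measurable fun p : ((Fin n → ℝ) × ℝ) × ℝ =>
        ‖Dl E i (p.1.2 * (1 / a)) (ins i p.2 p.1.1)‖ₑ ^ 2 := hΦ.comp hi2
    exact Measurable.lintegral_prod_right'
      (ν := volume.restrict {t : ℝ | a * t + b ∈ Ioc (0 : ℝ) 1}) this
  rw [lintegral_lintegral_swap hmm.aemeasurable]
  refine lintegral_mono fun ρ => ?_
  have hΦρ : Measurable fun y : Pt (n + 1) => ‖Dl E i (ρ * (1 / a)) y‖ₑ ^ 2 :=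
    hΦ.comp (measurable_const.prodMk measurable_id)
  rw [← lintegral_indicator (Q_meas k m r x q), lintegral_ins i
    (hΦρ.indicator (Q_meas k m r x q)), ← lintegral_indicator (Q'_meas k m r x q i)]
  refine lintegral_mono fun y' => ?_
  by_cases h : y' ∈ Q' k m r x q i
  · rw [indicator_of_mem h, ← lintegral_indicator hS]
    refine lintegral_mono fun t => ?_
    by_cases ht : t ∈ {t : ℝ | a * t + b ∈ Ioc (0 : ℝ) 1}
    · rw [indicator_of_mem ht, indicator_of_mem (ins_mem hm hr ht h)]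
    · rw [indicator_of_notMem ht]; exact zero_le
  · rw [indicator_of_notMem h]; exact zero_le

theorem sum_E {κ κ' : ℝ → ℝ} {C : ℝ} (hb : Bump κ κ' C) {E : Set (Pt (n + 1))}
    (hE : MeasurableSet E) (hv : volume E ≠ ⊤) (k : Fin (n + 1) → ℤ) {m : ℕ} (hm : 1 ≤ m)
    (i : Fin (n + 1)) {r : ℝ} (hr : 0 < r) (x : Pt (n + 1)) :
    ∑ q : Fin (n + 1) → Fin m, P E (dφ κ κ' k m q i) r x ^ 2 ≤
      (r ^ n) ^ 2 * ((1 / (m * r)) ^ n * (aa m r * D E i (1 / aa m r))) := by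
  have hm0 : (0 : ℝ) < m := by exact_mod_cast hm
  have ha : 0 < aa m r := by unfold aa; positivity
  have hD := D_nonneg E i (1 / aa m r)
  have hΦ : Measurable fun p : ℝ × Pt (n + 1) => ‖Dl E i (p.1 * (1 / aa m r)) p.2‖ₑ ^ 2 :=
    ((Dl_meas hE i).comp ((measurable_fst.mul_const _).prodMk measurable_snd)).enorm.pow_const 2
  have h1 : ∑ q : Fin (n + 1) → Fin m, ‖P E (dφ κ κ' k m q i) r x‖ₑ ^ 2 ≤
      ENNReal.ofReal (r ^ n) ^ 2 * (ENNReal.ofReal (1 / (m * r)) ^ n *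
        (ENNReal.ofReal (aa m r) * ∑ q : Fin (n + 1) → Fin m,
          ∫⁻ ρ in Ioc (1 : ℝ) 2, ∫⁻ y in Q k m r x q, ‖Dl E i (ρ * (1 / aa m r)) y‖ₑ ^ 2)) := by
    rw [Finset.mul_sum, Finset.mul_sum, Finset.mul_sum]
    refine Finset.sum_le_sum fun q _ => ?_
    refine (P_sq hb hE hv k hm q i hr x).trans ?_
    exact mul_le_mul' le_rfl (mul_le_mul' le_rfl (E_one hb hE k hm q i hr x))
  have h2 : ∑ q : Fin (n + 1) → Fin m,
      ∫⁻ ρ in Ioc (1 : ℝ) 2, ∫⁻ y in Q k m r x q, ‖Dl E i (ρ * (1 / aa m r)) y‖ₑ ^ 2 ≤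
      ∫⁻ ρ in Ioc (1 : ℝ) 2, ∫⁻ y, ‖Dl E i (ρ * (1 / aa m r)) y‖ₑ ^ 2 := by
    rw [← lintegral_finsetSum]
    · refine lintegral_mono fun ρ => ?_
      rw [← lintegral_biUnion_finset]
      · exact setLIntegral_le_lintegral _ _
      · intro q _ q' _ hne
        exact Q_disj hm hr hne
      · intro q _
        exact Q_meas k m r x q
    · intro q _
      exact Measurable.lintegral_prod_right' (ν := volume.restrict (Q k m r x q)) hΦ
  have h3 : ∫⁻ ρ in Ioc (1 : ℝ) 2, ∫⁻ y, ‖Dl E i (ρ * (1 / aa m r)) y‖ₑ ^ 2 =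
      ENNReal.ofReal (D E i (1 / aa m r)) := by
    have h4 : ∀ ρ : ℝ, ∫⁻ y, ‖Dl E i (ρ * (1 / aa m r)) y‖ₑ ^ 2 =
        ENNReal.ofReal (M E i (ρ * (1 / aa m r))) := by
      intro ρ
      unfold M
      rw [ofReal_integral_eq_lintegral_ofReal (Dl_sq_int hE hv i _)
        (Filter.Eventually.of_forall fun y => sq_nonneg _)]
      exact lintegral_congr fun y => enorm_sq _
    simp only [h4]
    unfold D
    rw [intervalIntegral.integral_of_le one_le_two, ofReal_integral_eq_lintegral_ofReal]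
    · have hii := bdd_ii ((M_meas hE i).comp (measurable_id.mul_const (1 / aa m r)))
        (B := 4 * (volume E).toReal) (fun t => by
          show |M E i (t * (1 / aa m r))| ≤ _
          rw [abs_of_nonneg (M_nonneg E i _)]; exact M_le hE hv i _) 1 2
      exact (intervalIntegrable_iff_integrableOn_Ioc_of_le one_le_two).1 hii
    · exact Filter.Eventually.of_forall fun ρ => M_nonneg E i _
  have h5 : ENNReal.ofReal (∑ q : Fin (n + 1) → Fin m, P E (dφ κ κ' k m q i) r x ^ 2) ≤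
      ENNReal.ofReal ((r ^ n) ^ 2 * ((1 / (m * r)) ^ n * (aa m r * D E i (1 / aa m r)))) := by
    rw [ENNReal.ofReal_sum_of_nonneg (fun _ _ => sq_nonneg _)]
    have h6 : ∀ q : Fin (n + 1) → Fin m, ENNReal.ofReal (P E (dφ κ κ' k m q i) r x ^ 2) =
        ‖P E (dφ κ κ' k m q i) r x‖ₑ ^ 2 := fun q => (enorm_sq _).symm
    simp only [h6]
    refine h1.trans ?_
    rw [ENNReal.ofReal_mul (by positivity), ENNReal.ofReal_mul (by positivity),
      ENNReal.ofReal_mul ha.le, ENNReal.ofReal_pow (by positivity) 2,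
      ENNReal.ofReal_pow (by positivity) n, ENNReal.ofReal_pow (by positivity) n]
    rw [ENNReal.ofReal_pow (by positivity) n] at *
    refine mul_le_mul' le_rfl (mul_le_mul' le_rfl (mul_le_mul' le_rfl ?_))
    exact h2.trans h3.le
  exact (ENNReal.ofReal_le_ofReal_iff (by positivity)).1 h5

theorem sum_T {κ κ' : ℝ → ℝ} {C : ℝ} (hb : Bump κ κ' C) {E : Set (Pt (n + 1))}
    (hE : MeasurableSet E) (hv : volume E ≠ ⊤) (k : Fin (n + 1) → ℤ) {m : ℕ} (hm : 1 ≤ m)
    (i : Fin (n + 1)) {r : ℝ} (hr : 0 < r) (x : Pt (n + 1)) :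
    ∑ q : Fin (n + 1) → Fin m, P E (dφ κ κ' k m q i) r x ^ 2 ≤
      m ^ (n + 1) * ((r ^ n) ^ 2 * ((1 / (m * r)) ^ n * ((5 * C) ^ 2 * (1 / (m * r)) ^ n))) := by
  have hm0 : (0 : ℝ) < m := by exact_mod_cast hm
  have hC : 0 ≤ C := zero_le_one.trans hb.hC
  have h1 : ∀ q : Fin (n + 1) → Fin m, P E (dφ κ κ' k m q i) r x ^ 2 ≤
      (r ^ n) ^ 2 * ((1 / (m * r)) ^ n * ((5 * C) ^ 2 * (1 / (m * r)) ^ n)) := by
    intro q
    have h2 := P_sq hb hE hv k hm q i hr x
    have h3 : ∫⁻ y' in Q' k m r x q i, ‖Kf κ' E k m q i r x y'‖ₑ ^ 2 ≤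
        ENNReal.ofReal (5 * C) ^ 2 * ENNReal.ofReal (1 / (m * r)) ^ n := by
      rw [← Q'_vol k m r x q i, ← Measure.restrict_apply_univ, ← lintegral_const]
      refine lintegral_mono fun y' => ?_
      exact pow_le_pow_left' (K_sup hb fun t => G_abs E _) 2
    have h4 := h2.trans (mul_le_mul' le_rfl (mul_le_mul' le_rfl h3))
    rw [enorm_sq] at h4
    have h5 : ENNReal.ofReal (r ^ n) ^ 2 * (ENNReal.ofReal (1 / (m * r)) ^ n *
        (ENNReal.ofReal (5 * C) ^ 2 * ENNReal.ofReal (1 / (m * r)) ^ n)) =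
        ENNReal.ofReal ((r ^ n) ^ 2 * ((1 / (m * r)) ^ n * ((5 * C) ^ 2 *
          (1 / (m * r)) ^ n))) := by
      rw [← ENNReal.ofReal_pow (by positivity), ← ENNReal.ofReal_pow (by positivity),
        ← ENNReal.ofReal_pow (by positivity), ← ENNReal.ofReal_mul (by positivity),
        ← ENNReal.ofReal_mul (by positivity), ← ENNReal.ofReal_mul (by positivity)]
    rw [h5] at h4
    exact (ENNReal.ofReal_le_ofReal_iff (by positivity)).1 h4
  calc ∑ q : Fin (n + 1) → Fin m, P E (dφ κ κ' k m q i) r x ^ 2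
      ≤ ∑ _q : Fin (n + 1) → Fin m,
        (r ^ n) ^ 2 * ((1 / (m * r)) ^ n * ((5 * C) ^ 2 * (1 / (m * r)) ^ n)) :=
        Finset.sum_le_sum fun q _ => h1 q
    _ = _ := by
        rw [Finset.sum_const, nsmul_eq_mul, Finset.card_univ, Fintype.card_fun, Fintype.card_fin,
          Fintype.card_fin]
        push_cast
        ring

end Pool.Agent.R286.MG.EnAux

namespace Pool.Agent.R286.MG

open EnAux

/-- MG-EN -/
theorem en : StEn := by
  intro κ κ' C hb d hd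
  obtain ⟨n, rfl⟩ : ∃ n, d = n + 1 := ⟨d - 1, by omega⟩
  have hC1 := hb.hC
  refine ⟨25 * C ^ 2, by positivity, fun E hE hEb i => ?_⟩
  have hv : volume E ≠ ⊤ := hEb.measure_lt_top.ne
  refine ⟨fun j => D E i (1 / 5 / 2 ^ (j + 1)) + 2 * D E i (1 / 5 / 2 ^ j),
    fun j => by
      have h1 := D_nonneg E i (1 / 5 / 2 ^ (j + 1))
      have h2 := D_nonneg E i (1 / 5 / 2 ^ j)
      positivity, ?_, ?_⟩
  · have hs := D_sum hE hv i (1 / 5)
    exact ((summable_nat_add_iff 1).2 hs).add (hs.mul_left 2)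
  · intro k j l r hr1 hr2 x
    have hr : 0 < r := lt_of_lt_of_le (by positivity) hr1
    have hm : 1 ≤ 2 ^ j := Nat.one_le_two_pow
    set m : ℕ := 2 ^ j with hmdef
    have hm0 : (0 : ℝ) < m := by exact_mod_cast hm
    have hmr : ((2 : ℝ) ^ j) = m := by rw [hmdef]; push_cast; rfl
    rw [hmr]
    have e1 := sum_T hb hE hv k hm i hr x
    have e2 := sum_E hb hE hv k hm i hr x
    have ha : 0 < aa m r := by unfold aa; positivity
    -- the scale
    have hs1 : (1 : ℝ) / 5 / 2 ^ (j + l + 1) ≤ 1 / aa m r := by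
      have : aa m r ≤ 5 * 2 ^ (j + l + 1) := by
        unfold aa
        rw [← hmr, mul_assoc]
        have : (2 : ℝ) ^ (j + l + 1) = 2 ^ j * 2 ^ (l + 1) := by ring
        rw [this]
        exact mul_le_mul_of_nonneg_left (mul_le_mul_of_nonneg_left hr2 (by positivity))
          (by norm_num)
      rw [div_div]
      exact one_div_le_one_div_of_le ha this
    have hs2 : 1 / aa m r ≤ 2 * ((1 : ℝ) / 5 / 2 ^ (j + l + 1)) := by
      have : 5 * 2 ^ (j + l) ≤ aa m r := by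
        unfold aa
        rw [← hmr, mul_assoc]
        have : (2 : ℝ) ^ (j + l) = 2 ^ j * 2 ^ l := by ring
        rw [this]
        exact mul_le_mul_of_nonneg_left (mul_le_mul_of_nonneg_left hr1 (by positivity))
          (by norm_num)
      have h3 : 2 * ((1 : ℝ) / 5 / 2 ^ (j + l + 1)) = 1 / (5 * 2 ^ (j + l)) := by
        rw [pow_succ]
        field_simp
      rw [h3]
      exact one_div_le_one_div_of_le (by positivity) this
    have hDle := D_le hE hv i (by positivity) hs1 hs2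
    have h4 : 2 * ((1 : ℝ) / 5 / 2 ^ (j + l + 1)) = 1 / 5 / 2 ^ (j + l) := by
      rw [pow_succ]
      field_simp
    rw [h4] at hDle
    set β : ℝ := D E i (1 / 5 / 2 ^ (j + l + 1)) + 2 * D E i (1 / 5 / 2 ^ (j + l)) with hβ
    have hβ0 : 0 ≤ β := (D_nonneg E i _).trans hDle
    rw [mul_min_of_nonneg _ _ (by positivity), mul_one]
    refine le_min ?_ ?_
    · refine e1.trans (le_of_eq ?_)
      rw [one_div, inv_pow, mul_pow, pow_succ]
      field_simp
      ring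
    · refine e2.trans ?_
      have h5 : (r ^ n) ^ 2 * ((1 / (m * r)) ^ n * (aa m r * D E i (1 / aa m r))) =
          5 * (m : ℝ) ^ 2 / (m : ℝ) ^ (n + 1) * (r ^ (n + 1) * D E i (1 / aa m r)) := by
        generalize D E i (1 / aa m r) = D0
        unfold aa
        rw [one_div, inv_pow, mul_pow, pow_succ, pow_succ]
        field_simp
        ring
      rw [h5]
      have h6 : (5 : ℝ) ≤ 25 * C ^ 2 := by nlinarith
      have h7 : (5 : ℝ) * (m : ℝ) ^ 2 / (m : ℝ) ^ (n + 1) ≤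
          25 * C ^ 2 * (m : ℝ) ^ 2 / (m : ℝ) ^ (n + 1) :=
        div_le_div_of_nonneg_right (mul_le_mul_of_nonneg_right h6 (by positivity)) (by positivity)
      have h8 : r ^ (n + 1) * D E i (1 / aa m r) ≤ r ^ (n + 1) * β :=
        mul_le_mul_of_nonneg_left hDle (by positivity)
      exact mul_le_mul h7 h8 (mul_nonneg (by positivity) (D_nonneg E i _)) (by positivity)

end Pool.Agent.R286.MG
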