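import Pool.Agent.R286.MG.Stm

/-!
# MG-EN, part 1: directional averages, telescoping (MP_b01677_an)
-/

set_option autoImplicit false

open MeasureTheory Set

namespace Pool.Agent.R286.MG.EnAux

variable {d : ℕ}

/-- bounded measurable functions are interval integrable -/
theorem bdd_ii {F : ℝ → ℝ} (hF : Measurable F) {B : ℝ} (hB : ∀ t, |F t| ≤ B) (a b : ℝ) :
    IntervalIntegrable F volume a b := by
  rw [intervalIntegrable_iff]
  refine Measure.integrableOn_of_bounded (M := B) ?_ hF.aestronglyMeasurable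
    (Filter.Eventually.of_forall fun t => by rw [Real.norm_eq_abs]; exact hB t)
  rw [uIoc]
  exact measure_Ioc_lt_top.ne

/-- the indicator function of `E` -/
noncomputable def G (E : Set (Pt d)) (y : Pt d) : ℝ := E.indicator (fun _ => (1 : ℝ)) y

theorem G_meas {E : Set (Pt d)} (hE : MeasurableSet E) : Measurable (G E) :=
  measurable_const.indicator hE

theorem G_nonneg (E : Set (Pt d)) (y : Pt d) : 0 ≤ G E y :=
  indicator_nonneg (fun _ _ => zero_le_one) y

theorem G_le (E : Set (Pt d)) (y : Pt d) : G E y ≤ 1 := by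
  unfold G
  by_cases h : y ∈ E
  · rw [indicator_of_mem h]
  · rw [indicator_of_notMem h]; exact zero_le_one

theorem G_abs (E : Set (Pt d)) (y : Pt d) : |G E y| ≤ 1 := by
  rw [abs_of_nonneg (G_nonneg E y)]; exact G_le E y

theorem G_int {E : Set (Pt d)} (hE : MeasurableSet E) (hv : volume E ≠ ⊤) :
    Integrable (G E) := (integrable_indicator_iff hE).2 (integrableOn_const hv)

theorem G_integral {E : Set (Pt d)} (hE : MeasurableSet E) :
    ∫ y, G E y = (volume E).toReal := by
  unfold G
  rw [integral_indicator hE, setIntegral_const, smul_eq_mul, mul_one]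
  rfl

/-- coordinate direction -/
def ei (i : Fin d) : Pt d := Pi.single i 1

/-- average of `G E` over the segment `[y, y + s e_i]` -/
noncomputable def A (E : Set (Pt d)) (i : Fin d) (s : ℝ) (y : Pt d) : ℝ :=
  ∫ u in (0 : ℝ)..1, G E (y + (s * u) • ei i)

theorem A_meas {E : Set (Pt d)} (hE : MeasurableSet E) (i : Fin d) :
    Measurable (fun p : ℝ × Pt d => A E i p.1 p.2) := by
  unfold A
  simp_rw [intervalIntegral.integral_of_le (zero_le_one' ℝ)]
  refine StronglyMeasurable.measurable ?_
  refine StronglyMeasurable.integral_prod_right' (ν := volume.restrict (Ioc (0 : ℝ) 1))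
    (f := fun q : (ℝ × Pt d) × ℝ => G E (q.1.2 + (q.1.1 * q.2) • ei i)) ?_
  refine Measurable.stronglyMeasurable ((G_meas hE).comp ?_)
  exact (measurable_snd.comp measurable_fst).add
    (((measurable_fst.comp measurable_fst).mul measurable_snd).smul_const _)

theorem A_meas' {E : Set (Pt d)} (hE : MeasurableSet E) (i : Fin d) (s : ℝ) :
    Measurable (A E i s) := (A_meas hE i).comp (measurable_const.prodMk measurable_id)

theorem A_nonneg (E : Set (Pt d)) (i : Fin d) (s : ℝ) (y : Pt d) : 0 ≤ A E i s y :=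
  intervalIntegral.integral_nonneg zero_le_one fun _ _ => G_nonneg E _

theorem A_le (E : Set (Pt d)) (i : Fin d) (s : ℝ) (y : Pt d) : A E i s y ≤ 1 := by
  have h := intervalIntegral.norm_integral_le_of_norm_le_const (a := (0 : ℝ)) (b := 1) (C := 1)
    (f := fun u => G E (y + (s * u) • ei i)) (fun u _ => by
      rw [Real.norm_eq_abs]; exact G_abs E _)
  rw [Real.norm_eq_abs] at h
  have h2 := le_abs_self (A E i s y)
  unfold A at h2 ⊢
  norm_num at h
  linarith

theorem A_two {E : Set (Pt d)} (hE : MeasurableSet E) (i : Fin d) (s : ℝ) (y : Pt d) :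
    A E i (2 * s) y = (A E i s y + A E i s (y + s • ei i)) / 2 := by
  unfold A
  have hm : Measurable fun u : ℝ => G E (y + (s * u) • ei i) :=
    (G_meas hE).comp (measurable_const.add ((measurable_id.const_mul s).smul_const _))
  have h1 : ∫ u in (0 : ℝ)..1, G E (y + (2 * s * u) • ei i) =
      (2 : ℝ)⁻¹ * ∫ u in (0 : ℝ)..2, G E (y + (s * u) • ei i) := by
    have := intervalIntegral.integral_comp_mul_left (a := 0) (b := 1)
      (fun u => G E (y + (s * u) • ei i)) (two_ne_zero' ℝ)
    rw [mul_zero, mul_one, smul_eq_mul] at this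
    rw [← this]
    congr 1
    funext u
    congr 3
    ring
  have h2 : ∫ u in (0 : ℝ)..1, G E (y + s • ei i + (s * u) • ei i) =
      ∫ u in (1 : ℝ)..2, G E (y + (s * u) • ei i) := by
    have := intervalIntegral.integral_comp_add_right (a := 0) (b := 1)
      (fun u => G E (y + (s * u) • ei i)) 1
    rw [zero_add, one_add_one_eq_two] at this
    rw [← this]
    congr 1
    funext u
    congr 1
    rw [add_assoc, ← add_smul]
    congr 2
    ring
  rw [h1, h2, intervalIntegral.integral_add_adjacent_intervals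
    (bdd_ii hm (fun t => G_abs E _) _ _) (bdd_ii hm (fun t => G_abs E _) _ _)]
  ring

theorem A_prod_int {E : Set (Pt d)} (hE : MeasurableSet E) (hv : volume E ≠ ⊤) (i : Fin d)
    (s : ℝ) : Integrable (fun p : Pt d × ℝ => G E (p.1 + (s * p.2) • ei i))
      ((volume : Measure (Pt d)).prod (volume.restrict (Ioc (0 : ℝ) 1))) := by
  have hm : Measurable (fun p : Pt d × ℝ => G E (p.1 + (s * p.2) • ei i)) :=
    (G_meas hE).comp (measurable_fst.add ((measurable_snd.const_mul s).smul_const _))
  rw [integrable_prod_iff' hm.aestronglyMeasurable]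
  constructor
  · refine Filter.Eventually.of_forall fun u => ?_
    exact (G_int hE hv).comp_add_right ((s * u) • ei i)
  · have h1 : ∀ u : ℝ, ∫ y, ‖G E (y + (s * u) • ei i)‖ = ∫ y, ‖G E y‖ := fun u =>
      integral_add_right_eq_self (fun y => ‖G E y‖) _
    simp only [h1]
    have : IsFiniteMeasure (volume.restrict (Ioc (0 : ℝ) 1)) := ⟨by
      rw [Measure.restrict_apply_univ]; exact measure_Ioc_lt_top⟩
    exact integrable_const _

theorem A_int {E : Set (Pt d)} (hE : MeasurableSet E) (hv : volume E ≠ ⊤) (i : Fin d)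
    (s : ℝ) : Integrable (A E i s) ∧ ∫ y, A E i s y = (volume E).toReal := by
  have h := A_prod_int hE hv i s
  have hA : A E i s = fun y => ∫ u, G E (y + (s * u) • ei i) ∂(volume.restrict (Ioc (0 : ℝ) 1)) := by
    funext y
    exact intervalIntegral.integral_of_le zero_le_one
  constructor
  · rw [hA]; exact h.integral_prod_left
  · rw [hA]
    have h1 := integral_prod _ h
    have h2 := integral_prod_symm _ h
    simp only at h1 h2
    rw [← h1, h2]
    have h3 : ∀ u : ℝ, ∫ y, G E (y + (s * u) • ei i) = (volume E).toReal := fun u => by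
      rw [integral_add_right_eq_self (fun y => G E y), G_integral hE]
    simp only [h3]
    rw [setIntegral_const]
    simp

theorem A_sq_int {E : Set (Pt d)} (hE : MeasurableSet E) (hv : volume E ≠ ⊤) (i : Fin d)
    (s : ℝ) : Integrable (fun y => A E i s y ^ 2) := by
  refine (A_int hE hv i s).1.mono' ((A_meas' hE i s).pow_const 2).aestronglyMeasurable
    (Filter.Eventually.of_forall fun y => ?_)
  have h0 := A_nonneg E i s y
  have h1 := A_le E i s y
  rw [Real.norm_eq_abs, abs_of_nonneg (by positivity)]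
  nlinarith

/-- the energy `∫ (A_s)²` -/
noncomputable def N (E : Set (Pt d)) (i : Fin d) (s : ℝ) : ℝ := ∫ y, A E i s y ^ 2

theorem N_nonneg (E : Set (Pt d)) (i : Fin d) (s : ℝ) : 0 ≤ N E i s :=
  integral_nonneg fun _ => sq_nonneg _

theorem N_le {E : Set (Pt d)} (hE : MeasurableSet E) (hv : volume E ≠ ⊤) (i : Fin d)
    (s : ℝ) : N E i s ≤ (volume E).toReal := by
  rw [← (A_int hE hv i s).2]
  refine integral_mono (A_sq_int hE hv i s) (A_int hE hv i s).1 fun y => ?_
  have h0 := A_nonneg E i s y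
  have h1 := A_le E i s y
  simp only
  nlinarith

theorem N_meas {E : Set (Pt d)} (hE : MeasurableSet E) (i : Fin d) : Measurable (N E i) := by
  unfold N
  refine StronglyMeasurable.measurable ?_
  exact StronglyMeasurable.integral_prod_right' (ν := (volume : Measure (Pt d)))
    (f := fun q : ℝ × Pt d => A E i q.1 q.2 ^ 2) (((A_meas hE i).pow_const 2).stronglyMeasurable)

/-- the difference of the averages over two adjacent segments -/
noncomputable def Dl (E : Set (Pt d)) (i : Fin d) (s : ℝ) (y : Pt d) : ℝ :=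
  A E i s y - A E i s (y + s • ei i)

theorem Dl_meas {E : Set (Pt d)} (hE : MeasurableSet E) (i : Fin d) :
    Measurable (fun p : ℝ × Pt d => Dl E i p.1 p.2) := by
  unfold Dl
  refine (A_meas hE i).sub ((A_meas hE i).comp (measurable_fst.prodMk ?_))
  exact measurable_snd.add (measurable_fst.smul_const _)

/-- energy of the differences -/
noncomputable def M (E : Set (Pt d)) (i : Fin d) (s : ℝ) : ℝ := ∫ y, Dl E i s y ^ 2

theorem Dl_sq_int {E : Set (Pt d)} (hE : MeasurableSet E) (hv : volume E ≠ ⊤) (i : Fin d)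
    (s : ℝ) : Integrable (fun y => Dl E i s y ^ 2) := by
  have h1 := A_sq_int hE hv i s
  have h2 : Integrable (fun y => A E i s (y + s • ei i) ^ 2) := h1.comp_add_right (s • ei i)
  have h3 := A_sq_int hE hv i (2 * s)
  have h4 : (fun y => Dl E i s y ^ 2) = fun y => 2 * A E i s y ^ 2 +
      2 * A E i s (y + s • ei i) ^ 2 - 4 * A E i (2 * s) y ^ 2 := by
    funext y
    rw [A_two hE i s y]
    unfold Dl
    ring
  rw [h4]
  exact ((h1.const_mul 2).add (h2.const_mul 2)).sub (h3.const_mul 4)

theorem M_eq {E : Set (Pt d)} (hE : MeasurableSet E) (hv : volume E ≠ ⊤) (i : Fin d)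
    (s : ℝ) : M E i s = 4 * (N E i s - N E i (2 * s)) := by
  have h1 := A_sq_int hE hv i s
  have h2 : Integrable (fun y => A E i s (y + s • ei i) ^ 2) := h1.comp_add_right (s • ei i)
  have h3 := A_sq_int hE hv i (2 * s)
  have h4 : (fun y => Dl E i s y ^ 2) = fun y => (2 * A E i s y ^ 2 +
      2 * A E i s (y + s • ei i) ^ 2) - 4 * A E i (2 * s) y ^ 2 := by
    funext y
    rw [A_two hE i s y]
    unfold Dl
    ring
  have h5 : ∫ y, A E i s (y + s • ei i) ^ 2 = N E i s :=
    integral_add_right_eq_self (fun y => A E i s y ^ 2) _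
  have h6 : Integrable (fun y => 2 * A E i s y ^ 2 + 2 * A E i s (y + s • ei i) ^ 2) :=
    (h1.const_mul 2).add (h2.const_mul 2)
  unfold M
  rw [h4, integral_sub h6 (h3.const_mul 4),
    integral_add (h1.const_mul 2) (h2.const_mul 2), integral_const_mul, integral_const_mul,
    integral_const_mul, h5]
  unfold N
  ring

theorem M_nonneg (E : Set (Pt d)) (i : Fin d) (s : ℝ) : 0 ≤ M E i s :=
  integral_nonneg fun _ => sq_nonneg _

theorem M_meas {E : Set (Pt d)} (hE : MeasurableSet E) (i : Fin d) : Measurable (M E i) := by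
  unfold M
  refine StronglyMeasurable.measurable ?_
  exact StronglyMeasurable.integral_prod_right' (ν := (volume : Measure (Pt d)))
    (f := fun q : ℝ × Pt d => Dl E i q.1 q.2 ^ 2) (((Dl_meas hE i).pow_const 2).stronglyMeasurable)

theorem M_le {E : Set (Pt d)} (hE : MeasurableSet E) (hv : volume E ≠ ⊤) (i : Fin d)
    (s : ℝ) : M E i s ≤ 4 * (volume E).toReal := by
  rw [M_eq hE hv i s]
  have h1 := N_le hE hv i s
  have h2 := N_nonneg E i (2 * s)
  linarith

theorem M_ii {E : Set (Pt d)} (hE : MeasurableSet E) (hv : volume E ≠ ⊤) (i : Fin d)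
    (a b : ℝ) : IntervalIntegrable (M E i) volume a b :=
  bdd_ii (M_meas hE i) (B := 4 * (volume E).toReal) (fun t => by
    rw [abs_of_nonneg (M_nonneg E i t)]; exact M_le hE hv i t) a b

/-- average over the scales -/
noncomputable def D (E : Set (Pt d)) (i : Fin d) (s : ℝ) : ℝ := ∫ ρ in (1 : ℝ)..2, M E i (ρ * s)

theorem D_nonneg (E : Set (Pt d)) (i : Fin d) (s : ℝ) : 0 ≤ D E i s :=
  intervalIntegral.integral_nonneg one_le_two fun _ _ => M_nonneg E i _

theorem D_eq {E : Set (Pt d)} (hE : MeasurableSet E) (hv : volume E ≠ ⊤) (i : Fin d)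
    (s : ℝ) : D E i s = 4 * ((∫ ρ in (1 : ℝ)..2, N E i (ρ * s)) -
      ∫ ρ in (1 : ℝ)..2, N E i (ρ * (2 * s))) := by
  have hN : ∀ c : ℝ, IntervalIntegrable (fun ρ => N E i (ρ * c)) volume 1 2 := fun c =>
    bdd_ii ((N_meas hE i).comp (measurable_id.mul_const c)) (B := (volume E).toReal) (fun t => by
      show |N E i (t * c)| ≤ _
      rw [abs_of_nonneg (N_nonneg E i _)]; exact N_le hE hv i _) _ _
  rw [← intervalIntegral.integral_sub (hN s) (hN (2 * s)), ← intervalIntegral.integral_const_mul]
  unfold D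
  congr 1
  funext ρ
  rw [M_eq hE hv]
  congr 3
  ring

theorem D_sum {E : Set (Pt d)} (hE : MeasurableSet E) (hv : volume E ≠ ⊤) (i : Fin d)
    (s : ℝ) : Summable (fun n : ℕ => D E i (s / 2 ^ n)) := by
  refine summable_of_sum_range_le (c := 4 * (volume E).toReal) (fun n => D_nonneg E i _) ?_
  intro K
  have hb : ∀ c : ℝ, 0 ≤ (∫ ρ in (1 : ℝ)..2, N E i (ρ * c)) ∧
      (∫ ρ in (1 : ℝ)..2, N E i (ρ * c)) ≤ (volume E).toReal := by
    intro c
    constructor
    · exact intervalIntegral.integral_nonneg one_le_two fun _ _ => N_nonneg E i _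
    · have h := intervalIntegral.norm_integral_le_of_norm_le_const (a := (1 : ℝ)) (b := 2)
        (C := (volume E).toReal) (f := fun ρ => N E i (ρ * c)) (fun ρ _ => by
          rw [Real.norm_eq_abs, abs_of_nonneg (N_nonneg E i _)]; exact N_le hE hv i _)
      rw [Real.norm_eq_abs] at h
      have h2 := le_abs_self (∫ ρ in (1 : ℝ)..2, N E i (ρ * c))
      norm_num at h
      linarith
  have hsum : ∑ n ∈ Finset.range K, D E i (s / 2 ^ n) =
      4 * ((∫ ρ in (1 : ℝ)..2, N E i (ρ * (2 * s / 2 ^ K))) -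
        ∫ ρ in (1 : ℝ)..2, N E i (ρ * (2 * s))) := by
    induction K with
    | zero => simp
    | succ K ih =>
      rw [Finset.sum_range_succ, ih, D_eq hE hv]
      have e1 : 2 * (s / 2 ^ K) = 2 * s / 2 ^ K := by ring
      have e2 : 2 * s / 2 ^ (K + 1) = s / 2 ^ K := by
        rw [pow_succ]
        field_simp
      rw [e1, e2]
      ring
  rw [hsum]
  have h1 := (hb (2 * s / 2 ^ K)).2
  have h2 := (hb (2 * s)).1
  linarith

theorem D_le {E : Set (Pt d)} (hE : MeasurableSet E) (hv : volume E ≠ ⊤) (i : Fin d)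
    {s s1 : ℝ} (h0 : 0 < s1) (h1 : s1 ≤ s) (h2 : s ≤ 2 * s1) :
    D E i s ≤ D E i s1 + 2 * D E i (2 * s1) := by
  have key : ∀ c : ℝ, 0 < c → c * D E i c = ∫ t in c..(2 * c), M E i t := by
    intro c hc
    unfold D
    have h := intervalIntegral.integral_comp_mul_right (a := 1) (b := 2) (M E i) hc.ne'
    rw [h, smul_eq_mul, mul_inv_cancel_left₀ hc.ne', one_mul]
  have hs : 0 < s := h0.trans_le h1
  have k0 := key s hs
  have k1 := key s1 h0
  have k2 := key (2 * s1) (by positivity)
  have hadd : (∫ t in s1..(2 * s1), M E i t) + (∫ t in (2 * s1)..(2 * (2 * s1)), M E i t) =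
      ∫ t in s1..(2 * (2 * s1)), M E i t :=
    intervalIntegral.integral_add_adjacent_intervals (M_ii hE hv i _ _) (M_ii hE hv i _ _)
  have hle : (∫ t in s..(2 * s), M E i t) ≤ ∫ t in s1..(2 * (2 * s1)), M E i t :=
    intervalIntegral.integral_mono_interval h1 (by linarith) (by linarith)
      (Filter.Eventually.of_forall fun t => M_nonneg E i t) (M_ii hE hv i _ _)
  have hD : 0 ≤ D E i s := D_nonneg E i s
  have h3 : s1 * D E i s ≤ s1 * (D E i s1 + 2 * D E i (2 * s1)) := by
    calc s1 * D E i s ≤ s * D E i s := mul_le_mul_of_nonneg_right h1 hD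
      _ = _ := k0
      _ ≤ _ := hle
      _ = _ := hadd.symm
      _ = s1 * D E i s1 + 2 * s1 * D E i (2 * s1) := by rw [k1, k2]
      _ = _ := by ring
  exact le_of_mul_le_mul_left h3 h0

end Pool.Agent.R286.MG.EnAux
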