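import Pool.Agent.R286.MG.EnA

/-!
# MG-EN, part 2: one direction at a time (MP_b01677_an)
-/

set_option autoImplicit false

open MeasureTheory Set
open scoped ENNReal

namespace Pool.Agent.R286.MG.EnAux

/-! ### Cauchy-Schwarz -/

theorem cs {α : Type*} [MeasurableSpace α] (μ : Measure α) {f : α → ℝ≥0∞}
    (hf : AEMeasurable f μ) : (∫⁻ a, f a ∂μ) ^ 2 ≤ μ univ * ∫⁻ a, f a ^ 2 ∂μ := by
  have h := ENNReal.lintegral_mul_le_Lp_mul_Lq μ (Real.HolderConjugate.two_two) hf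
    (g := fun _ => (1 : ℝ≥0∞)) aemeasurable_const
  simp only [Pi.mul_apply, mul_one, ENNReal.one_rpow, lintegral_const, one_mul] at h
  have h2 : ∀ x : ℝ≥0∞, (x ^ (1 / 2 : ℝ)) ^ 2 = x := by
    intro x
    rw [← ENNReal.rpow_natCast, ← ENNReal.rpow_mul]
    norm_num
  calc (∫⁻ a, f a ∂μ) ^ 2
      ≤ ((∫⁻ a, f a ^ (2 : ℝ) ∂μ) ^ (1 / 2 : ℝ) * (μ univ) ^ (1 / 2 : ℝ)) ^ 2 :=
        pow_le_pow_left' h 2
    _ = μ univ * ∫⁻ a, f a ^ 2 ∂μ := by
        rw [mul_pow, h2, h2, mul_comm]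
        congr 1
        refine lintegral_congr fun a => ?_
        exact ENNReal.rpow_two (f a)

theorem cs1 {a b : ℝ} (hab : b - a = 1) {f : ℝ → ℝ≥0∞} (hf : Measurable f) :
    (∫⁻ t in Ioc a b, f t) ^ 2 ≤ ∫⁻ t in Ioc a b, f t ^ 2 := by
  have h := cs (volume.restrict (Ioc a b)) hf.aemeasurable
  rw [Measure.restrict_apply_univ, Real.volume_Ioc, hab, ENNReal.ofReal_one, one_mul] at h
  exact h

/-! ### the bump -/

theorem bump_cont {κ κ' : ℝ → ℝ} {C : ℝ} (hb : Bump κ κ' C) : Continuous κ :=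
  continuous_iff_continuousAt.2 fun t => (hb.hder t).continuousAt

theorem bump_cont' {κ κ' : ℝ → ℝ} {C : ℝ} (hb : Bump κ κ' C) : Continuous κ' := by
  have hC : 0 ≤ C := zero_le_one.trans hb.hC
  have : LipschitzWith ⟨C, hC⟩ κ' := LipschitzWith.of_dist_le_mul fun s t => by
    rw [Real.dist_eq, Real.dist_eq]
    exact hb.hlip s t
  exact this.continuous

theorem K_bound {κ κ' : ℝ → ℝ} {C : ℝ} (hb : Bump κ κ' C) {g : ℝ → ℝ} (hg : Measurable g)
    (hg1 : ∀ t, |g t| ≤ 1) (H : ℝ → ℝ → ℝ) (hH : Measurable (fun p : ℝ × ℝ => H p.1 p.2))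
    (hHe : ∀ ρ ∈ Ioc (1 : ℝ) 2, ∀ s, A1 ρ g s - A1 ρ g (s + ρ) = H ρ s) :
    ‖∫ t in (0 : ℝ)..5, g t * κ' t‖ₑ ^ 2 ≤
      ∫⁻ ρ in Ioc (1 : ℝ) 2, ∫⁻ s in Ioc (0 : ℝ) 1, ‖H ρ s‖ₑ ^ 2 := by
  have hHm : Measurable (fun p : ℝ × ℝ => ‖H p.1 p.2‖ₑ) := hH.enorm
  have h1 : ∫ t in (0 : ℝ)..5, g t * κ' t =
      ∫ ρ in Ioc (1 : ℝ) 2, ρ⁻¹ * ∫ s in Ioc (0 : ℝ) 1, H ρ s := by
    rw [hb.hrep g hg hg1, intervalIntegral.integral_of_le one_le_two]
    refine setIntegral_congr_fun measurableSet_Ioc fun ρ hρ => ?_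
    rw [intervalIntegral.integral_of_le zero_le_one]
    congr 2
    funext s
    exact hHe ρ hρ s
  have h2 : ‖∫ t in (0 : ℝ)..5, g t * κ' t‖ₑ ≤
      ∫⁻ ρ in Ioc (1 : ℝ) 2, ∫⁻ s in Ioc (0 : ℝ) 1, ‖H ρ s‖ₑ := by
    rw [h1]
    refine (enorm_integral_le_lintegral_enorm _).trans ?_
    refine setLIntegral_mono' measurableSet_Ioc fun ρ hρ => ?_
    rw [enorm_mul]
    have h3 : ‖ρ⁻¹‖ₑ ≤ 1 := by
      rw [Real.enorm_eq_ofReal_abs, abs_of_pos (inv_pos.2 (by linarith [hρ.1]))]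
      rw [ENNReal.ofReal_le_one]
      exact inv_le_one_of_one_le₀ hρ.1.le
    calc ‖ρ⁻¹‖ₑ * ‖∫ s in Ioc (0 : ℝ) 1, H ρ s‖ₑ ≤ 1 * ∫⁻ s in Ioc (0 : ℝ) 1, ‖H ρ s‖ₑ :=
          mul_le_mul' h3 (enorm_integral_le_lintegral_enorm _)
      _ = _ := one_mul _
  refine (pow_le_pow_left' h2 2).trans ?_
  have hm1 : Measurable fun ρ : ℝ => ∫⁻ s in Ioc (0 : ℝ) 1, ‖H ρ s‖ₑ :=
    Measurable.lintegral_prod_right' (ν := volume.restrict (Ioc (0 : ℝ) 1)) hHm
  refine (cs1 (by norm_num) hm1).trans ?_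
  refine setLIntegral_mono' measurableSet_Ioc fun ρ _ => ?_
  exact cs1 (by norm_num) (hHm.comp (measurable_const.prodMk measurable_id))

theorem K_sup {κ κ' : ℝ → ℝ} {C : ℝ} (hb : Bump κ κ' C) {g : ℝ → ℝ}
    (hg1 : ∀ t, |g t| ≤ 1) : ‖∫ t in (0 : ℝ)..5, g t * κ' t‖ₑ ≤ ENNReal.ofReal (5 * C) := by
  rw [Real.enorm_eq_ofReal_abs]
  apply ENNReal.ofReal_le_ofReal
  have h := intervalIntegral.norm_integral_le_of_norm_le_const (a := (0 : ℝ)) (b := 5) (C := C)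
    (f := fun t => g t * κ' t) (fun t _ => by
      rw [norm_mul, Real.norm_eq_abs, Real.norm_eq_abs]
      calc |g t| * |κ' t| ≤ 1 * C :=
            mul_le_mul (hg1 t) (hb.hbd t) (abs_nonneg _) zero_le_one
        _ = C := one_mul C)
  rw [Real.norm_eq_abs] at h
  norm_num at h
  linarith

theorem subst {a b : ℝ} (ha : 0 < a) {Ψ : ℝ → ℝ≥0∞} (hΨ : Measurable Ψ) :
    ∫⁻ s in Ioc (0 : ℝ) 1, Ψ ((s - b) / a) =
      ENNReal.ofReal a * ∫⁻ t in {t : ℝ | a * t + b ∈ Ioc (0 : ℝ) 1}, Ψ t := by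
  have hS : MeasurableSet {t : ℝ | a * t + b ∈ Ioc (0 : ℝ) 1} :=
    measurableSet_Ioc.preimage ((measurable_id.const_mul a).add_const b)
  set H : ℝ → ℝ≥0∞ := (Ioc (0 : ℝ) 1).indicator fun s => Ψ ((s - b) / a) with hH
  have hHm : Measurable H :=
    (hΨ.comp ((measurable_id.sub_const b).div_const a)).indicator measurableSet_Ioc
  rw [← lintegral_indicator measurableSet_Ioc, ← lintegral_indicator hS, ← hH]
  have h1 : ∫⁻ s, H s = ∫⁻ s, H (s + b) := (lintegral_add_right_eq_self H b).symm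
  have h2 : ∫⁻ s, H (s + b) = ENNReal.ofReal a * ∫⁻ t, H (a * t + b) := by
    have hm : Measurable fun s => H (s + b) := hHm.comp (measurable_id.add_const b)
    conv_lhs => rw [← Real.smul_map_volume_mul_left ha.ne', abs_of_pos ha]
    rw [lintegral_smul_measure, lintegral_map hm (measurable_const_mul a), smul_eq_mul]
  rw [h1, h2]
  congr 1
  refine lintegral_congr fun t => ?_
  rw [hH]
  by_cases ht : a * t + b ∈ Ioc (0 : ℝ) 1
  · rw [indicator_of_mem ht, indicator_of_mem (show t ∈ {t : ℝ | a * t + b ∈ Ioc (0 : ℝ) 1} from ht)]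
    congr 1
    field_simp
    ring
  · rw [indicator_of_notMem ht,
      indicator_of_notMem (show t ∉ {t : ℝ | a * t + b ∈ Ioc (0 : ℝ) 1} from ht)]

theorem subst' {κ κ' : ℝ → ℝ} {C : ℝ} (hb : Bump κ κ' C) {a b : ℝ} (ha : 0 < a) (g : ℝ → ℝ) :
    ∫ t, g t * κ' (a * t + b) = a⁻¹ * ∫ t in (0 : ℝ)..5, g ((t - b) / a) * κ' t := by
  set F : ℝ → ℝ := fun t => g ((t - b) / a) * κ' t with hF
  have h1 : (fun t => g t * κ' (a * t + b)) = fun t => (fun s => F (s + b)) (a * t) := by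
    funext t
    rw [hF]
    simp only
    congr 2
    field_simp
    ring
  rw [h1, Measure.integral_comp_mul_left (fun s => F (s + b)) a, integral_add_right_eq_self,
    smul_eq_mul, abs_of_pos (inv_pos.2 ha)]
  congr 1
  refine (intervalIntegral.integral_eq_integral_of_support_subset ?_).symm
  intro t ht
  rw [Function.mem_support, hF] at ht
  have h2 : κ' t ≠ 0 := right_ne_zero_of_mul ht
  constructor
  · by_contra hc
    exact h2 (hb.hsupp t (Or.inl (not_lt.1 hc))).2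
  · by_contra hc
    exact h2 (hb.hsupp t (Or.inr (not_le.1 hc).le)).2

/-! ### coordinates -/

variable {n : ℕ}

/-- the point with `i`-th coordinate `t` and other coordinates `y` -/
def ins (i : Fin (n + 1)) (t : ℝ) (y : Fin n → ℝ) : Pt (n + 1) :=
  Fin.insertNth (α := fun _ => ℝ) i t y

theorem ins_same (i : Fin (n + 1)) (t : ℝ) (y : Fin n → ℝ) : ins i t y i = t :=
  Fin.insertNth_apply_same (α := fun _ => ℝ) i t y

theorem ins_succ (i : Fin (n + 1)) (t : ℝ) (y : Fin n → ℝ) (j : Fin n) :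
    ins i t y (i.succAbove j) = y j := Fin.insertNth_apply_succAbove (α := fun _ => ℝ) i t y j

theorem ins_add (i : Fin (n + 1)) (t c : ℝ) (y : Fin n → ℝ) :
    ins i (t + c) y = ins i t y + c • ei i := by
  funext j
  rcases Fin.eq_self_or_eq_succAbove i j with rfl | ⟨j, rfl⟩
  · rw [ins_same, Pi.add_apply, ins_same, Pi.smul_apply, ei, Pi.single_eq_same, smul_eq_mul,
      mul_one]
  · rw [ins_succ, Pi.add_apply, ins_succ, Pi.smul_apply, ei,
      Pi.single_eq_of_ne (Fin.succAbove_ne i j), smul_zero, add_zero]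

theorem ins_mp (i : Fin (n + 1)) : MeasurePreserving (fun p : ℝ × (Fin n → ℝ) => ins i p.1 p.2)
    ((volume : Measure ℝ).prod (volume : Measure (Fin n → ℝ))) volume :=
  (volume_preserving_piFinSuccAbove (fun _ : Fin (n + 1) => ℝ) i).symm

theorem ins_emb (i : Fin (n + 1)) :
    MeasurableEmbedding (fun p : ℝ × (Fin n → ℝ) => ins i p.1 p.2) :=
  (MeasurableEquiv.piFinSuccAbove (fun _ : Fin (n + 1) => ℝ) i).symm.measurableEmbedding

theorem ins_meas (i : Fin (n + 1)) : Measurable (fun p : ℝ × (Fin n → ℝ) => ins i p.1 p.2) :=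
  (ins_mp i).measurable

theorem integral_ins (i : Fin (n + 1)) {F : Pt (n + 1) → ℝ} (hF : Integrable F) :
    ∫ y, F y = ∫ y' : Fin n → ℝ, ∫ t : ℝ, F (ins i t y') := by
  rw [← (ins_mp i).integral_comp (ins_emb i) F]
  exact integral_prod_symm _ (((ins_mp i).integrable_comp_emb (ins_emb i)).2 hF)

theorem lintegral_ins (i : Fin (n + 1)) {F : Pt (n + 1) → ℝ≥0∞} (hF : Measurable F) :
    ∫⁻ y, F y = ∫⁻ y' : Fin n → ℝ, ∫⁻ t : ℝ, F (ins i t y') := by
  rw [← (ins_mp i).lintegral_comp hF]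
  exact lintegral_prod_symm' _ (hF.comp (ins_meas i))

/-- one-dimensional averages along the line -/
theorem A1_line {E : Set (Pt (n + 1))} (i : Fin (n + 1)) {a : ℝ} (b : ℝ) (y' : Fin n → ℝ) {ρ : ℝ}
    (hρ : 0 < ρ) (s : ℝ) :
    A1 ρ (fun t => G E (ins i ((t - b) / a) y')) s = A E i (ρ * (1 / a)) (ins i ((s - b) / a) y') := by
  unfold A1 A
  have h := intervalIntegral.integral_comp_mul_left (a := 0) (b := 1)
    (fun t => G E (ins i ((s + t - b) / a) y')) hρ.ne'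
  rw [mul_zero, mul_one, smul_eq_mul] at h
  rw [← h]
  congr 1
  funext u
  rw [← ins_add]
  congr 2
  ring

theorem Dl_line {E : Set (Pt (n + 1))} (i : Fin (n + 1)) {a : ℝ} (b : ℝ) (y' : Fin n → ℝ) {ρ : ℝ}
    (hρ : 0 < ρ) (s : ℝ) :
    A1 ρ (fun t => G E (ins i ((t - b) / a) y')) s -
      A1 ρ (fun t => G E (ins i ((t - b) / a) y')) (s + ρ) =
      Dl E i (ρ * (1 / a)) (ins i ((s - b) / a) y') := by
  rw [A1_line i b y' hρ, A1_line i b y' hρ]
  unfold Dl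
  rw [← ins_add]
  congr 3
  ring

end Pool.Agent.R286.MG.EnAux
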