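import Pool.Agent.R286.MG.Stm

set_option autoImplicit false

open MeasureTheory Finset
open scoped Pointwise

namespace Pool.Agent.R286.MG

namespace FinA

variable {d : ℕ}

/-- real vector of an integer vector -/
def kr (k : Fin d → ℤ) : Pt d := fun i => (k i : ℝ)

/-- coordinatewise floor -/
noncomputable def fl (z : Pt d) : Fin d → ℤ := fun i => ⌊z i⌋

theorem w_continuous (j : Fin d) : Continuous (w j) := by
  unfold w
  have h : ∀ y : Pt d, 2 * Real.sqrt (1 + ∑ i, y i ^ 2) ≠ 0 := by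
    intro y
    have : 0 < 1 + ∑ i, y i ^ 2 := by positivity
    have := Real.sqrt_pos.mpr this
    positivity
  refine continuous_const.add (Continuous.div ?_ ?_ h)
  · exact continuous_apply j
  · fun_prop

theorem w_mem (j : Fin d) (y : Pt d) : 0 ≤ w j y ∧ w j y ≤ 1 := by
  unfold w
  have h0 : 0 < 1 + ∑ i, y i ^ 2 := by positivity
  have hs := Real.sqrt_pos.mpr h0
  have h1 : |y j| ≤ Real.sqrt (1 + ∑ i, y i ^ 2) := by
    apply Real.abs_le_sqrt
    have : y j ^ 2 ≤ ∑ i, y i ^ 2 :=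
      Finset.single_le_sum (f := fun i => y i ^ 2) (fun i _ => sq_nonneg _) (mem_univ j)
    linarith
  have h2 := abs_le.mp h1
  have h3 : -(1/2) ≤ y j / (2 * Real.sqrt (1 + ∑ i, y i ^ 2)) := by
    rw [le_div_iff₀ (by positivity)]; linarith
  have h4 : y j / (2 * Real.sqrt (1 + ∑ i, y i ^ 2)) ≤ 1/2 := by
    rw [div_le_iff₀ (by positivity)]; linarith
  constructor <;> linarith

theorem mem_cell_iff (k : Fin d → ℤ) (z : Pt d) : z ∈ cell k ↔ k = fl z := by
  constructor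
  · intro h
    funext i
    exact (Int.floor_eq_iff.mpr (h i)).symm
  · rintro rfl i
    exact ⟨Int.floor_le _, Int.lt_floor_add_one _⟩

theorem measurableSet_cell (k : Fin d → ℤ) : MeasurableSet (cell k) := by
  have : cell k = Set.pi Set.univ (fun i => Set.Ico (k i : ℝ) ((k i : ℝ) + 1)) := by
    ext y; simp [cell]
  rw [this]
  exact MeasurableSet.univ_pi (fun i => measurableSet_Ico)

/-- the function in one cell -/
noncomputable def uc (T : Set (Pt d)) (k : Fin d → ℤ) (v : Pt d → ℝ) (y : Pt d) : ℝ :=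
  T.indicator (fun _ => (1 : ℝ)) y - (cell k).indicator v y

theorem ind01 (T : Set (Pt d)) (v : Pt d → ℝ) (hv : ∀ y, 0 ≤ v y ∧ v y ≤ 1) (y : Pt d) :
    0 ≤ T.indicator v y ∧ T.indicator v y ≤ 1 := by
  by_cases h : y ∈ T
  · rw [Set.indicator_of_mem h]; exact hv y
  · rw [Set.indicator_of_notMem h]; norm_num

theorem one01 (T : Set (Pt d)) (y : Pt d) :
    0 ≤ T.indicator (fun _ => (1 : ℝ)) y ∧ T.indicator (fun _ => (1 : ℝ)) y ≤ 1 :=
  ind01 T _ (fun _ => by norm_num) y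

theorem int_ok {E : Set (Pt d)} (hE : volume E ≠ ⊤) (u : Pt d → ℝ) (hu : Measurable u)
    (hb : ∀ y, |u y| ≤ 1) (r : ℝ) (x : Pt d) :
    IntegrableOn (fun y => u (x + r • y)) E volume := by
  refine Measure.integrableOn_of_bounded (M := 1) hE ?_ ?_
  · apply Measurable.aestronglyMeasurable
    apply hu.comp
    fun_prop
  · exact Filter.Eventually.of_forall (fun y => hb _)

theorem P_add {E : Set (Pt d)} (hE : volume E ≠ ⊤) (u v : Pt d → ℝ) (hu : Measurable u)
    (hb : ∀ y, |u y| ≤ 1) (hv : Measurable v) (hc : ∀ y, |v y| ≤ 1) (r : ℝ) (x : Pt d) :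
    P E (fun y => u y + v y) r x = P E u r x + P E v r x := by
  unfold P
  rw [integral_add (int_ok hE u hu hb r x) (int_ok hE v hv hc r x)]; ring

theorem P_sum {E : Set (Pt d)} (hE : volume E ≠ ⊤) (K : Finset (Fin d → ℤ))
    (u : (Fin d → ℤ) → Pt d → ℝ) (hu : ∀ k, Measurable (u k))
    (hb : ∀ k y, |u k y| ≤ 1) (r : ℝ) (x : Pt d) :
    P E (fun y => ∑ k ∈ K, u k y) r x = ∑ k ∈ K, P E (u k) r x := by
  unfold P
  rw [integral_finsetSum K (fun k _ => int_ok hE (u k) (hu k) (hb k) r x), Finset.mul_sum]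

theorem P_congr {E : Set (Pt d)} (hEm : MeasurableSet E) (u v : Pt d → ℝ) (r : ℝ) (x : Pt d)
    (h : ∀ y ∈ E, u (x + r • y) = v (x + r • y)) : P E u r x = P E v r x := by
  unfold P
  rw [setIntegral_congr_fun hEm h]

/-- the decomposition of the difference function into the cells -/
theorem decomp (Tc : (Fin d → ℤ) → Set (Pt d)) (hTs : ∀ k, Tc k ⊆ cell k) (v : Pt d → ℝ)
    (K : Finset (Fin d → ℤ)) (z : Pt d) (hz : fl z ∈ K) :
    (⋃ k, Tc k).indicator (fun _ => (1 : ℝ)) z - v z = ∑ k ∈ K, uc (Tc k) k v z := by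
  rw [Finset.sum_eq_single (fl z)]
  · unfold uc
    have h1 : z ∈ cell (fl z) := (mem_cell_iff _ _).mpr rfl
    rw [Set.indicator_of_mem h1]
    congr 1
    by_cases h : z ∈ Tc (fl z)
    · rw [Set.indicator_of_mem h, Set.indicator_of_mem (Set.mem_iUnion.mpr ⟨_, h⟩)]
    · rw [Set.indicator_of_notMem h, Set.indicator_of_notMem]
      intro h2
      obtain ⟨k, hk⟩ := Set.mem_iUnion.mp h2
      have := (mem_cell_iff _ _).mp (hTs k hk)
      rw [this] at hk
      exact h hk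
  · intro k _ hk
    have h1 : z ∉ cell k := fun h => hk ((mem_cell_iff _ _).mp h)
    have h2 : z ∉ Tc k := fun h => h1 (hTs k h)
    unfold uc
    rw [Set.indicator_of_notMem h1, Set.indicator_of_notMem h2]; simp
  · intro h; exact absurd hz h

theorem uc_measurable (T : Set (Pt d)) (hT : MeasurableSet T) (k : Fin d → ℤ) (v : Pt d → ℝ)
    (hv : Continuous v) : Measurable (uc T k v) := by
  unfold uc
  exact (measurable_const.indicator hT).sub (hv.measurable.indicator (measurableSet_cell k))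

theorem uc_bd (T : Set (Pt d)) (k : Fin d → ℤ) (v : Pt d → ℝ)
    (hv : ∀ y, 0 ≤ v y ∧ v y ≤ 1) (y : Pt d) : |uc T k v y| ≤ 1 := by
  unfold uc
  have h1 := one01 T y
  have h2 := ind01 (cell k) v hv y
  rw [abs_le]; constructor <;> linarith [h1.1, h1.2, h2.1, h2.2]

theorem norm_sub_fl (z : Pt d) : ‖z - kr (fl z)‖ ≤ 1 := by
  rw [pi_norm_le_iff_of_nonneg zero_le_one]
  intro i
  simp only [kr, fl, Pi.sub_apply, Real.norm_eq_abs]
  rw [abs_le]
  constructor
  · linarith [Int.floor_le (z i)]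
  · linarith [Int.lt_floor_add_one (z i)]

/-- the finite set of the relevant cells -/
noncomputable def KK (r L : ℝ) (x : Pt d) : Finset (Fin d → ℤ) := by
  classical
  exact (Fintype.piFinset fun _ : Fin d => Finset.Icc (-⌈‖x‖ + r * L + 2⌉) ⌈‖x‖ + r * L + 2⌉).filter
    (fun k => ‖x‖ ≤ ‖kr k‖ + 2 + r * L)

theorem mem_KK {r L : ℝ} (hr : 1 ≤ r) (x x0 y : Pt d) (h0 : ‖x - x0‖ ≤ 1) (hy : ‖y‖ ≤ L) :
    fl (x0 + r • y) ∈ KK r L x := by
  classical
  set z := x0 + r • y with hz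
  have h1 := norm_sub_fl z
  have h2 : ‖r • y‖ ≤ r * L := by
    rw [norm_smul, Real.norm_eq_abs, abs_of_nonneg (by linarith)]
    exact mul_le_mul_of_nonneg_left hy (by linarith)
  have h3 : ‖kr (fl z)‖ ≤ ‖z‖ + 1 := by
    have := norm_sub_norm_le (kr (fl z)) z
    rw [norm_sub_rev] at this
    linarith
  have h3' : ‖z‖ ≤ ‖kr (fl z)‖ + 1 := by
    have := norm_sub_norm_le z (kr (fl z))
    linarith
  have h4 : ‖z‖ ≤ ‖x0‖ + r * L := (norm_add_le _ _).trans (by linarith)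
  have h5 : ‖x0‖ ≤ ‖x‖ + 1 := by
    have := norm_sub_norm_le x0 x
    rw [norm_sub_rev] at this
    linarith
  have h6 : ‖x‖ ≤ ‖x0‖ + 1 := by
    have := norm_sub_norm_le x x0
    linarith
  have h7 : ‖x0‖ ≤ ‖z‖ + r * L := by
    have : x0 = z - r • y := by rw [hz]; simp
    rw [this]
    exact (norm_sub_le _ _).trans (by linarith)
  unfold KK
  rw [Finset.mem_filter, Fintype.mem_piFinset]
  refine ⟨?_, by linarith⟩
  intro i
  have h8 : ‖(kr (fl z)) i‖ ≤ ‖kr (fl z)‖ := norm_le_pi_norm _ i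
  simp only [kr, Real.norm_eq_abs] at h8
  have h9 := Int.le_ceil (‖x‖ + r * L + 2)
  have h10 : |((fl z i : ℤ) : ℝ)| ≤ (⌈‖x‖ + r * L + 2⌉ : ℝ) := by
    refine h8.trans ?_
    change ‖kr (fl z)‖ ≤ _
    linarith
  rw [abs_le] at h10
  rw [Finset.mem_Icc]
  constructor
  · exact_mod_cast h10.1
  · exact_mod_cast h10.2

theorem KK_norm {r L : ℝ} (x : Pt d) {k : Fin d → ℤ} (hk : k ∈ KK r L x) :
    ‖x‖ ≤ ‖kr k‖ + 2 + r * L := by
  classical
  unfold KK at hk
  exact (Finset.mem_filter.mp hk).2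

/-- the total error -/
theorem err (hd : 2 ≤ d) {E : Set (Pt d)} (hEm : MeasurableSet E) (hEf : volume E ≠ ⊤) {L : ℝ}
    (hL : 1 ≤ L) (hEL : ∀ y ∈ E, ‖y‖ ≤ L) (Tc : (Fin d → ℤ) → Set (Pt d))
    (hTm : ∀ k, MeasurableSet (Tc k)) (hTs : ∀ k, Tc k ⊆ cell k) (v : Pt d → ℝ)
    (hvc : Continuous v) (hv : ∀ y, 0 ≤ v y ∧ v y ≤ 1)
    (ε' : (Fin d → ℤ) → ℝ) (hε' : ∀ k, 0 < ε' k) (η : ℝ)
    (hsum : ∀ K : Finset (Fin d → ℤ), ∑ k ∈ K, ε' k ≤ η)
    (hT : ∀ k, ∀ r : ℝ, 1 ≤ r → ∀ x x' : Pt d, |P E (uc (Tc k) k v) r x -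
      P E (uc (Tc k) k v) r x'| ≤ (ε' k / (1 + ‖kr k‖) ^ 3) * r ^ (d - 1) * ‖x - x'‖)
    (r : ℝ) (hr : 1 ≤ r) (x x' : Pt d) (hxx : ‖x - x'‖ ≤ 1) :
    |P E (fun y => (⋃ k, Tc k).indicator (fun _ => (1 : ℝ)) y - v y) r x -
      P E (fun y => (⋃ k, Tc k).indicator (fun _ => (1 : ℝ)) y - v y) r x'| ≤
      η * (3 + L) ^ 3 * (r ^ (d + 2) / (r + ‖x‖) ^ 3) * ‖x - x'‖ := by
  have key : ∀ x0 : Pt d, ‖x - x0‖ ≤ 1 →
      P E (fun y => (⋃ k, Tc k).indicator (fun _ => (1 : ℝ)) y - v y) r x0 =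
      ∑ k ∈ KK r L x, P E (uc (Tc k) k v) r x0 := by
    intro x0 h0
    rw [← P_sum hEf _ _ (fun k => uc_measurable _ (hTm k) k v hvc) (fun k y => uc_bd _ k v hv y)]
    apply P_congr hEm
    intro y hy
    exact decomp Tc hTs v _ _ (mem_KK hr x x0 y h0 (hEL y hy))
  rw [key x (by simp), key x' hxx, ← Finset.sum_sub_distrib]
  refine (Finset.abs_sum_le_sum_abs _ _).trans ?_
  have hx0 := norm_nonneg x
  have hR : 0 < r + ‖x‖ := by linarith
  have hterm : ∀ k ∈ KK r L x, |P E (uc (Tc k) k v) r x - P E (uc (Tc k) k v) r x'| ≤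
      ε' k * ((3 + L) ^ 3 * (r ^ (d + 2) / (r + ‖x‖) ^ 3) * ‖x - x'‖) := by
    intro k hk
    refine (hT k r hr x x').trans ?_
    have h1 := KK_norm x hk
    have hk0 := norm_nonneg (kr k)
    have h2 : r + ‖x‖ ≤ r * (3 + L) * (1 + ‖kr k‖) := by
      have a1 : ‖kr k‖ ≤ r * ‖kr k‖ := le_mul_of_one_le_left hk0 hr
      have a2 : 0 ≤ r * L * ‖kr k‖ := by positivity
      have a3 : 0 ≤ r * ‖kr k‖ := by positivity
      nlinarith
    have h3 : (r + ‖x‖) ^ 3 ≤ (r * (3 + L) * (1 + ‖kr k‖)) ^ 3 :=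
      pow_le_pow_left₀ hR.le h2 3
    have h4 : r ^ (d - 1) / (1 + ‖kr k‖) ^ 3 ≤ (3 + L) ^ 3 * (r ^ (d + 2) / (r + ‖x‖) ^ 3) := by
      rw [← mul_div_assoc, div_le_div_iff₀ (by positivity) (by positivity)]
      have h5 : r ^ (d + 2) = r ^ (d - 1) * r ^ 3 := by
        rw [← pow_add]; congr 1; omega
      rw [h5]
      calc r ^ (d - 1) * (r + ‖x‖) ^ 3 ≤ r ^ (d - 1) * (r * (3 + L) * (1 + ‖kr k‖)) ^ 3 :=
            mul_le_mul_of_nonneg_left h3 (by positivity)
        _ = (3 + L) ^ 3 * (r ^ (d - 1) * r ^ 3) * (1 + ‖kr k‖) ^ 3 := by ring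
    have h6 := mul_le_mul_of_nonneg_left h4 (hε' k).le
    have h7 := mul_le_mul_of_nonneg_right h6 (norm_nonneg (x - x'))
    calc ε' k / (1 + ‖kr k‖) ^ 3 * r ^ (d - 1) * ‖x - x'‖
        = ε' k * (r ^ (d - 1) / (1 + ‖kr k‖) ^ 3) * ‖x - x'‖ := by ring
      _ ≤ _ := h7
      _ = _ := by ring
  refine (Finset.sum_le_sum hterm).trans ?_
  rw [← Finset.sum_mul]
  have h8 : 0 ≤ (3 + L) ^ 3 * (r ^ (d + 2) / (r + ‖x‖) ^ 3) * ‖x - x'‖ := by positivity
  refine (mul_le_mul_of_nonneg_right (hsum _) h8).trans (le_of_eq ?_)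
  ring

/-- local strict monotonicity implies global strict monotonicity -/
theorem subdiv (F : Fin d → Pt d → ℝ)
    (hF : ∀ x x' : Pt d, x ≠ x' → ‖x - x'‖ ≤ 1 → 0 < ∑ j, (F j x - F j x') * (x j - x' j))
    (x x' : Pt d) (hne : x ≠ x') : 0 < ∑ j, (F j x - F j x') * (x j - x' j) := by
  obtain ⟨N, hN⟩ := exists_nat_gt ‖x - x'‖
  have hNpos : (0:ℝ) < N := lt_of_le_of_lt (norm_nonneg _) hN
  have hN0 : 0 < N := by exact_mod_cast hNpos
  set p : ℕ → Pt d := fun i => x' + ((i : ℝ) / N) • (x - x') with hp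
  have hstep : ∀ i, p (i + 1) - p i = ((1:ℝ) / N) • (x - x') := by
    intro i
    simp only [hp]
    rw [add_sub_add_left_eq_sub, ← sub_smul]
    congr 1; push_cast; ring
  have hpne : ∀ i, p (i + 1) ≠ p i := by
    intro i h
    have h1 := hstep i
    rw [h, sub_self] at h1
    have h2 : x - x' = 0 := by
      rcases smul_eq_zero.mp h1.symm with h3 | h3
      · exfalso
        have : (0:ℝ) < 1 / N := by positivity
        linarith
      · exact h3
    exact hne (sub_eq_zero.mp h2)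
  have hple : ∀ i, ‖p (i + 1) - p i‖ ≤ 1 := by
    intro i
    rw [hstep, norm_smul, Real.norm_eq_abs, abs_of_pos (by positivity), one_div,
      inv_mul_le_iff₀ hNpos]
    linarith
  have hpos : 0 < ∑ i ∈ Finset.range N, ∑ j, (F j (p (i + 1)) - F j (p i)) * (p (i + 1) j - p i j) := by
    apply Finset.sum_pos
    · intro i _; exact hF _ _ (hpne i) (hple i)
    · exact ⟨0, by simpa using hN0⟩
  have hcoord : ∀ i j, p (i + 1) j - p i j = (1 / (N:ℝ)) * (x j - x' j) := by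
    intro i j
    have := congrFun (hstep i) j
    simpa using this
  have heq : ∑ i ∈ Finset.range N, ∑ j, (F j (p (i + 1)) - F j (p i)) * (p (i + 1) j - p i j) =
      (1 / (N:ℝ)) * ∑ j, (F j x - F j x') * (x j - x' j) := by
    rw [Finset.sum_comm, Finset.mul_sum]
    apply Finset.sum_congr rfl
    intro j _
    simp only [hcoord]
    rw [← Finset.sum_mul, Finset.sum_range_sub (fun i => F j (p i))]
    have e0 : p 0 = x' := by simp [hp]
    have e1 : p N = x := by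
      simp only [hp]
      rw [div_self hNpos.ne', one_smul]; simp
    rw [e0, e1]; ring
  rw [heq] at hpos
  by_contra hcon
  push Not at hcon
  have : (1 / (N:ℝ)) * ∑ j, (F j x - F j x') * (x j - x' j) ≤ 0 :=
    mul_nonpos_of_nonneg_of_nonpos (by positivity) hcon
  linarith

theorem sq_norm_le_sum (v : Pt d) : ‖v‖ ^ 2 ≤ ∑ j, v j ^ 2 := by
  have h0 : 0 ≤ ∑ j, v j ^ 2 := Finset.sum_nonneg (fun j _ => sq_nonneg _)
  have h1 : ‖v‖ ≤ Real.sqrt (∑ j, v j ^ 2) := by
    rw [pi_norm_le_iff_of_nonneg (Real.sqrt_nonneg _)]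
    intro i
    rw [Real.norm_eq_abs]
    apply Real.abs_le_sqrt
    exact Finset.single_le_sum (f := fun i => v i ^ 2) (fun i _ => sq_nonneg _) (mem_univ i)
  calc ‖v‖ ^ 2 ≤ (Real.sqrt (∑ j, v j ^ 2)) ^ 2 := pow_le_pow_left₀ (norm_nonneg _) h1 2
    _ = _ := Real.sq_sqrt h0

/-- the test sets -/
theorem tests (hd : 2 ≤ d) (hM : StMon d) (hC : StCell d) {E : Set (Pt d)}
    (hEm : MeasurableSet E) (hEb : Bornology.IsBounded E) (hE0 : 0 < volume E) :
    ∃ T : Fin d → Set (Pt d), (∀ j, MeasurableSet (T j)) ∧ ∀ r : ℝ, 1 ≤ r → ∀ x x' : Pt d,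
      x ≠ x' → 0 < ∑ j, (P E ((T j).indicator (fun _ => (1 : ℝ))) r x -
        P E ((T j).indicator (fun _ => (1 : ℝ))) r x') * (x j - x' j) := by
  obtain ⟨c, hc, hmon⟩ := hM E hEm hEb hE0
  obtain ⟨L0, hL0⟩ := hEb.exists_norm_le
  set L := max L0 1 with hLdef
  have hL : 1 ≤ L := le_max_right _ _
  have hEL : ∀ y ∈ E, ‖y‖ ≤ L := fun y hy => (hL0 y hy).trans (le_max_left _ _)
  have hEf : volume E ≠ ⊤ := hEb.measure_lt_top.ne
  have hdpos : (0:ℝ) < d := by exact_mod_cast (show 0 < d by omega)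
  set η : ℝ := c / (2 * d * (3 + L) ^ 3) with hη
  have hηpos : 0 < η := by positivity
  obtain ⟨ε', hε', s, hs, hsη⟩ := posSumOfEncodable hηpos (Fin d → ℤ)
  have hsum : ∀ K : Finset (Fin d → ℤ), ∑ k ∈ K, ε' k ≤ η := fun K =>
    (sum_le_hasSum K (fun k _ => (hε' k).le) hs).trans hsη
  have hex : ∀ (j : Fin d) (k : Fin d → ℤ), ∃ T : Set (Pt d), MeasurableSet T ∧ T ⊆ cell k ∧
      ∀ r : ℝ, 1 ≤ r → ∀ x x' : Pt d, |P E (uc T k (w j)) r x -
      P E (uc T k (w j)) r x'| ≤ (ε' k / (1 + ‖kr k‖) ^ 3) * r ^ (d - 1) * ‖x - x'‖ := by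
    intro j k
    exact hC E hEm hEb k (w j) (w_continuous j) (w_mem j) _
      (by have := hε' k; have := norm_nonneg (kr k); positivity)
  choose Tc hTm hTs hT using hex
  refine ⟨fun j => ⋃ k, Tc j k, fun j => MeasurableSet.iUnion (hTm j), ?_⟩
  intro r hr
  apply subdiv (fun j x => P E ((⋃ k, Tc j k).indicator (fun _ => (1 : ℝ))) r x)
  intro x x' hne hxx
  have hx0 := norm_nonneg x
  set Q : ℝ := r ^ (d + 2) / (r + ‖x‖) ^ 3 with hQ
  have hQpos : 0 < Q := by positivity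
  have hdec : ∀ j (z : Pt d), P E ((⋃ k, Tc j k).indicator (fun _ => (1 : ℝ))) r z =
      P E (w j) r z +
      P E (fun y => (⋃ k, Tc j k).indicator (fun _ => (1 : ℝ)) y - w j y) r z := by
    intro j z
    rw [← P_add hEf]
    · apply P_congr hEm
      intro y _
      ring
    · exact (w_continuous j).measurable
    · intro y
      have := w_mem j y
      rw [abs_le]; constructor <;> linarith [this.1, this.2]
    · exact (measurable_const.indicator (MeasurableSet.iUnion (hTm j))).sub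
        (w_continuous j).measurable
    · intro y
      have h1 := one01 (⋃ k, Tc j k) y
      have h2 := w_mem j y
      rw [abs_le]; constructor <;> linarith [h1.1, h1.2, h2.1, h2.2]
  have herr := fun j => err hd hEm hEf hL hEL (Tc j) (hTm j) (hTs j) (w j) (w_continuous j)
    (w_mem j) ε' hε' η hsum (hT j) r hr x x' hxx
  have hm := hmon r hr x x' hxx
  set e : Fin d → ℝ := fun j =>
    P E (fun y => (⋃ k, Tc j k).indicator (fun _ => (1 : ℝ)) y - w j y) r x -
    P E (fun y => (⋃ k, Tc j k).indicator (fun _ => (1 : ℝ)) y - w j y) r x' with he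
  have hsplit : ∑ j, (P E ((⋃ k, Tc j k).indicator (fun _ => (1 : ℝ))) r x -
        P E ((⋃ k, Tc j k).indicator (fun _ => (1 : ℝ))) r x') * (x j - x' j) =
      ∑ j, (P E (w j) r x - P E (w j) r x') * (x j - x' j) + ∑ j, e j * (x j - x' j) := by
    rw [← Finset.sum_add_distrib]
    apply Finset.sum_congr rfl
    intro j _
    rw [hdec j x, hdec j x', he]; ring
  rw [hsplit]
  have hS := sq_norm_le_sum (x - x')
  simp only [Pi.sub_apply] at hS
  have hSpos : 0 < ∑ j, (x j - x' j) ^ 2 := by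
    have : 0 < ‖x - x'‖ := norm_pos_iff.mpr (sub_ne_zero.mpr hne)
    have : 0 < ‖x - x'‖ ^ 2 := by positivity
    linarith
  have hej : ∀ j ∈ (Finset.univ : Finset (Fin d)),
      -(η * (3 + L) ^ 3 * Q * ‖x - x'‖ ^ 2) ≤ e j * (x j - x' j) := by
    intro j _
    have h1 : |e j| ≤ η * (3 + L) ^ 3 * Q * ‖x - x'‖ := herr j
    have h2 : |x j - x' j| ≤ ‖x - x'‖ := by
      have := norm_le_pi_norm (x - x') j
      simpa using this
    have h3 : |e j * (x j - x' j)| ≤ (η * (3 + L) ^ 3 * Q * ‖x - x'‖) * ‖x - x'‖ := by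
      rw [abs_mul]
      exact mul_le_mul h1 h2 (abs_nonneg _) (by positivity)
    have h4 := (abs_le.mp h3).1
    calc -(η * (3 + L) ^ 3 * Q * ‖x - x'‖ ^ 2) = -((η * (3 + L) ^ 3 * Q * ‖x - x'‖) * ‖x - x'‖) := by
          ring
      _ ≤ _ := h4
  have hE1 : -(d * (η * (3 + L) ^ 3 * Q * ‖x - x'‖ ^ 2)) ≤ ∑ j, e j * (x j - x' j) := by
    have := Finset.card_nsmul_le_sum _ _ _ hej
    simp only [Finset.card_univ, Fintype.card_fin, nsmul_eq_mul] at this
    linarith
  have hE2 : d * (η * (3 + L) ^ 3 * Q * ‖x - x'‖ ^ 2) ≤ c / 2 * Q * ∑ j, (x j - x' j) ^ 2 := by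
    have e1 : d * (η * (3 + L) ^ 3 * Q * ‖x - x'‖ ^ 2) = c / 2 * Q * ‖x - x'‖ ^ 2 := by
      rw [hη]
      have : (3 + L) ^ 3 ≠ 0 := by positivity
      field_simp
    rw [e1]
    exact mul_le_mul_of_nonneg_left hS (by positivity)
  have hE3 : 0 < c / 2 * Q * ∑ j, (x j - x' j) ^ 2 := by positivity
  have hm' : c * Q * ∑ j, (x j - x' j) ^ 2 ≤
      ∑ j, (P E (w j) r x - P E (w j) r x') * (x j - x' j) := hm
  have e3 : c * Q * ∑ j, (x j - x' j) ^ 2 = c / 2 * Q * ∑ j, (x j - x' j) ^ 2 +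
    c / 2 * Q * ∑ j, (x j - x' j) ^ 2 := by ring
  linarith

theorem vol_image (r : ℝ) (x : Pt d) (S : Set (Pt d)) :
    volume ((fun y => r • y + x) '' S) = ENNReal.ofReal |r ^ d| * volume S := by
  have h1 : (fun y => r • y + x) '' S = (fun z => z + x) '' (r • S) := by
    rw [← Set.image_smul, Set.image_image]
  rw [h1, Set.image_add_right, measure_preimage_add_right, Measure.addHaar_smul]
  simp

theorem vol_inter {E E' : Set (Pt d)} (hae : E' =ᵐ[volume] E) (r : ℝ) (hr : 1 ≤ r) (x : Pt d)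
    (T : Set (Pt d)) (hT : MeasurableSet T) :
    (volume (((fun y => r • y + x) '' E) ∩ T)).toReal =
      P E' (T.indicator (fun _ => (1 : ℝ))) r x := by
  rw [← Set.image_inter_preimage, vol_image]
  have h1 : volume (E ∩ (fun y => r • y + x) ⁻¹' T) = volume (E' ∩ (fun y => r • y + x) ⁻¹' T) :=
    measure_congr (hae.symm.inter (Filter.EventuallyEq.refl _ _))
  rw [h1, ENNReal.toReal_mul, abs_of_nonneg (by positivity), ENNReal.toReal_ofReal (by positivity)]
  unfold P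
  congr 1
  have hm : MeasurableSet ((fun y : Pt d => r • y + x) ⁻¹' T) := by
    apply hT.preimage; fun_prop
  have h2 : (fun y : Pt d => T.indicator (fun _ => (1 : ℝ)) (x + r • y)) =
      ((fun y : Pt d => r • y + x) ⁻¹' T).indicator (fun _ => (1 : ℝ)) := by
    funext y
    rw [add_comm x]
    rfl
  rw [h2]
  have h3 : ∫ y in E', ((fun y : Pt d => r • y + x) ⁻¹' T).indicator (fun _ => (1 : ℝ)) y =
      (volume.restrict E').real ((fun y : Pt d => r • y + x) ⁻¹' T) := integral_indicator_one hm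
  rw [h3, Measure.real, Measure.restrict_apply hm, Set.inter_comm]

end FinA

open FinA in
theorem fin (d : ℕ) (hd : 2 ≤ d) (hM : StMon d) (hC : StCell d) : StFin d := by
  intro E hE hEb hE0
  obtain ⟨E', hsub, hE'm, hae⟩ := hE.exists_measurable_subset_ae_eq
  have hE'b : Bornology.IsBounded E' := hEb.subset hsub
  have hE'0 : 0 < volume E' := by rw [measure_congr hae]; exact hE0
  obtain ⟨T, hTm, hT⟩ := tests hd hM hC hE'm hE'b hE'0
  refine ⟨Fin.cons Set.univ T, ?_, ?_⟩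
  · intro i
    refine Fin.cases ?_ ?_ i
    · simp
    · intro j; simpa using hTm j
  rintro A ⟨r, hr, x, rfl⟩ B ⟨r', hr', x', rfl⟩ h
  have hEf : volume E ≠ ⊤ := hEb.measure_lt_top.ne
  have h0 := h 0
  simp only [Fin.cons_zero, Set.inter_univ] at h0
  rw [vol_image, vol_image] at h0
  have h1 := (ENNReal.mul_left_inj hE0.ne' hEf).mp h0
  have hrr : r = r' := by
    have h2 := congrArg ENNReal.toReal h1
    rw [ENNReal.toReal_ofReal (abs_nonneg _), ENNReal.toReal_ofReal (abs_nonneg _),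
      abs_of_nonneg (by positivity), abs_of_nonneg (by positivity)] at h2
    exact (pow_left_inj₀ (by linarith) (by linarith) (by omega)).mp h2
  subst hrr
  have hxx : x = x' := by
    by_contra hne
    have h2 := hT r hr x x' hne
    have h3 : ∑ j, (P E' ((T j).indicator (fun _ => (1 : ℝ))) r x -
        P E' ((T j).indicator (fun _ => (1 : ℝ))) r x') * (x j - x' j) = 0 := by
      apply Finset.sum_eq_zero
      intro j _
      have h4 := h j.succ
      simp only [Fin.cons_succ] at h4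
      rw [← vol_inter hae r hr x (T j) (hTm j), ← vol_inter hae r hr x' (T j) (hTm j), h4]
      simp
    linarith
  rw [hxx]

end Pool.Agent.R286.MG
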