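import Pool.Agent.R286.MG.Stm

/-!
# Choice of signs and choice of a scale (piece MG-HS of MP_b01677_an)
-/

set_option autoImplicit false

open MeasureTheory Finset

namespace Pool.Agent.R286.MG

namespace HS

/-- the sign attached to a boolean -/
noncomputable def sg (s : Bool) : ℝ := if s then 1 else -1

theorem exp_avg {ι : Type} [Fintype ι] [DecidableEq ι] (b : ι → ℝ) (μ : ℝ) :
    ∑ σ : ι → Bool, Real.exp (μ * ∑ q, sg (σ q) * b q) ≤
      2 ^ Fintype.card ι * Real.exp (μ ^ 2 * (∑ q, b q ^ 2) / 2) := by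
  have h1 : ∀ σ : ι → Bool, Real.exp (μ * ∑ q, sg (σ q) * b q) =
      ∏ q, Real.exp (μ * (sg (σ q) * b q)) := by
    intro σ
    rw [mul_sum, Real.exp_sum]
  have h2 : ∑ σ : ι → Bool, Real.exp (μ * ∑ q, sg (σ q) * b q) =
      ∏ q, ∑ s : Bool, Real.exp (μ * (sg s * b q)) := by
    rw [Finset.prod_univ_sum, Fintype.piFinset_univ]
    exact Finset.sum_congr rfl (fun σ _ => h1 σ)
  rw [h2]
  have h3 : ∀ q, ∑ s : Bool, Real.exp (μ * (sg s * b q)) ≤ 2 * Real.exp ((μ * b q) ^ 2 / 2) := by
    intro q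
    have e : ∑ s : Bool, Real.exp (μ * (sg s * b q)) = 2 * Real.cosh (μ * b q) := by
      rw [Fintype.sum_bool, Real.cosh_eq]
      simp only [sg]
      norm_num
      ring_nf
    rw [e]
    have := Real.cosh_le_exp_half_sq (μ * b q)
    linarith
  have h4 : ∏ q, ∑ s : Bool, Real.exp (μ * (sg s * b q)) ≤
      ∏ q, (2 * Real.exp ((μ * b q) ^ 2 / 2)) := by
    refine Finset.prod_le_prod (fun q _ => ?_) (fun q _ => h3 q)
    exact Finset.sum_nonneg (fun s _ => (Real.exp_pos _).le)
  refine h4.trans (le_of_eq ?_)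
  rw [Finset.prod_mul_distrib, Finset.prod_const, Finset.card_univ, ← Real.exp_sum]
  congr 2
  rw [← Finset.sum_div, mul_sum]
  congr 1
  exact Finset.sum_congr rfl (fun q _ => by ring)

end HS

open HS in
theorem hoef : StHoef := by
  classical
  intro ι γ _ _ b t ht hb
  rcases isEmpty_or_nonempty γ with hγ | hγ
  · exact ⟨fun _ => 1, fun _ => Or.inl rfl, fun g => (hγ.false g).elim⟩
  set N : ℝ := (Fintype.card γ : ℝ) with hN
  have hN1 : 1 ≤ N := by
    rw [hN]
    exact_mod_cast Fintype.card_pos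
  have hlog : 0 < Real.log (2 * N) := Real.log_pos (by linarith)
  set B : γ → ℝ := fun g => ((∑ q, b g q ^ 2) + t g ^ 2 / (2 * Real.log (2 * N))) / 2 with hB
  have hT : ∀ g, 0 < t g ^ 2 / (2 * Real.log (2 * N)) := fun g =>
    div_pos (pow_pos (ht g) 2) (by linarith)
  have hV : ∀ g, 0 ≤ ∑ q, b g q ^ 2 := fun g => Finset.sum_nonneg (fun q _ => sq_nonneg _)
  have hlt : ∀ g, ∑ q, b g q ^ 2 < t g ^ 2 / (2 * Real.log (2 * N)) := by
    intro g
    rw [lt_div_iff₀ (by linarith)]
    have := hb g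
    linarith
  have hB0 : ∀ g, 0 < B g := fun g => by
    have h1 := hT g
    have h2 := hV g
    simp only [hB]
    linarith
  have hB1 : ∀ g, ∑ q, b g q ^ 2 ≤ B g := fun g => by
    have h1 := hlt g
    simp only [hB]
    linarith
  have hB2 : ∀ g, 2 * B g * Real.log (2 * N) < t g ^ 2 := by
    intro g
    have h1 := hlt g
    have h3 : B g < t g ^ 2 / (2 * Real.log (2 * N)) := by
      simp only [hB]
      linarith
    rw [lt_div_iff₀ (by linarith)] at h3
    linarith
  -- the potential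
  let Φ : (ι → Bool) → ℝ := fun σ => ∑ g, ((Real.exp ((t g / B g) * (∑ q, sg (σ q) * b g q)) +
    Real.exp ((-(t g / B g)) * (∑ q, sg (σ q) * b g q))) * Real.exp (-(t g / B g) * t g))
  have hbd : ∀ (g : γ) (μ : ℝ), μ ^ 2 = (t g / B g) ^ 2 →
      ∑ σ : ι → Bool, Real.exp (μ * ∑ q, sg (σ q) * b g q) ≤
        2 ^ Fintype.card ι * Real.exp ((t g / B g) ^ 2 * B g / 2) := by
    intro g μ hμ
    refine (exp_avg (b g) μ).trans ?_
    refine mul_le_mul_of_nonneg_left (Real.exp_le_exp.2 ?_) (by positivity)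
    rw [hμ]
    have := mul_le_mul_of_nonneg_left (hB1 g) (sq_nonneg (t g / B g))
    linarith
  have hterm : ∀ g, ∑ σ : ι → Bool, ((Real.exp ((t g / B g) * (∑ q, sg (σ q) * b g q)) +
      Real.exp ((-(t g / B g)) * (∑ q, sg (σ q) * b g q))) * Real.exp (-(t g / B g) * t g)) <
        2 ^ Fintype.card ι * (1 / N) := by
    intro g
    rw [← Finset.sum_mul, Finset.sum_add_distrib]
    have h1 := hbd g (t g / B g) rfl
    have h2 := hbd g (-(t g / B g)) (by ring)
    have h3 : (∑ σ : ι → Bool, Real.exp ((t g / B g) * (∑ q, sg (σ q) * b g q)) +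
        ∑ σ : ι → Bool, Real.exp ((-(t g / B g)) * (∑ q, sg (σ q) * b g q))) *
          Real.exp (-(t g / B g) * t g) ≤
        (2 * (2 ^ Fintype.card ι * Real.exp ((t g / B g) ^ 2 * B g / 2))) *
          Real.exp (-(t g / B g) * t g) := by
      refine mul_le_mul_of_nonneg_right ?_ (Real.exp_pos _).le
      linarith
    refine h3.trans_lt ?_
    have h4 : (2 * (2 ^ Fintype.card ι * Real.exp ((t g / B g) ^ 2 * B g / 2))) *
          Real.exp (-(t g / B g) * t g) =
        2 ^ Fintype.card ι * (2 * Real.exp ((t g / B g) ^ 2 * B g / 2 + -(t g / B g) * t g)) := by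
      rw [Real.exp_add]; ring
    rw [h4]
    refine mul_lt_mul_of_pos_left ?_ (by positivity)
    have h5 : (t g / B g) ^ 2 * B g / 2 + -(t g / B g) * t g = -(t g ^ 2 / (2 * B g)) := by
      have := (hB0 g).ne'
      field_simp
      ring
    have h6 : Real.log (2 * N) < t g ^ 2 / (2 * B g) := by
      have := hB0 g
      rw [lt_div_iff₀ (by linarith)]
      have := hB2 g
      linarith
    have h7 : Real.exp (-(t g ^ 2 / (2 * B g))) < Real.exp (-Real.log (2 * N)) :=
      Real.exp_lt_exp.2 (by linarith)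
    rw [Real.exp_neg (Real.log (2 * N)), Real.exp_log (by linarith)] at h7
    rw [h5]
    have h8 : 2 * (2 * N)⁻¹ = 1 / N := by field_simp
    linarith
  have htot : ∑ σ, Φ σ < ∑ _σ : ι → Bool, (1 : ℝ) := by
    have e1 : ∑ σ, Φ σ = ∑ g, ∑ σ : ι → Bool,
        ((Real.exp ((t g / B g) * (∑ q, sg (σ q) * b g q)) +
          Real.exp ((-(t g / B g)) * (∑ q, sg (σ q) * b g q))) *
            Real.exp (-(t g / B g) * t g)) := Finset.sum_comm
    rw [e1]
    have e2 : ∑ _σ : ι → Bool, (1 : ℝ) = 2 ^ Fintype.card ι := by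
      simp
    rw [e2]
    have e3 : ∑ _g : γ, (2 ^ Fintype.card ι * (1 / N) : ℝ) = 2 ^ Fintype.card ι := by
      rw [Finset.sum_const, Finset.card_univ, nsmul_eq_mul, ← hN]
      field_simp
    rw [← e3]
    exact Finset.sum_lt_sum_of_nonempty Finset.univ_nonempty (fun g _ => hterm g)
  obtain ⟨σ, -, hσ⟩ := Finset.exists_lt_of_sum_lt htot
  refine ⟨fun q => sg (σ q), ?_, ?_⟩
  · intro q
    by_cases h : σ q = true
    · left; simp [sg, h]
    · right; simp [sg, h]
  · intro g
    have hg : (Real.exp ((t g / B g) * (∑ q, sg (σ q) * b g q)) +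
      Real.exp ((-(t g / B g)) * (∑ q, sg (σ q) * b g q))) * Real.exp (-(t g / B g) * t g) < 1 := by
      refine lt_of_le_of_lt ?_ hσ
      exact Finset.single_le_sum (f := fun g => ((Real.exp ((t g / B g) * (∑ q, sg (σ q) * b g q)) +
        Real.exp ((-(t g / B g)) * (∑ q, sg (σ q) * b g q))) * Real.exp (-(t g / B g) * t g)))
        (fun g _ => by positivity) (Finset.mem_univ g)
    have hpos : 0 < t g / B g := div_pos (ht g) (hB0 g)
    have key : ∀ x : ℝ, Real.exp x * Real.exp (-(t g / B g) * t g) < 1 →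
        x < (t g / B g) * t g := by
      intro x hx
      rw [← Real.exp_add, ← Real.exp_zero] at hx
      have := Real.exp_lt_exp.1 hx
      linarith
    have hE : 0 < Real.exp (-(t g / B g) * t g) := Real.exp_pos _
    have k1 := key ((t g / B g) * (∑ q, sg (σ q) * b g q)) (by
      refine lt_of_le_of_lt ?_ hg
      refine mul_le_mul_of_nonneg_right ?_ hE.le
      have := Real.exp_pos ((-(t g / B g)) * (∑ q, sg (σ q) * b g q))
      linarith)
    have k2 := key ((-(t g / B g)) * (∑ q, sg (σ q) * b g q)) (by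
      refine lt_of_le_of_lt ?_ hg
      refine mul_le_mul_of_nonneg_right ?_ hE.le
      have := Real.exp_pos ((t g / B g) * (∑ q, sg (σ q) * b g q))
      linarith)
    have k3 : (∑ q, sg (σ q) * b g q) < t g := lt_of_mul_lt_mul_left k1 hpos.le
    have k4 : -(∑ q, sg (σ q) * b g q) < t g := by
      refine lt_of_mul_lt_mul_left ?_ hpos.le
      linarith
    exact abs_le.2 ⟨by linarith, k3.le⟩

theorem scale : StScale := by
  intro β hβ hs c hc J
  by_contra hcon
  push Not at hcon
  -- partial sums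
  set s : ℕ → ℝ := fun m => ∑ n ∈ range m, β n with hs_def
  have hmono : Monotone s := by
    intro a b hab
    exact Finset.sum_le_sum_of_subset_of_nonneg (Finset.range_mono hab) (fun n _ _ => hβ n)
  have hbd : ∀ m, s m ≤ ∑' n, β n := fun m => hs.sum_le_tsum _ (fun n _ => hβ n)
  have hs0 : ∀ m, 0 ≤ s m := fun m => Finset.sum_nonneg (fun n _ => hβ n)
  set f : ℕ → ℝ := fun k => s (2 ^ (k + 2)) - s (2 ^ k) with hf
  have hf0 : ∀ k, 0 ≤ f k := by
    intro k
    have := hmono (Nat.pow_le_pow_right (show 0 < 2 by norm_num) (show k ≤ k + 2 by omega))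
    simp only [hf]
    linarith
  have hfs : Summable f := by
    refine summable_of_sum_range_le hf0 (c := 2 * ∑' n, β n) ?_
    intro K
    have e : ∑ k ∈ range K, f k = s (2 ^ (K + 1)) + s (2 ^ K) - s (2 ^ 1) - s (2 ^ 0) := by
      induction K with
      | zero => simp
      | succ K ih =>
        rw [sum_range_succ, ih]
        simp only [hf]
        ring_nf
    rw [e]
    have h1 := hbd (2 ^ (K + 1))
    have h2 := hbd (2 ^ K)
    have h3 := hs0 (2 ^ 1)
    have h4 := hs0 (2 ^ 0)
    linarith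
  have key : ∀ k, J ≤ k → c / 2 ≤ (k + 1 : ℝ) * f k := by
    intro k hk
    have h1 : ∀ j ∈ Finset.Ico (2 ^ k) (2 ^ (k + 1)),
        c / 2 ^ (k + 1) ≤ ∑ l ∈ range (k + 1), β (j + l) := by
      intro j hj
      rw [Finset.mem_Ico] at hj
      have hjJ : J ≤ j := by
        have := Nat.lt_two_pow_self (n := k)
        omega
      obtain ⟨l, hl1, hl2⟩ := hcon j hjJ
      have hlk : l < k + 1 := by
        have : 2 ^ l < 2 ^ (k + 1) := lt_of_le_of_lt hl1 hj.2
        exact (Nat.pow_lt_pow_iff_right (by norm_num)).1 this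
      have hj0 : (0 : ℝ) < j := by
        have : 0 < j := lt_of_lt_of_le (by positivity) hj.1
        exact_mod_cast this
      have h2 : c / 2 ^ (k + 1) ≤ c / j := by
        refine div_le_div_of_nonneg_left hc.le hj0 ?_
        have := hj.2.le
        exact_mod_cast this
      have h3 : β (j + l) ≤ ∑ l ∈ range (k + 1), β (j + l) :=
        Finset.single_le_sum (f := fun l => β (j + l)) (fun i _ => hβ _) (mem_range.2 hlk)
      linarith
    have h2 : ∑ j ∈ Finset.Ico (2 ^ k) (2 ^ (k + 1)), c / 2 ^ (k + 1) = c / 2 := by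
      rw [Finset.sum_const, Nat.card_Ico, nsmul_eq_mul]
      have : 2 ^ (k + 1) - 2 ^ k = 2 ^ k := by rw [pow_succ]; omega
      rw [this, pow_succ]
      push_cast
      field_simp
    have h3 := Finset.sum_le_sum h1
    rw [h2, Finset.sum_comm] at h3
    refine h3.trans ?_
    have h4 : ∀ l ∈ range (k + 1), ∑ j ∈ Finset.Ico (2 ^ k) (2 ^ (k + 1)), β (j + l) ≤ f k := by
      intro l hl
      rw [mem_range] at hl
      rw [Finset.sum_Ico_add' β (2 ^ k) (2 ^ (k + 1)) l]
      have e : f k = ∑ n ∈ Finset.Ico (2 ^ k) (2 ^ (k + 2)), β n := by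
        rw [Finset.sum_Ico_eq_sub _ (Nat.pow_le_pow_right (by norm_num) (by omega))]
      rw [e]
      refine Finset.sum_le_sum_of_subset_of_nonneg (Finset.Ico_subset_Ico (by omega) ?_)
        (fun n _ _ => hβ n)
      have := Nat.lt_two_pow_self (n := k + 1)
      have e2 : 2 ^ (k + 2) = 2 ^ (k + 1) + 2 ^ (k + 1) := by rw [pow_succ 2 (k + 1)]; ring
      omega
    refine (Finset.sum_le_sum h4).trans (le_of_eq ?_)
    rw [Finset.sum_const, card_range, nsmul_eq_mul]
    push_cast
    ring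
  -- the harmonic series converges
  have hsum : Summable (fun k : ℕ => c / 2 * (1 / ((k + J : ℕ) + 1 : ℝ))) := by
    refine Summable.of_nonneg_of_le (fun k => by positivity) (fun k => ?_)
      ((summable_nat_add_iff J).2 hfs)
    have h1 := key (k + J) (by omega)
    have h2 : (0 : ℝ) < ((k + J : ℕ) + 1 : ℝ) := by positivity
    rw [mul_one_div, div_le_iff₀ h2]
    linarith
  have hsum2 : Summable (fun k : ℕ => 1 / ((k + J : ℕ) + 1 : ℝ)) := by
    have := hsum.mul_left (c / 2)⁻¹
    refine this.congr (fun k => ?_)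
    have : c / 2 ≠ 0 := by positivity
    rw [← mul_assoc, inv_mul_cancel₀ this, one_mul]
  have hsum3 : Summable (fun k : ℕ => 1 / ((k : ℕ) + 1 : ℝ)) :=
    (summable_nat_add_iff (f := fun k : ℕ => 1 / ((k : ℕ) + 1 : ℝ)) J).1 hsum2
  have hsum4 : Summable (fun k : ℕ => 1 / (k : ℝ)) := by
    refine (summable_nat_add_iff (f := fun k : ℕ => 1 / (k : ℝ)) 1).1 ?_
    refine hsum3.congr (fun k => ?_)
    push_cast
    rfl
  exact Real.not_summable_one_div_natCast hsum4

end Pool.Agent.R286.MG
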