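import Mathlib

/-!
# Reconstruction of magnified copies (MP_b01677_an): definitions and statements

Every bounded measurable `E ⊆ ℝ^d`, `d ≥ 2`, of positive measure: an element of
`{r E + x : r ≥ 1}` can be reconstructed using `d + 1` test sets.
Proofs of the statements below: see `notes.md` in this folder.
-/

set_option autoImplicit false

open MeasureTheory Finset

namespace Pool.Agent.R286.MG

/-- `ℝ^d` with Lebesgue measure `volume` and the sup norm -/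
abbrev Pt (d : ℕ) := Fin d → ℝ

/-- `∫_{r E + x} u` -/
noncomputable def P {d : ℕ} (E : Set (Pt d)) (u : Pt d → ℝ) (r : ℝ) (x : Pt d) : ℝ :=
  r ^ d * ∫ y in E, u (x + r • y)

/-- the half-open unit cube with lower corner `k` -/
def cell {d : ℕ} (k : Fin d → ℤ) : Set (Pt d) := {y | ∀ i, (k i : ℝ) ≤ y i ∧ y i < (k i : ℝ) + 1}

/-- the profile functions, `w j y = 1/2 + y_j / (2 √(1+|y|²))` -/
noncomputable def w {d : ℕ} (j : Fin d) (y : Pt d) : ℝ :=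
  1 / 2 + y j / (2 * Real.sqrt (1 + ∑ i, y i ^ 2))

/-- MON: quantitative monotonicity of `x ↦ (∫_{rE+x} w_j)_j`. -/
def StMon (d : ℕ) : Prop := ∀ E : Set (Pt d), MeasurableSet E → Bornology.IsBounded E →
  0 < volume E → ∃ c : ℝ, 0 < c ∧ ∀ r : ℝ, 1 ≤ r → ∀ x x' : Pt d, ‖x - x'‖ ≤ 1 →
    c * (r ^ (d + 2) / (r + ‖x‖) ^ 3) * ∑ j, (x j - x' j) ^ 2 ≤
      ∑ j, (P E (w j) r x - P E (w j) r x') * (x j - x' j)

/-- CELL: in one cell a continuous density can be replaced by a set, with a small Lipschitz error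
for all magnified copies of `E` at once. -/
def StCell (d : ℕ) : Prop := ∀ E : Set (Pt d), MeasurableSet E → Bornology.IsBounded E →
  ∀ (k : Fin d → ℤ) (v : Pt d → ℝ), Continuous v → (∀ y, 0 ≤ v y ∧ v y ≤ 1) → ∀ ε : ℝ, 0 < ε →
    ∃ T : Set (Pt d), MeasurableSet T ∧ T ⊆ cell k ∧ ∀ r : ℝ, 1 ≤ r → ∀ x x' : Pt d,
      |P E (fun y => T.indicator (fun _ => (1 : ℝ)) y - (cell k).indicator v y) r x -
        P E (fun y => T.indicator (fun _ => (1 : ℝ)) y - (cell k).indicator v y) r x'| ≤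
          ε * r ^ (d - 1) * ‖x - x'‖

/-- IL: one improvement step. -/
def StIL (d : ℕ) : Prop := ∃ c0 : ℝ, 0 < c0 ∧ ∀ E : Set (Pt d), MeasurableSet E →
  Bornology.IsBounded E → ∀ (k : Fin d → ℤ) (v : Pt d → ℝ), Continuous v →
    (∀ y, 0 ≤ v y ∧ v y ≤ 1) → ∀ (n : ℕ) (ψ : Fin n → Pt d → ℝ), (∀ l, Continuous (ψ l)) →
    ∀ ε : ℝ, 0 < ε → ∃ u : Pt d → ℝ, Continuous u ∧ (∀ y, y ∉ cell k → u y = 0) ∧
      (∀ y, 0 ≤ v y + u y ∧ v y + u y ≤ 1) ∧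
      (∀ l, |∫ y in cell k, u y * ψ l y| ≤ ε) ∧
      (c0 * (∫ y in cell k, (min (v y) (1 - v y)) ^ 2) - ε ≤ ∫ y in cell k, u y ^ 2) ∧
      (∀ r : ℝ, 1 ≤ r → ∀ x x' : Pt d, |P E u r x - P E u r x'| ≤ ε * r ^ (d - 1) * ‖x - x'‖)

/-- one-dimensional averages over `[s, s+ρ]` -/
noncomputable def A1 (ρ : ℝ) (g : ℝ → ℝ) (s : ℝ) : ℝ := ρ⁻¹ * ∫ t in (0 : ℝ)..ρ, g (s + t)

/-- The bump function `κ` with derivative `κ'`; supports in `[0,5]`, and `κ'` is an average of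
differences of averages over adjacent intervals of length `ρ`, `1 ≤ ρ ≤ 2`. -/
structure Bump (κ κ' : ℝ → ℝ) (C : ℝ) : Prop where
  hC : 1 ≤ C
  h01 : ∀ t, 0 ≤ κ t ∧ κ t ≤ 1
  hsupp : ∀ t, t ≤ 0 ∨ 5 ≤ t → κ t = 0 ∧ κ' t = 0
  hder : ∀ t, HasDerivAt κ (κ' t) t
  hbd : ∀ t, |κ' t| ≤ C
  hlip : ∀ s t, |κ' s - κ' t| ≤ C * |s - t|
  hpos : 0 < ∫ t in (0 : ℝ)..5, κ t ^ 2
  hrep : ∀ g : ℝ → ℝ, Measurable g → (∀ t, |g t| ≤ 1) →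
    ∫ t in (0 : ℝ)..5, g t * κ' t =
      ∫ ρ in (1 : ℝ)..2, ρ⁻¹ * ∫ s in (0 : ℝ)..1, (A1 ρ g s - A1 ρ g (s + ρ))

/-- BUMP: existence. -/
def StBump : Prop := ∃ (κ κ' : ℝ → ℝ) (C : ℝ), Bump κ κ' C

/-- the bump on the cube with lower corner `k + q/m` and side `1/m` -/
noncomputable def φ {d : ℕ} (κ : ℝ → ℝ) (k : Fin d → ℤ) (m : ℕ) (q : Fin d → Fin m) (y : Pt d) : ℝ :=
  ∏ i, κ (5 * (m * (y i - k i) - (q i : ℕ)))

/-- its partial derivative in direction `i` -/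
noncomputable def dφ {d : ℕ} (κ κ' : ℝ → ℝ) (k : Fin d → ℤ) (m : ℕ) (q : Fin d → Fin m) (i : Fin d)
    (y : Pt d) : ℝ :=
  5 * m * κ' (5 * (m * (y i - k i) - (q i : ℕ))) *
    ∏ i' ∈ univ.erase i, κ (5 * (m * (y i' - k i') - (q i' : ℕ)))

/-- PHI: elementary properties of the bumps `φ` and of their derivatives `dφ`. -/
def StPhi : Prop := ∀ (κ κ' : ℝ → ℝ) (C : ℝ), Bump κ κ' C → ∀ (d : ℕ) (k : Fin d → ℤ) (m : ℕ),
  1 ≤ m →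
    (∀ q, Continuous (φ κ k m q)) ∧ (∀ q i, Continuous (dφ κ κ' k m q i)) ∧
    (∀ q y, 0 ≤ φ κ k m q y ∧ φ κ k m q y ≤ 1) ∧
    (∀ q y, φ κ k m q y ≠ 0 → 1 ≤ d →
      ∀ i, ((q i : ℕ) : ℝ) < m * (y i - k i) ∧ m * (y i - k i) < (q i : ℕ) + 1) ∧
    (∀ q i y, dφ κ κ' k m q i y ≠ 0 →
      ∀ i', ((q i' : ℕ) : ℝ) < m * (y i' - k i') ∧ m * (y i' - k i') < (q i' : ℕ) + 1) ∧
    (∀ q q' y, q ≠ q' → φ κ k m q y * φ κ k m q' y = 0) ∧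
    (∀ q, ∫ y in cell k, φ κ k m q y ^ 2 = ((∫ t in (0 : ℝ)..5, κ t ^ 2) / (5 * m)) ^ d) ∧
    (∀ q y y', φ κ k m q y - φ κ k m q y' =
      ∫ s in (0 : ℝ)..1, ∑ i, (y i - y' i) * dφ κ κ' k m q i (y' + s • (y - y'))) ∧
    (∀ q i y, |dφ κ κ' k m q i y| ≤ 5 * m * C) ∧
    (∀ q i y y', |dφ κ κ' k m q i y - dφ κ κ' k m q i y'| ≤ 25 * d * C ^ 2 * m ^ 2 * ‖y - y'‖)

/-- EN: the energy bound, summable over dyadic scales. -/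
def StEn : Prop := ∀ (κ κ' : ℝ → ℝ) (C : ℝ), Bump κ κ' C → ∀ d : ℕ, 1 ≤ d → ∃ C' : ℝ, 0 < C' ∧
  ∀ E : Set (Pt d), MeasurableSet E → Bornology.IsBounded E → ∀ i : Fin d, ∃ β : ℕ → ℝ,
    (∀ n, 0 ≤ β n) ∧ Summable β ∧ ∀ (k : Fin d → ℤ) (j l : ℕ) (r : ℝ), (2 : ℝ) ^ l ≤ r →
      r ≤ (2 : ℝ) ^ (l + 1) → ∀ x : Pt d,
        ∑ q : Fin d → Fin (2 ^ j), (P E (dφ κ κ' k (2 ^ j) q i) r x) ^ 2 ≤
          C' * ((2 : ℝ) ^ j) ^ 2 / ((2 : ℝ) ^ j) ^ d * min 1 (r ^ d * β (j + l))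

/-- HOEF: choice of signs. -/
def StHoef : Prop := ∀ (ι γ : Type) [Fintype ι] [Fintype γ] (b : γ → ι → ℝ) (t : γ → ℝ),
  (∀ g, 0 < t g) → (∀ g, 2 * (∑ q, b g q ^ 2) * Real.log (2 * Fintype.card γ) < t g ^ 2) →
    ∃ σ : ι → ℝ, (∀ q, σ q = 1 ∨ σ q = -1) ∧ ∀ g, |∑ q, σ q * b g q| ≤ t g

/-- SCALE: choice of a good scale. -/
def StScale : Prop := ∀ β : ℕ → ℝ, (∀ n, 0 ≤ β n) → Summable β → ∀ c : ℝ, 0 < c → ∀ J : ℕ,
  ∃ j : ℕ, J ≤ j ∧ ∀ l : ℕ, 2 ^ l ≤ j → β (j + l) ≤ c / j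

/-- the families of the problem -/
def CanReconstruct {d : ℕ} (𝒜 : Set (Set (Pt d))) (n : ℕ) : Prop :=
  ∃ T : Fin n → Set (Pt d), (∀ i, MeasurableSet (T i)) ∧ ∀ A ∈ 𝒜, ∀ B ∈ 𝒜,
    (∀ i, volume (A ∩ T i) = volume (B ∩ T i)) → A = B

/-- the magnified copies `r E + x`, `r ≥ 1` -/
def Magnified {d : ℕ} (E : Set (Pt d)) : Set (Set (Pt d)) :=
  {A | ∃ r : ℝ, 1 ≤ r ∧ ∃ x : Pt d, A = (fun y => r • y + x) '' E}

/-- FIN: the final theorem. -/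
def StFin (d : ℕ) : Prop := ∀ E : Set (Pt d), NullMeasurableSet E volume →
  Bornology.IsBounded E → 0 < volume E → CanReconstruct (Magnified E) (d + 1)

end Pool.Agent.R286.MG
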