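import Mathlib
import Pool.Agent.R286.MG.Stm

set_option autoImplicit false

open MeasureTheory Finset

namespace Pool.Agent.R286.MG.IL

variable {d : ℕ}

lemma integrableOn_of_cont {E : Set (Pt d)} (hb : Bornology.IsBounded E)
    {f : Pt d → ℝ} (hf : Continuous f) : IntegrableOn f E volume := by
  have hc : IsCompact (closure E) := hb.isCompact_closure
  exact (hf.continuousOn.integrableOn_compact hc).mono_set subset_closure

lemma vol_lt_top {E : Set (Pt d)} (hb : Bornology.IsBounded E) : volume E < ⊤ :=
  hb.measure_lt_top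

lemma cont_comp {f : Pt d → ℝ} (hf : Continuous f) (r : ℝ) (x : Pt d) :
    Continuous fun y : Pt d => f (x + r • y) := by fun_prop

lemma P_sum {E : Set (Pt d)} (hb : Bornology.IsBounded E) {ι : Type} [Fintype ι] (c : ι → ℝ)
    (f : ι → Pt d → ℝ) (hf : ∀ q, Continuous (f q)) (r : ℝ) (x : Pt d) :
    P E (fun y => ∑ q, c q * f q y) r x = ∑ q, c q * P E (f q) r x := by
  unfold P
  rw [integral_finsetSum]
  · rw [Finset.mul_sum]
    apply Finset.sum_congr rfl
    intro q _
    rw [integral_const_mul]
    ring
  · intro q _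
    exact (integrableOn_of_cont hb (cont_comp (hf q) r x)).const_mul _

/-- change of variables bound -/
lemma P_abs_le {E : Set (Pt d)} {h : Pt d → ℝ} (hint : Integrable h volume)
    {r : ℝ} (hr : 0 < r) (x : Pt d) : |P E h r x| ≤ ∫ y, |h y| := by
  have h1 : ∫ y : Pt d, |h (x + r • y)| = (r ^ d)⁻¹ * ∫ y, |h y| := by
    have h2 := Measure.integral_comp_smul (μ := (volume : Measure (Pt d))) (fun y => |h (x + y)|) r
    have h3 : ∫ y : Pt d, |h (x + y)| = ∫ y, |h y| := integral_add_left_eq_self (fun y => |h y|) x
    rw [h2, h3]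
    have h4 : Module.finrank ℝ (Pt d) = d := by simp
    rw [h4, abs_of_pos (by positivity), smul_eq_mul]
  have hint2 : Integrable (fun y : Pt d => |h (x + r • y)|) volume := by
    have h5 : Integrable (fun y : Pt d => h (x + y)) volume := hint.comp_add_left x
    have h6 : Integrable (fun y : Pt d => h (x + r • y)) volume := h5.comp_smul hr.ne'
    exact h6.abs
  unfold P
  rw [abs_mul, abs_of_pos (by positivity : (0 : ℝ) < r ^ d)]
  calc r ^ d * |∫ y in E, h (x + r • y)| ≤ r ^ d * ∫ y in E, |h (x + r • y)| := by
        apply mul_le_mul_of_nonneg_left _ (by positivity)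
        exact abs_integral_le_integral_abs
    _ ≤ r ^ d * ∫ y, |h (x + r • y)| := by
        apply mul_le_mul_of_nonneg_left _ (by positivity)
        exact setIntegral_le_integral hint2 (Filter.Eventually.of_forall fun y => abs_nonneg _)
    _ = ∫ y, |h y| := by
        rw [h1, ← mul_assoc, mul_inv_cancel₀ (by positivity), one_mul]

lemma vol_cell (k : Fin d → ℤ) : volume (cell k) = 1 := by
  have h1 : cell k = Set.pi Set.univ (fun i => Set.Ico (k i : ℝ) ((k i : ℝ) + 1)) := by
    ext y; simp [cell]
  rw [h1, Real.volume_pi_Ico]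
  simp

lemma measurableSet_cell (k : Fin d → ℤ) : MeasurableSet (cell k) := by
  have h1 : cell k = Set.pi Set.univ (fun i => Set.Ico (k i : ℝ) ((k i : ℝ) + 1)) := by
    ext y; simp [cell]
  rw [h1]
  exact MeasurableSet.univ_pi fun i => measurableSet_Ico

lemma bounded_cell (k : Fin d → ℤ) : Bornology.IsBounded (cell k) := by
  have h1 : cell k ⊆ Set.Icc (fun i => (k i : ℝ)) (fun i => (k i : ℝ) + 1) := by
    intro y hy
    exact ⟨fun i => (hy i).1, fun i => (hy i).2.le⟩
  exact (Metric.isBounded_Icc _ _).subset h1

/-- trivial bound for functions supported in the cell -/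
lemma P_abs_le_cell {E : Set (Pt d)} (k : Fin d → ℤ) {h : Pt d → ℝ} (hc : Continuous h) {B : ℝ}
    (hB : ∀ y, |h y| ≤ B) (hs : ∀ y, y ∉ cell k → h y = 0) {r : ℝ} (hr : 0 < r) (x : Pt d) :
    |P E h r x| ≤ B := by
  have hon : IntegrableOn h (cell k) volume := integrableOn_of_cont (bounded_cell k) hc
  have hint : Integrable h volume := by
    have : (cell k).indicator h = h := by
      ext y
      by_cases hy : y ∈ cell k
      · simp [hy]
      · simp [hy, hs y hy]
    rw [← this]
    exact hon.integrable_indicator (measurableSet_cell k)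
  refine (P_abs_le hint hr x).trans ?_
  have h1 : ∫ y, |h y| = ∫ y in cell k, |h y| := by
    symm
    apply setIntegral_eq_integral_of_forall_compl_eq_zero
    intro y hy
    rw [hs y hy, abs_zero]
  rw [h1]
  calc ∫ y in cell k, |h y| ≤ ∫ y in cell k, B := by
        apply setIntegral_mono hon.abs _ hB
        exact integrableOn_const (by rw [vol_cell]; exact ENNReal.one_ne_top) (by simp)
    _ = B := by
        rw [setIntegral_const]
        simp [Measure.real, vol_cell]

/-- Lipschitz bound for `x ↦ ∫_E h(x + r y)` -/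
lemma Q_lip {E : Set (Pt d)} (hE : MeasurableSet E) (hb : Bornology.IsBounded E) {L : ℝ}
    (hL : ∀ y ∈ E, ‖y‖ ≤ L) {h : Pt d → ℝ} (hc : Continuous h) {H : ℝ} (hH0 : 0 ≤ H)
    (hH : ∀ y y', |h y - h y'| ≤ H * ‖y - y'‖) (r r' : ℝ) (x x' : Pt d) :
    |(∫ y in E, h (x + r • y)) - ∫ y in E, h (x' + r' • y)| ≤
      (volume E).toReal * (H * (‖x - x'‖ + L * |r - r'|)) := by
  rw [← integral_sub (integrableOn_of_cont hb (cont_comp hc r x))
    (integrableOn_of_cont hb (cont_comp hc r' x'))]
  rw [← Real.norm_eq_abs]
  have h1 : ∀ y ∈ E, ‖h (x + r • y) - h (x' + r' • y)‖ ≤ H * (‖x - x'‖ + L * |r - r'|) := by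
    intro y hy
    rw [Real.norm_eq_abs]
    refine (hH _ _).trans ?_
    apply mul_le_mul_of_nonneg_left _ hH0
    have h2 : x + r • y - (x' + r' • y) = (x - x') + (r - r') • y := by
      rw [sub_smul]; abel
    rw [h2]
    refine (norm_add_le _ _).trans ?_
    rw [norm_smul, Real.norm_eq_abs]
    have := hL y hy
    nlinarith [abs_nonneg (r - r')]
  have h3 := norm_setIntegral_le_of_norm_le_const (vol_lt_top hb) h1
  rw [Measure.real] at h3
  rw [mul_comm]
  exact h3

/-- difference formula -/
lemma P_diff {E : Set (Pt d)} (hE : MeasurableSet E) (hb : Bornology.IsBounded E) {u : Pt d → ℝ}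
    (hu : Continuous u) {h : Fin d → Pt d → ℝ} (hh : ∀ i, Continuous (h i))
    (hseg : ∀ y y', u y - u y' = ∫ s in (0 : ℝ)..1, ∑ i, (y i - y' i) * h i (y' + s • (y - y')))
    {r : ℝ} {B : ℝ} (hB : ∀ i x, |P E (h i) r x| ≤ B) (x x' : Pt d) :
    |P E u r x - P E u r x'| ≤ d * B * ‖x - x'‖ := by
  have h1 : P E u r x - P E u r x' =
      ∫ s in (0 : ℝ)..1, ∑ i, (x i - x' i) * P E (h i) r (x' + s • (x - x')) := by
    have e1 : P E u r x - P E u r x' =
        r ^ d * ∫ y in E, ∫ s in (0 : ℝ)..1, ∑ i, (x i - x' i) * h i (x' + s • (x - x') + r • y) := by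
      unfold P
      rw [← mul_sub, ← integral_sub (integrableOn_of_cont hb (cont_comp hu r x))
        (integrableOn_of_cont hb (cont_comp hu r x'))]
      congr 1
      apply integral_congr_ae
      refine Filter.Eventually.of_forall fun y => ?_
      show u (x + r • y) - u (x' + r • y) = _
      rw [hseg]
      apply intervalIntegral.integral_congr
      intro s _
      apply Finset.sum_congr rfl
      intro i _
      have e2 : x + r • y - (x' + r • y) = x - x' := by abel
      rw [e2]
      have e3 : x' + r • y + s • (x - x') = x' + s • (x - x') + r • y := by abel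
      rw [e3]
      simp
    rw [e1]
    have hcont : Continuous (Function.uncurry fun (y : Pt d) (s : ℝ) =>
        ∑ i, (x i - x' i) * h i (x' + s • (x - x') + r • y)) := by
      apply continuous_finsetSum
      intro i _
      apply Continuous.mul continuous_const
      apply (hh i).comp
      fun_prop
    have e4 : ∫ y in E, ∫ s in (0 : ℝ)..1, ∑ i, (x i - x' i) * h i (x' + s • (x - x') + r • y) =
        ∫ s in (0 : ℝ)..1, ∫ y in E, ∑ i, (x i - x' i) * h i (x' + s • (x - x') + r • y) := by
      rw [eq_comm]
      apply intervalIntegral_integral_swap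
      rw [Set.uIoc_of_le zero_le_one]
      have hfin : IntegrableOn (Function.uncurry fun (s : ℝ) (y : Pt d) =>
          ∑ i, (x i - x' i) * h i (x' + s • (x - x') + r • y)) (Set.Ioc (0 : ℝ) 1 ×ˢ E)
          ((volume : Measure ℝ).prod (volume : Measure (Pt d))) := by
        have hcomp : IsCompact (Set.Icc (0 : ℝ) 1 ×ˢ closure E) := isCompact_Icc.prod hb.isCompact_closure
        have hcont2 : Continuous (Function.uncurry fun (s : ℝ) (y : Pt d) =>
            ∑ i, (x i - x' i) * h i (x' + s • (x - x') + r • y)) := by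
          apply continuous_finsetSum
          intro i _
          apply Continuous.mul continuous_const
          apply (hh i).comp
          fun_prop
        exact (hcont2.continuousOn.integrableOn_compact hcomp).mono_set
          (Set.prod_mono Set.Ioc_subset_Icc_self subset_closure)
      rw [IntegrableOn, ← Measure.prod_restrict] at hfin
      exact hfin
    rw [e4, ← intervalIntegral.integral_const_mul]
    apply intervalIntegral.integral_congr
    intro s _
    show r ^ d * ∫ y in E, ∑ i, (x i - x' i) * h i (x' + s • (x - x') + r • y) = _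
    rw [integral_finsetSum]
    · rw [Finset.mul_sum]
      apply Finset.sum_congr rfl
      intro i _
      rw [integral_const_mul]
      unfold P
      ring
    · intro i _
      exact (integrableOn_of_cont hb (cont_comp (hh i) r _)).const_mul _
  rw [h1, ← Real.norm_eq_abs]
  have hB0 : ∀ i : Fin d, 0 ≤ B := fun i => (abs_nonneg _).trans (hB i 0)
  refine (intervalIntegral.norm_integral_le_of_norm_le_const (C := d * B * ‖x - x'‖) ?_).trans ?_
  · intro s _
    refine (norm_sum_le _ _).trans ?_
    have h2 : ∀ i ∈ (Finset.univ : Finset (Fin d)),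
        ‖(x i - x' i) * P E (h i) r (x' + s • (x - x'))‖ ≤ B * ‖x - x'‖ := by
      intro i _
      rw [norm_mul, mul_comm]
      apply mul_le_mul
      · rw [Real.norm_eq_abs]; exact hB i _
      · exact norm_le_pi_norm (x - x') i
      · exact norm_nonneg _
      · exact hB0 i
    refine (Finset.sum_le_sum h2).trans ?_
    rw [Finset.sum_const, Finset.card_univ, Fintype.card_fin, nsmul_eq_mul]
    linarith
  · simp

end Pool.Agent.R286.MG.IL
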