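import Mathlib
import Pool.Agent.R286.MG.Stm
import Pool.Agent.R286.MG.IL1

set_option autoImplicit false

open MeasureTheory Finset

namespace Pool.Agent.R286.MG.IL

variable {d : ℕ}

/-- small half-open cubes -/
def box (k : Fin d → ℤ) (m : ℕ) (q : Fin d → Fin m) : Set (Pt d) :=
  Set.pi Set.univ (fun i => Set.Ico ((k i : ℝ) + ((q i : ℕ) : ℝ) / m) ((k i : ℝ) + (((q i : ℕ) : ℝ) + 1) / m))

lemma mem_box {k : Fin d → ℤ} {m : ℕ} (hm : 1 ≤ m) {q : Fin d → Fin m} {y : Pt d} :
    y ∈ box k m q ↔ ∀ i, ((q i : ℕ) : ℝ) ≤ m * (y i - k i) ∧ m * (y i - k i) < ((q i : ℕ) : ℝ) + 1 := by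
  have hm' : (0 : ℝ) < m := by exact_mod_cast hm
  unfold box
  rw [Set.mem_univ_pi]
  refine forall_congr' fun i => ?_
  rw [Set.mem_Ico]
  constructor
  · rintro ⟨h1, h2⟩
    constructor
    · have : ((q i : ℕ) : ℝ) / m ≤ y i - k i := by linarith
      rw [div_le_iff₀ hm'] at this
      linarith
    · have : y i - k i < (((q i : ℕ) : ℝ) + 1) / m := by linarith
      rw [lt_div_iff₀ hm'] at this
      linarith
  · rintro ⟨h1, h2⟩
    constructor
    · have : ((q i : ℕ) : ℝ) / m ≤ y i - k i := by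
        rw [div_le_iff₀ hm']; linarith
      linarith
    · have : y i - k i < (((q i : ℕ) : ℝ) + 1) / m := by
        rw [lt_div_iff₀ hm']; linarith
      linarith

lemma vol_box (k : Fin d → ℤ) {m : ℕ} (hm : 1 ≤ m) (q : Fin d → Fin m) :
    volume (box k m q) = ENNReal.ofReal (1 / (m : ℝ) ^ d) := by
  have hm' : (0 : ℝ) < m := by exact_mod_cast hm
  unfold box
  rw [Real.volume_pi_Ico]
  have h1 : ∀ i : Fin d, ENNReal.ofReal ((k i : ℝ) + (((q i : ℕ) : ℝ) + 1) / m -
      ((k i : ℝ) + ((q i : ℕ) : ℝ) / m)) = ENNReal.ofReal (1 / m) := by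
    intro i
    congr 1
    field_simp
    ring
  rw [Finset.prod_congr rfl (fun i _ => h1 i), Finset.prod_const, Finset.card_univ, Fintype.card_fin,
    ← ENNReal.ofReal_pow (by positivity)]
  congr 1
  rw [div_pow, one_pow]

lemma vol_box_real (k : Fin d → ℤ) {m : ℕ} (hm : 1 ≤ m) (q : Fin d → Fin m) :
    (volume (box k m q)).toReal = 1 / (m : ℝ) ^ d := by
  rw [vol_box k hm q, ENNReal.toReal_ofReal (by positivity)]

lemma meas_box (k : Fin d → ℤ) (m : ℕ) (q : Fin d → Fin m) : MeasurableSet (box k m q) :=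
  MeasurableSet.univ_pi fun i => measurableSet_Ico

lemma box_sub_cell {k : Fin d → ℤ} {m : ℕ} (hm : 1 ≤ m) {q : Fin d → Fin m} : box k m q ⊆ cell k := by
  intro y hy i
  have hm' : (0 : ℝ) < m := by exact_mod_cast hm
  obtain ⟨h1, h2⟩ := (mem_box hm).1 hy i
  have hq : (((q i : ℕ) : ℝ) + 1) ≤ m := by exact_mod_cast (q i).2
  constructor
  · have : 0 ≤ m * (y i - k i) := le_trans (by positivity) h1
    have := nonneg_of_mul_nonneg_right this hm'
    linarith
  · have : m * (y i - k i) < m * 1 := by linarith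
    have := lt_of_mul_lt_mul_left this hm'.le
    linarith

lemma exists_box {k : Fin d → ℤ} {m : ℕ} (hm : 1 ≤ m) {y : Pt d} (hy : y ∈ cell k) :
    ∃ q : Fin d → Fin m, y ∈ box k m q := by
  have hm' : (0 : ℝ) < m := by exact_mod_cast hm
  have h0 : ∀ i, 0 ≤ m * (y i - k i) := fun i => by
    have := (hy i).1
    have : 0 ≤ y i - k i := by linarith
    positivity
  have h1 : ∀ i, ⌊m * (y i - k i)⌋₊ < m := by
    intro i
    rw [Nat.floor_lt (h0 i)]
    have := (hy i).2
    have : y i - k i < 1 := by linarith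
    nlinarith
  refine ⟨fun i => ⟨_, h1 i⟩, (mem_box hm).2 fun i => ⟨?_, ?_⟩⟩
  · exact Nat.floor_le (h0 i)
  · exact Nat.lt_floor_add_one _

/-- choice of the amplitudes -/
lemma exists_amp (k : Fin d → ℤ) {f : Pt d → ℝ} (hf : Continuous f)
    (hf01 : ∀ y, 0 ≤ f y ∧ f y ≤ 1) {ω : ℝ} (hω : 0 < ω) (hω1 : ω ≤ 1) :
    ∃ m0 : ℕ, ∀ m : ℕ, m0 ≤ m → 1 ≤ m → ∃ a : (Fin d → Fin m) → ℝ, (∀ q, 0 ≤ a q ∧ a q ≤ 1) ∧
      (∀ q y, (∀ i, ((q i : ℕ) : ℝ) < m * (y i - k i) ∧ m * (y i - k i) < ((q i : ℕ) : ℝ) + 1) →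
        a q ≤ f y) ∧
      ∫ y in cell k, f y ^ 2 ≤ (∑ q, a q ^ 2) / (m : ℝ) ^ d + 8 * ω := by
  have hcomp : IsCompact (closure (cell k)) := (bounded_cell k).isCompact_closure
  obtain ⟨δ, hδ, hδ'⟩ := Metric.uniformContinuousOn_iff.1
    (hcomp.uniformContinuousOn_of_continuous hf.continuousOn) ω hω
  obtain ⟨m0, hm0⟩ := exists_nat_gt (1 / δ)
  refine ⟨m0, fun m hm hm1 => ?_⟩
  have hm' : (0 : ℝ) < m := by exact_mod_cast hm1
  have hmδ : 1 / (m : ℝ) < δ := by
    have h1 : 1 / δ < m := hm0.trans_le (by exact_mod_cast hm)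
    rw [div_lt_iff₀ hδ] at h1
    rw [div_lt_iff₀ hm']
    linarith
  set p : (Fin d → Fin m) → Pt d := fun q i => (k i : ℝ) + ((q i : ℕ) : ℝ) / m with hp
  have hpbox : ∀ q, p q ∈ box k m q := by
    intro q
    rw [mem_box hm1]
    intro i
    simp only [hp]
    have : (m : ℝ) * ((k i : ℝ) + ((q i : ℕ) : ℝ) / m - k i) = ((q i : ℕ) : ℝ) := by
      field_simp
      ring
    rw [this]
    constructor <;> linarith
  have hclose : ∀ q y, y ∈ box k m q → |f y - f (p q)| < ω := by
    intro q y hy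
    have h1 : dist y (p q) < δ := by
      refine lt_of_le_of_lt ?_ hmδ
      rw [dist_pi_le_iff (by positivity)]
      intro i
      obtain ⟨h2, h3⟩ := (mem_box hm1).1 hy i
      rw [Real.dist_eq, abs_le]
      simp only [hp]
      have h4 : ((q i : ℕ) : ℝ) / m ≤ y i - k i := by rw [div_le_iff₀ hm']; linarith
      have h5 : y i - k i < (((q i : ℕ) : ℝ) + 1) / m := by rw [lt_div_iff₀ hm']; linarith
      rw [add_div] at h5
      constructor
      · have : 0 < 1 / (m : ℝ) := by positivity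
        linarith
      · linarith
    have h2 := hδ' y (subset_closure (box_sub_cell hm1 hy)) (p q)
      (subset_closure (box_sub_cell hm1 (hpbox q))) h1
    rwa [Real.dist_eq] at h2
  refine ⟨fun q => max 0 (f (p q) - ω), ?_, ?_, ?_⟩
  · intro q
    refine ⟨le_max_left _ _, max_le zero_le_one ?_⟩
    linarith [(hf01 (p q)).2]
  · intro q y hy
    have hyb : y ∈ box k m q := (mem_box hm1).2 fun i => ⟨(hy i).1.le, (hy i).2⟩
    have := abs_lt.1 (hclose q y hyb)
    exact max_le (hf01 y).1 (by linarith)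
  · set a : (Fin d → Fin m) → ℝ := fun q => max 0 (f (p q) - ω) with ha
    have ha0 : ∀ q, 0 ≤ a q := fun q => le_max_left _ _
    have ha1 : ∀ q, a q ≤ 1 := fun q => max_le zero_le_one (by linarith [(hf01 (p q)).2])
    have hpt : ∀ y ∈ cell k, f y ^ 2 ≤ ∑ q, (box k m q).indicator (fun _ => a q ^ 2 + 8 * ω) y := by
      intro y hy
      obtain ⟨q, hq⟩ := exists_box hm1 hy
      have h1 := abs_lt.1 (hclose q y hq)
      have h2 : f y ≤ a q + 2 * ω := by
        have : f (p q) - ω ≤ a q := le_max_right _ _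
        linarith
      have h3 : f y ^ 2 ≤ a q ^ 2 + 8 * ω := by
        have h4 : f y ^ 2 ≤ (a q + 2 * ω) ^ 2 := pow_le_pow_left₀ (hf01 y).1 h2 2
        nlinarith [ha0 q, ha1 q]
      calc f y ^ 2 ≤ (box k m q).indicator (fun _ => a q ^ 2 + 8 * ω) y := by
            rw [Set.indicator_of_mem hq]; exact h3
        _ ≤ _ := by
            apply Finset.single_le_sum (f := fun q => (box k m q).indicator (fun _ => a q ^ 2 + 8 * ω) y)
              _ (Finset.mem_univ q)
            intro q' _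
            apply Set.indicator_nonneg
            intro _ _
            have := ha0 q'
            positivity
    have hfin : ∀ q, IntegrableOn ((box k m q).indicator (fun _ : Pt d => a q ^ 2 + 8 * ω)) (cell k) volume := by
      intro q
      apply Integrable.indicator _ (meas_box k m q)
      exact integrableOn_const (by rw [vol_cell]; exact ENNReal.one_ne_top) (by simp)
    calc ∫ y in cell k, f y ^ 2 ≤ ∫ y in cell k, ∑ q, (box k m q).indicator (fun _ => a q ^ 2 + 8 * ω) y := by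
          apply setIntegral_mono_on (integrableOn_of_cont (bounded_cell k) (hf.pow 2)) _
            (measurableSet_cell k) hpt
          exact integrable_finsetSum _ fun q _ => hfin q
      _ = ∑ q, (a q ^ 2 + 8 * ω) * (1 / (m : ℝ) ^ d) := by
          rw [integral_finsetSum _ fun q _ => hfin q]
          apply Finset.sum_congr rfl
          intro q _
          rw [setIntegral_indicator (meas_box k m q), Set.inter_eq_right.2 (box_sub_cell hm1),
            setIntegral_const, Measure.real, vol_box_real k hm1 q, smul_eq_mul, mul_comm]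
      _ = (∑ q, a q ^ 2) / (m : ℝ) ^ d + 8 * ω := by
          rw [← Finset.sum_mul, Finset.sum_add_distrib, Finset.sum_const, Finset.card_univ]
          have hcard : Fintype.card (Fin d → Fin m) = m ^ d := by simp
          rw [hcard, nsmul_eq_mul]
          push_cast
          field_simp

/-- the integral of a small bump against a bounded function -/
lemma bump_int_le {k : Fin d → ℤ} {m : ℕ} (hm : 1 ≤ m) (q : Fin d → Fin m) {g ψ : Pt d → ℝ}
    (hg : ∀ y, 0 ≤ g y ∧ g y ≤ 1)
    (hgs : ∀ y, g y ≠ 0 → ∀ i, ((q i : ℕ) : ℝ) < m * (y i - k i) ∧ m * (y i - k i) < ((q i : ℕ) : ℝ) + 1)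
    {Ψ : ℝ} (hΨ0 : 0 ≤ Ψ) (hΨ : ∀ y ∈ cell k, |ψ y| ≤ Ψ) :
    |∫ y in cell k, g y * ψ y| ≤ Ψ / (m : ℝ) ^ d := by
  have hm' : (0 : ℝ) < m := by exact_mod_cast hm
  have h1 : ∫ y in cell k, g y * ψ y = ∫ y in box k m q, g y * ψ y := by
    apply setIntegral_eq_of_subset_of_forall_sdiff_eq_zero (measurableSet_cell k) (box_sub_cell hm)
    intro y hy
    have : g y = 0 := by
      by_contra hne
      apply hy.2
      rw [mem_box hm]
      intro i
      exact ⟨(hgs y hne i).1.le, (hgs y hne i).2⟩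
    rw [this, zero_mul]
  rw [h1, ← Real.norm_eq_abs]
  have hfin : volume (box k m q) < ⊤ := by rw [vol_box k hm q]; exact ENNReal.ofReal_lt_top
  have h2 := norm_setIntegral_le_of_norm_le_const (f := fun y => g y * ψ y) (C := Ψ) hfin (by
    intro y hy
    rw [norm_mul, Real.norm_eq_abs, Real.norm_eq_abs, abs_of_nonneg (hg y).1]
    calc g y * |ψ y| ≤ 1 * Ψ := mul_le_mul (hg y).2 (hΨ y (box_sub_cell hm hy)) (abs_nonneg _) zero_le_one
      _ = Ψ := one_mul _)
  rw [Measure.real, vol_box_real k hm q] at h2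
  calc _ ≤ _ := h2
    _ = _ := by ring

end Pool.Agent.R286.MG.IL
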