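import Mathlib
import Pool.Agent.R286.MG.Stm
import Pool.Agent.R286.MG.IL1
import Pool.Agent.R286.MG.IL2

set_option autoImplicit false

open MeasureTheory Finset

namespace Pool.Agent.R286.MG.IL

variable {d : ℕ}

/-- The gradient estimate everywhere from the estimates at the nodes. -/
lemma grad_bound {E : Set (Pt d)} (hE : MeasurableSet E) (hb : Bornology.IsBounded E) {L : ℝ}
    (hL1 : 1 ≤ L) (hL : ∀ y ∈ E, ‖y‖ ≤ L) (hd : 2 ≤ d) (k : Fin d → ℤ) {K0 : ℝ} (hK0 : 0 ≤ K0)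
    (hK : ∀ y ∈ cell k, ‖y‖ ≤ K0) {h : Pt d → ℝ} (hc : Continuous h)
    (hs : ∀ y, y ∉ cell k → h y = 0) {H0 H1 : ℝ} (hH0 : ∀ y, |h y| ≤ H0) (hH1 : 0 ≤ H1)
    (hlip : ∀ y y', |h y - h y'| ≤ H1 * ‖y - y'‖) {η : ℝ} (hη : 0 < η) {R : ℝ} (hR : H0 ≤ η * R)
    {m s p : ℕ} (hm : 1 ≤ m) (hsz : (R + (K0 + R * L)) * (m : ℝ) ^ p ≤ (m : ℝ) ^ s)
    (hsm : (volume E).toReal * H1 * (1 + L) * R * 2 ≤ η * (m : ℝ) ^ p)
    (hnode : ∀ (a : Fin (m ^ s + 1)) (b : Fin d → Fin (2 * m ^ s + 1)),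
      |P E h (1 + ((a : ℕ) : ℝ) / (m : ℝ) ^ p)
        (fun i => (((b i : ℕ) : ℝ) - (m : ℝ) ^ s) / (m : ℝ) ^ p)| ≤
          η / 2 * (1 + ((a : ℕ) : ℝ) / (m : ℝ) ^ p) ^ (d - 1)) :
    ∀ r : ℝ, 1 ≤ r → ∀ x : Pt d, |P E h r x| ≤ η * r ^ (d - 1) := by
  intro r hr x
  have hm' : (0 : ℝ) < m := by exact_mod_cast hm
  have hmp : (0 : ℝ) < (m : ℝ) ^ p := by positivity
  have hrd : r ≤ r ^ (d - 1) := le_self_pow₀ hr (by omega)
  have hr0 : 0 < r := by linarith
  have hdd : r ^ d = r ^ (d - 1) * r := by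
    rw [← pow_succ]; congr 1; omega
  rcases le_or_gt R r with h1 | h1
  · calc |P E h r x| ≤ H0 := P_abs_le_cell k hc hH0 hs hr0 x
      _ ≤ η * R := hR
      _ ≤ η * r := mul_le_mul_of_nonneg_left h1 hη.le
      _ ≤ η * r ^ (d - 1) := mul_le_mul_of_nonneg_left hrd hη.le
  have hR0 : 0 < R := by linarith
  rcases lt_or_ge (K0 + r * L) ‖x‖ with h2 | h2
  · have h3 : P E h r x = 0 := by
      unfold P
      have : ∫ y in E, h (x + r • y) = 0 := by
        rw [← integral_zero (Pt d) ℝ (μ := volume.restrict E)]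
        apply setIntegral_congr_fun hE
        intro y hy
        show h (x + r • y) = 0
        apply hs
        intro hcell
        have h4 := hK _ hcell
        have h5 : ‖x‖ ≤ ‖x + r • y‖ + ‖r • y‖ := by
          have : x = (x + r • y) - r • y := by abel
          calc ‖x‖ = ‖(x + r • y) - r • y‖ := by rw [← this]
            _ ≤ _ := norm_sub_le _ _
        rw [norm_smul, Real.norm_eq_abs, abs_of_pos hr0] at h5
        have h6 := hL y hy
        nlinarith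
      rw [this, mul_zero]
    rw [h3, abs_zero]
    positivity
  -- the node
  have hms : (m : ℝ) ^ s = (m : ℝ) ^ s := rfl
  have hx : ∀ i, |x i| ≤ K0 + R * L := by
    intro i
    have h3 : |x i| ≤ ‖x‖ := by rw [← Real.norm_eq_abs]; exact norm_le_pi_norm x i
    nlinarith
  have hbox1 : (r - 1) * (m : ℝ) ^ p ≤ (m : ℝ) ^ s := by
    refine le_trans ?_ hsz
    apply mul_le_mul_of_nonneg_right _ hmp.le
    nlinarith
  have hbox2 : ∀ i, |x i * (m : ℝ) ^ p| ≤ (m : ℝ) ^ s := by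
    intro i
    refine le_trans ?_ hsz
    rw [abs_mul, abs_of_pos hmp]
    apply mul_le_mul_of_nonneg_right _ hmp.le
    linarith [hx i]
  set a : ℕ := ⌈(r - 1) * (m : ℝ) ^ p⌉₊ with ha
  have ha1 : a < m ^ s + 1 := by
    have : a ≤ m ^ s := by
      rw [ha, Nat.ceil_le]
      push_cast
      exact hbox1
    omega
  set ra : ℝ := 1 + (a : ℝ) / (m : ℝ) ^ p with hra
  have hra1 : r ≤ ra := by
    have : (r - 1) * (m : ℝ) ^ p ≤ a := Nat.le_ceil _
    have h3 : r - 1 ≤ (a : ℝ) / (m : ℝ) ^ p := by rw [le_div_iff₀ hmp]; exact this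
    linarith
  have hra2 : ra - r ≤ 1 / (m : ℝ) ^ p := by
    have h3 : (a : ℝ) < (r - 1) * (m : ℝ) ^ p + 1 := Nat.ceil_lt_add_one (by nlinarith)
    have h4 : (a : ℝ) / (m : ℝ) ^ p ≤ (r - 1) + 1 / (m : ℝ) ^ p := by
      rw [div_le_iff₀ hmp, add_mul, div_mul_cancel₀ _ hmp.ne']
      linarith
    linarith
  set c : Fin d → ℤ := fun i => ⌊x i * (m : ℝ) ^ p⌋ + (m ^ s : ℕ) with hcdef
  have hc0 : ∀ i, 0 ≤ c i ∧ c i ≤ 2 * (m ^ s : ℕ) := by
    intro i
    have h3 := abs_le.1 (hbox2 i)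
    constructor
    · have : -((m ^ s : ℕ) : ℤ) ≤ ⌊x i * (m : ℝ) ^ p⌋ := by
        rw [Int.le_floor]
        push_cast
        exact h3.1
      simp only [hcdef]
      omega
    · have : ⌊x i * (m : ℝ) ^ p⌋ ≤ ((m ^ s : ℕ) : ℤ) := by
        have h4 : (⌊x i * (m : ℝ) ^ p⌋ : ℝ) ≤ ((m ^ s : ℕ) : ℝ) := by
          refine (Int.floor_le _).trans ?_
          push_cast
          exact h3.2
        exact_mod_cast h4
      simp only [hcdef]
      omega
  set b : Fin d → Fin (2 * m ^ s + 1) := fun i => ⟨(c i).toNat, by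
    have := hc0 i
    omega⟩ with hbdef
  have hbi : ∀ i, (((b i : ℕ) : ℝ) - (m : ℝ) ^ s) = (⌊x i * (m : ℝ) ^ p⌋ : ℝ) := by
    intro i
    have h3 : ((c i).toNat : ℤ) = c i := Int.toNat_of_nonneg (hc0 i).1
    have h4 : (((c i).toNat : ℕ) : ℝ) = ((c i : ℤ) : ℝ) := by exact_mod_cast h3
    show (((c i).toNat : ℕ) : ℝ) - (m : ℝ) ^ s = _
    rw [h4]
    simp only [hcdef]
    push_cast
    ring
  set xb : Pt d := fun i => (((b i : ℕ) : ℝ) - (m : ℝ) ^ s) / (m : ℝ) ^ p with hxb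
  have hxb1 : ‖x - xb‖ ≤ 1 / (m : ℝ) ^ p := by
    rw [pi_norm_le_iff_of_nonneg (by positivity)]
    intro i
    rw [Pi.sub_apply, Real.norm_eq_abs]
    simp only [hxb]
    rw [hbi i]
    have h3 := Int.floor_le (x i * (m : ℝ) ^ p)
    have h4 := Int.lt_floor_add_one (x i * (m : ℝ) ^ p)
    have h5 : (⌊x i * (m : ℝ) ^ p⌋ : ℝ) / (m : ℝ) ^ p ≤ x i := by
      rw [div_le_iff₀ hmp]; exact h3
    have h6 : x i ≤ (⌊x i * (m : ℝ) ^ p⌋ : ℝ) / (m : ℝ) ^ p + 1 / (m : ℝ) ^ p := by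
      rw [← add_div, le_div_iff₀ hmp]; exact h4.le
    rw [abs_le]
    constructor <;> linarith [(by positivity : (0 : ℝ) < 1 / (m : ℝ) ^ p)]
  have hn := hnode ⟨a, ha1⟩ b
  have hn' : |P E h ra xb| ≤ η / 2 * ra ^ (d - 1) := hn
  have hra0 : 0 < ra := by linarith
  have hdd2 : ra ^ d = ra ^ (d - 1) * ra := by
    rw [← pow_succ]; congr 1; omega
  set q1 : ℝ := ∫ y in E, h (x + r • y) with hq1
  set q2 : ℝ := ∫ y in E, h (xb + ra • y) with hq2
  have hq2' : |q2| ≤ η / 2 / r := by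
    have h3 : ra ^ (d - 1) * (ra * |q2|) ≤ ra ^ (d - 1) * (η / 2) := by
      have h4 : |P E h ra xb| = ra ^ (d - 1) * (ra * |q2|) := by
        unfold P
        rw [abs_mul, abs_of_pos (by positivity : 0 < ra ^ d), hdd2]
        ring
      rw [h4] at hn'
      linarith
    have h5 : ra * |q2| ≤ η / 2 := le_of_mul_le_mul_left h3 (by positivity)
    rw [le_div_iff₀ hr0]
    nlinarith [abs_nonneg q2]
  have hdiff : |q1 - q2| ≤ η / 2 / r := by
    have h3 := Q_lip hE hb hL hc hH1 hlip r ra x xb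
    have h4 : |r - ra| ≤ 1 / (m : ℝ) ^ p := by
      rw [abs_sub_comm, abs_of_nonneg (by linarith)]; exact hra2
    have h5 : H1 * (‖x - xb‖ + L * |r - ra|) ≤ H1 * ((1 + L) * (1 / (m : ℝ) ^ p)) := by
      apply mul_le_mul_of_nonneg_left _ hH1
      nlinarith
    have hV : (0 : ℝ) ≤ (volume E).toReal := ENNReal.toReal_nonneg
    have h6 : (volume E).toReal * (H1 * (‖x - xb‖ + L * |r - ra|)) ≤
        (volume E).toReal * (H1 * ((1 + L) * (1 / (m : ℝ) ^ p))) := mul_le_mul_of_nonneg_left h5 hV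
    have h7 : (volume E).toReal * (H1 * ((1 + L) * (1 / (m : ℝ) ^ p))) ≤ η / 2 / r := by
      have e1 : (volume E).toReal * (H1 * ((1 + L) * (1 / (m : ℝ) ^ p))) =
          (volume E).toReal * H1 * (1 + L) / (m : ℝ) ^ p := by ring
      rw [e1, le_div_iff₀ hr0, div_mul_eq_mul_div, div_le_iff₀ hmp]
      have h8 : (volume E).toReal * H1 * (1 + L) * r ≤ (volume E).toReal * H1 * (1 + L) * R :=
        mul_le_mul_of_nonneg_left h1.le (by positivity)
      linarith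
    exact h3.trans (h6.trans h7)
  have hq1' : |q1| ≤ η / r := by
    have : q1 = (q1 - q2) + q2 := by ring
    calc |q1| = |(q1 - q2) + q2| := by rw [← this]
      _ ≤ |q1 - q2| + |q2| := abs_add_le _ _
      _ ≤ η / 2 / r + η / 2 / r := add_le_add hdiff hq2'
      _ = η / r := by ring
  unfold P
  rw [abs_mul, abs_of_pos (by positivity : 0 < r ^ d), hdd]
  calc r ^ (d - 1) * r * |q1| ≤ r ^ (d - 1) * r * (η / r) :=
        mul_le_mul_of_nonneg_left hq1' (by positivity)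
    _ = η * r ^ (d - 1) := by field_simp

end Pool.Agent.R286.MG.IL
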