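import Mathlib
import Pool.Agent.R286.MG.Stm
import Pool.Agent.R286.MG.IL1
import Pool.Agent.R286.MG.IL2
import Pool.Agent.R286.MG.IL3

set_option autoImplicit false

open MeasureTheory Finset

namespace Pool.Agent.R286.MG.IL

/-- sums of functions with pairwise disjoint supports -/
lemma disj_sum {ι : Type} [Fintype ι] (c : ι → ℝ) (g : ι → ℝ)
    (hdisj : ∀ q q', q ≠ q' → g q * g q' = 0) :
    (∑ q, c q * g q = 0 ∧ ∀ q, g q = 0) ∨ ∃ q, g q ≠ 0 ∧ (∀ q', q' ≠ q → g q' = 0) ∧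
      ∑ q, c q * g q = c q * g q := by
  by_cases h : ∀ q, g q = 0
  · left
    refine ⟨?_, h⟩
    apply Finset.sum_eq_zero
    intro q _
    rw [h q, mul_zero]
  · right
    push Not at h
    obtain ⟨q, hq⟩ := h
    have h1 : ∀ q', q' ≠ q → g q' = 0 := by
      intro q' hne
      have := hdisj q q' (Ne.symm hne)
      rcases mul_eq_zero.1 this with h2 | h2
      · exact absurd h2 hq
      · exact h2
    refine ⟨q, hq, h1, ?_⟩
    apply Finset.sum_eq_single q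
    · intro q' _ hne
      rw [h1 q' hne, mul_zero]
    · intro h2
      exact absurd (Finset.mem_univ q) h2

lemma disj_sq {ι : Type} [Fintype ι] (c : ι → ℝ) (g : ι → ℝ)
    (hdisj : ∀ q q', q ≠ q' → g q * g q' = 0) :
    (∑ q, c q * g q) ^ 2 = ∑ q, c q ^ 2 * g q ^ 2 := by
  rcases disj_sum c g hdisj with ⟨h1, h2⟩ | ⟨q, hq, h1, h2⟩
  · rw [h1]
    symm
    rw [Finset.sum_eq_zero]
    · norm_num
    · intro q _
      rw [h2 q]; ring
  · rw [h2]
    symm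
    rw [Finset.sum_eq_single q]
    · ring
    · intro q' _ hne
      rw [h1 q' hne]; ring
    · intro h3
      exact absurd (Finset.mem_univ q) h3

lemma card_bound (d n m s : ℕ) (hd : 1 ≤ d) (hm : 1 ≤ m) :
    (2 * Fintype.card (Fin n ⊕ (Fin d × Fin (m ^ s + 1) × (Fin d → Fin (2 * m ^ s + 1)))) : ℝ) ≤
      2 * ((n : ℝ) + 2 * d * 3 ^ d) * ((m : ℝ) ^ (s * (d + 1))) := by
  have hcard : Fintype.card (Fin n ⊕ (Fin d × Fin (m ^ s + 1) × (Fin d → Fin (2 * m ^ s + 1)))) =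
      n + d * ((m ^ s + 1) * (2 * m ^ s + 1) ^ d) := by simp
  rw [hcard]
  have hms : 1 ≤ m ^ s := Nat.one_le_pow _ _ hm
  have h1 : (m ^ s + 1) * (2 * m ^ s + 1) ^ d ≤ (2 * m ^ s) * (3 * m ^ s) ^ d := by
    apply Nat.mul_le_mul (by omega)
    apply Nat.pow_le_pow_left (by omega)
  have h2 : (2 * m ^ s) * (3 * m ^ s) ^ d = 2 * 3 ^ d * m ^ (s * (d + 1)) := by
    rw [mul_pow, ← pow_mul, mul_add, pow_add, mul_one]
    ring
  have h3 : 1 ≤ m ^ (s * (d + 1)) := Nat.one_le_pow _ _ hm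
  have h4 : 2 * (n + d * ((m ^ s + 1) * (2 * m ^ s + 1) ^ d)) ≤
      2 * (n + 2 * d * 3 ^ d) * m ^ (s * (d + 1)) := by
    have h5 : d * ((m ^ s + 1) * (2 * m ^ s + 1) ^ d) ≤ d * (2 * 3 ^ d * m ^ (s * (d + 1))) := by
      apply Nat.mul_le_mul_left
      rw [← h2]; exact h1
    have h6 : n ≤ n * m ^ (s * (d + 1)) := Nat.le_mul_of_pos_right _ (by omega)
    calc 2 * (n + d * ((m ^ s + 1) * (2 * m ^ s + 1) ^ d)) ≤
          2 * (n * m ^ (s * (d + 1)) + d * (2 * 3 ^ d * m ^ (s * (d + 1)))) := by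
            apply Nat.mul_le_mul_left
            exact Nat.add_le_add h6 h5
      _ = 2 * (n + 2 * d * 3 ^ d) * m ^ (s * (d + 1)) := by ring
  exact_mod_cast h4

lemma log_card (d n j s : ℕ) (hd : 1 ≤ d) (hj : 1 ≤ j) :
    Real.log (2 * Fintype.card (Fin n ⊕ (Fin d × Fin ((2 ^ j) ^ s + 1) ×
      (Fin d → Fin (2 * (2 ^ j) ^ s + 1))))) ≤
      (Real.log (2 * ((n : ℝ) + 2 * d * 3 ^ d)) + s * (d + 1)) * j := by
  have hd' : (1 : ℝ) ≤ d := by exact_mod_cast hd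
  have hj' : (1 : ℝ) ≤ j := by exact_mod_cast hj
  have h1 := card_bound d n (2 ^ j) s hd (Nat.one_le_two_pow)
  have hA : (1 : ℝ) ≤ 2 * ((n : ℝ) + 2 * d * 3 ^ d) := by
    have h3 : (1 : ℝ) ≤ 3 ^ d := one_le_pow₀ (by norm_num)
    have h4 : (0 : ℝ) ≤ n := by positivity
    nlinarith
  have hcardpos : (0 : ℝ) < 2 * Fintype.card (Fin n ⊕ (Fin d × Fin ((2 ^ j) ^ s + 1) ×
      (Fin d → Fin (2 * (2 ^ j) ^ s + 1)))) := by
    have : 0 < Fintype.card (Fin n ⊕ (Fin d × Fin ((2 ^ j) ^ s + 1) ×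
      (Fin d → Fin (2 * (2 ^ j) ^ s + 1)))) := by
      have hz : 0 < d := hd
      rw [Fintype.card_pos_iff]
      exact ⟨Sum.inr (⟨0, hz⟩, 0, fun _ => 0)⟩
    have : (0 : ℝ) < (Fintype.card (Fin n ⊕ (Fin d × Fin ((2 ^ j) ^ s + 1) ×
      (Fin d → Fin (2 * (2 ^ j) ^ s + 1)))) : ℝ) := by exact_mod_cast this
    linarith
  have h2 := Real.log_le_log hcardpos h1
  refine h2.trans ?_
  push_cast
  rw [Real.log_mul (by positivity) (by positivity), ← pow_mul, Real.log_pow]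
  have hlog2 : Real.log 2 ≤ 1 := by
    have := Real.log_two_lt_d9
    linarith
  have hlog2' : 0 ≤ Real.log 2 := Real.log_nonneg (by norm_num)
  have h3 : 0 ≤ Real.log (2 * ((n : ℝ) + 2 * d * 3 ^ d)) := Real.log_nonneg hA
  have h4 : Real.log (2 * ((n : ℝ) + 2 * d * 3 ^ d)) ≤ Real.log (2 * ((n : ℝ) + 2 * d * 3 ^ d)) * j := by
    nlinarith
  have h5 : (((j * (s * (d + 1)) : ℕ) : ℝ)) * Real.log 2 ≤ (s * (d + 1)) * j := by
    push_cast
    have : (0 : ℝ) ≤ (j : ℝ) * (s * (d + 1)) := by positivity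
    nlinarith
  linarith

end Pool.Agent.R286.MG.IL
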