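import Mathlib

set_option autoImplicit false

namespace Pool.Agent.R286.MG.IL

lemma num_tests {Ψ C5 ε m j : ℝ} (hε : 0 < ε) (hC5 : 0 < C5) (hm : 0 < m) (hjm : j ≤ m)
    (T3 : 2 * Ψ ^ 2 * C5 / ε ^ 2 < m) : 2 * (Ψ ^ 2 / m ^ 2) * (C5 * j) < ε ^ 2 := by
  have h7 : 2 * (Ψ ^ 2 / m ^ 2) * (C5 * j) ≤ 2 * Ψ ^ 2 * C5 / m := by
    rw [le_div_iff₀ hm]
    have h8 : 2 * (Ψ ^ 2 / m ^ 2) * (C5 * j) * m = 2 * Ψ ^ 2 * C5 * (j / m) := by
      field_simp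
    rw [h8]
    have h9 : j / m ≤ 1 := by rw [div_le_one hm]; exact hjm
    have h10 : 0 ≤ 2 * Ψ ^ 2 * C5 := by positivity
    nlinarith
  refine lt_of_le_of_lt h7 ?_
  rw [div_lt_iff₀ (by positivity)] at T3
  rw [div_lt_iff₀ hm]
  linarith

lemma num_A {C' C5 ε D j M X Y : ℝ} (hε : 0 < ε) (hC' : 0 < C') (hC5 : 0 < C5) (hD : 0 < D)
    (hj : 0 < j) (hX : 0 < X) (hXY : X ≤ Y)
    (hM : M ≤ X * (ε ^ 2 / (64 * D ^ 2 * C' * C5) / j)) :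
    2 * (C' * M) * (C5 * j) < ε ^ 2 / (16 * D ^ 2) * Y := by
  have h8 : 2 * (C' * M) * (C5 * j) ≤
      2 * (C' * (X * (ε ^ 2 / (64 * D ^ 2 * C' * C5) / j))) * (C5 * j) := by
    apply mul_le_mul_of_nonneg_right _ (by positivity)
    nlinarith
  have h9 : 2 * (C' * (X * (ε ^ 2 / (64 * D ^ 2 * C' * C5) / j))) * (C5 * j) =
      ε ^ 2 / (32 * D ^ 2) * X := by
    field_simp
    ring
  have h10 : ε ^ 2 / (32 * D ^ 2) * X < ε ^ 2 / (16 * D ^ 2) * Y := by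
    have e1 : 0 < ε ^ 2 / (32 * D ^ 2) := by positivity
    have e2 : ε ^ 2 / (16 * D ^ 2) = 2 * (ε ^ 2 / (32 * D ^ 2)) := by
      field_simp
      norm_num
    rw [e2]
    nlinarith
  linarith

lemma num_B {C' C5 ε D j M Y : ℝ} (hε : 0 < ε) (hC' : 0 < C') (hC5 : 0 < C5) (hD : 0 < D)
    (hj : 0 < j) (hM : M ≤ 1) (hY : j ^ 2 < Y) (T4 : 32 * D ^ 2 * C' * C5 / ε ^ 2 ≤ j) :
    2 * (C' * M) * (C5 * j) < ε ^ 2 / (16 * D ^ 2) * Y := by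
  have h7 : 2 * (C' * M) * (C5 * j) ≤ 2 * C' * (C5 * j) := by
    apply mul_le_mul_of_nonneg_right _ (by positivity)
    nlinarith
  have h11 : 2 * C' * (C5 * j) ≤ ε ^ 2 / (16 * D ^ 2) * j ^ 2 := by
    rw [div_le_iff₀ (by positivity)] at T4
    have e1 : ε ^ 2 / (16 * D ^ 2) * j ^ 2 = (j * ε ^ 2) * j / (16 * D ^ 2) := by
      field_simp
    rw [e1, le_div_iff₀ (by positivity)]
    nlinarith
  have h12 : ε ^ 2 / (16 * D ^ 2) * j ^ 2 < ε ^ 2 / (16 * D ^ 2) * Y :=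
    mul_lt_mul_of_pos_left hY (by positivity)
  linarith

lemma num_c1 {C L K0 η m : ℝ} (d : ℕ) (hη : 0 < η) (hm1 : 1 ≤ m) (hK0 : 0 ≤ K0)
    (T1 : 5 * C * (1 + L) / η + K0 ≤ m) :
    m ^ d * (5 * m * C) / η + (K0 + m ^ d * (5 * m * C) / η * L) ≤ m ^ (d + 2) := by
  have e2 : m ^ d * (5 * m * C) / η + (K0 + m ^ d * (5 * m * C) / η * L) =
      (5 * C * (1 + L) / η) * m ^ (d + 1) + K0 := by
    rw [pow_succ]
    field_simp
    ring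
  rw [e2]
  have e3 : (1 : ℝ) ≤ m ^ (d + 1) := one_le_pow₀ hm1
  have e4 : (5 * C * (1 + L) / η) * m ^ (d + 1) + K0 ≤
      (5 * C * (1 + L) / η + K0) * m ^ (d + 1) := by nlinarith
  refine e4.trans ?_
  have e5 : m ^ (d + 2) = m * m ^ (d + 1) := by ring
  rw [e5]
  exact mul_le_mul_of_nonneg_right T1 (by positivity)

lemma num_c2 {VE C L η m D : ℝ} (d : ℕ) (hη : 0 < η) (hm1 : 1 ≤ m)
    (T2 : VE * (25 * D * C ^ 2) * (1 + L) * (5 * C / η) * 2 / η ≤ m) :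
    VE * (m ^ d * (25 * D * C ^ 2 * m ^ 2)) * (1 + L) * (m ^ d * (5 * m * C) / η) * 2 ≤
      η * m ^ (2 * d + 4) := by
  have e1 : VE * (m ^ d * (25 * D * C ^ 2 * m ^ 2)) * (1 + L) * (m ^ d * (5 * m * C) / η) * 2 =
      (VE * (25 * D * C ^ 2) * (1 + L) * (5 * C / η) * 2) * m ^ (2 * d + 3) := by
    have e2 : m ^ (2 * d + 3) = m ^ d * m ^ d * m ^ 3 := by
      rw [← pow_add, ← pow_add]; congr 1; omega
    rw [e2]
    field_simp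
  rw [e1]
  have e3 : m ^ (2 * d + 4) = m * m ^ (2 * d + 3) := by
    rw [← pow_succ']
  rw [e3]
  have e4 : VE * (25 * D * C ^ 2) * (1 + L) * (5 * C / η) * 2 ≤ η * m := by
    rw [div_le_iff₀ hη] at T2
    linarith
  calc (VE * (25 * D * C ^ 2) * (1 + L) * (5 * C / η) * 2) * m ^ (2 * d + 3) ≤
        (η * m) * m ^ (2 * d + 3) :=
        mul_le_mul_of_nonneg_right e4 (by positivity)
    _ = _ := by ring

lemma num_t {ε D Y : ℝ} (hD : 0 < D) :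
    (ε / (2 * D) / 2 * Y) ^ 2 = ε ^ 2 / (16 * D ^ 2) * Y ^ 2 := by
  field_simp
  ring

end Pool.Agent.R286.MG.IL
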