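import Mathlib
import Pool.Agent.R286.MG.Stm
import Pool.Agent.R286.MG.IL1
import Pool.Agent.R286.MG.IL2
import Pool.Agent.R286.MG.IL3
import Pool.Agent.R286.MG.IL4
import Pool.Agent.R286.MG.IL5

set_option autoImplicit false

open MeasureTheory Finset

namespace Pool.Agent.R286.MG

open IL

theorem il (d : ℕ) (hd : 2 ≤ d) (hB : StBump) (hPhi : StPhi) (hEn : StEn) (hH : StHoef)
    (hS : StScale) : StIL d := by
  classical
  obtain ⟨κ, κ', C, hb⟩ := hB
  have hC1 := hb.hC
  obtain ⟨C', hC', hEn'⟩ := hEn κ κ' C hb d (by omega)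
  set Λ : ℝ := ∫ t in (0 : ℝ)..5, κ t ^ 2 with hΛ
  have hΛpos : 0 < Λ := hb.hpos
  set c0 : ℝ := (Λ / 5) ^ d with hc0
  have hc0pos : 0 < c0 := by positivity
  refine ⟨c0, hc0pos, ?_⟩
  intro E hE hbE k v hv hv01 n ψ hψ ε hε
  -- constants
  obtain ⟨L, hL1, hL⟩ : ∃ L : ℝ, 1 ≤ L ∧ ∀ y ∈ E, ‖y‖ ≤ L := by
    obtain ⟨L, hL⟩ := hbE.exists_norm_le
    exact ⟨max 1 L, le_max_left _ _, fun y hy => (hL y hy).trans (le_max_right _ _)⟩
  obtain ⟨K0, hK0, hK⟩ : ∃ K0 : ℝ, 0 ≤ K0 ∧ ∀ y ∈ cell k, ‖y‖ ≤ K0 := by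
    obtain ⟨K0, hK0⟩ := (bounded_cell k).exists_norm_le
    exact ⟨max 0 K0, le_max_left _ _, fun y hy => (hK0 y hy).trans (le_max_right _ _)⟩
  obtain ⟨Ψ, hΨ0, hΨ⟩ : ∃ Ψ : ℝ, 0 ≤ Ψ ∧ ∀ l, ∀ y ∈ cell k, |ψ l y| ≤ Ψ := by
    have h1 : ∀ l, ∃ B : ℝ, ∀ y ∈ cell k, |ψ l y| ≤ B := by
      intro l
      obtain ⟨B, hB⟩ := ((bounded_cell k).isCompact_closure.image (hψ l)).isBounded.exists_norm_le
      exact ⟨B, fun y hy => by
        have := hB (ψ l y) ⟨y, subset_closure hy, rfl⟩
        rwa [Real.norm_eq_abs] at this⟩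
    choose B hB using h1
    refine ⟨∑ l, |B l|, Finset.sum_nonneg fun l _ => abs_nonneg _, fun l y hy => ?_⟩
    refine (hB l y hy).trans ((le_abs_self _).trans ?_)
    exact Finset.single_le_sum (f := fun l => |B l|) (fun l _ => abs_nonneg _) (Finset.mem_univ l)
  choose β hβ0 hβs hβ using fun i => hEn' E hE hbE i
  set BB : ℕ → ℝ := fun N => ∑ i, β i N with hBB
  have hBB0 : ∀ N, 0 ≤ BB N := fun N => Finset.sum_nonneg fun i _ => hβ0 i N
  have hBBs : Summable BB := summable_sum fun i _ => hβs i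
  have hβBB : ∀ i N, β i N ≤ BB N := fun i N =>
    Finset.single_le_sum (f := fun i => β i N) (fun i _ => hβ0 i N) (Finset.mem_univ i)
  set VE : ℝ := (volume E).toReal with hVE
  have hVE0 : 0 ≤ VE := ENNReal.toReal_nonneg
  have hd0 : (0 : ℝ) < d := by exact_mod_cast (by omega : 0 < d)
  have hd1 : (1 : ℝ) ≤ d := by exact_mod_cast (by omega : 1 ≤ d)
  set η : ℝ := ε / (2 * d) with hη
  have hηpos : 0 < η := by positivity
  set s : ℕ := 3 * d + 6 with hs
  set p : ℕ := 2 * d + 4 with hp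
  set C5 : ℝ := Real.log (2 * ((n : ℝ) + 2 * d * 3 ^ d)) + s * (d + 1) with hC5
  have hC5pos : 0 < C5 := by
    have h1 : 0 ≤ Real.log (2 * ((n : ℝ) + 2 * d * 3 ^ d)) := by
      apply Real.log_nonneg
      have h3 : (1 : ℝ) ≤ 3 ^ d := one_le_pow₀ (by norm_num)
      have h4 : (0 : ℝ) ≤ n := by positivity
      nlinarith
    have h2 : (0 : ℝ) < s := by exact_mod_cast (by omega : 0 < s)
    positivity
  -- the density
  set f : Pt d → ℝ := fun y => min (v y) (1 - v y) with hf
  have hfc : Continuous f := hv.min (continuous_const.sub hv)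
  have hf01 : ∀ y, 0 ≤ f y ∧ f y ≤ 1 := fun y =>
    ⟨le_min (hv01 y).1 (by linarith [(hv01 y).2]), (min_le_left _ _).trans (hv01 y).2⟩
  set ω : ℝ := min 1 (ε / (8 * c0)) with hω
  have hωpos : 0 < ω := by positivity
  obtain ⟨m0, hm0⟩ := exists_amp k hfc hf01 hωpos (min_le_left _ _)
  -- the thresholds
  set c : ℝ := ε ^ 2 / (64 * d ^ 2 * C' * C5) with hc
  have hcpos : 0 < c := by positivity
  set K1 : ℝ := VE * (25 * d * C ^ 2) * (1 + L) * (5 * C / η) * 2 with hK1
  have hK1' : 0 ≤ K1 := by positivity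
  obtain ⟨J, hJ⟩ := exists_nat_ge (5 * C * (1 + L) / η + K0 + K1 / η + (2 * Ψ ^ 2 * C5 / ε ^ 2 + 1) +
    32 * d ^ 2 * C' * C5 / ε ^ 2)
  obtain ⟨j, hj, hscale⟩ := hS BB hBB0 hBBs c hcpos (max J (max m0 1))
  have hjJ : (J : ℝ) ≤ j := by exact_mod_cast (le_max_left _ _).trans hj
  have hjm0 : m0 ≤ j := ((le_max_left _ _).trans (le_max_right _ _)).trans hj
  have hj1 : 1 ≤ j := ((le_max_right _ _).trans (le_max_right _ _)).trans hj
  have hj1' : (1 : ℝ) ≤ j := by exact_mod_cast hj1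
  set m : ℕ := 2 ^ j with hm
  have hmj : j < m := Nat.lt_two_pow_self
  have hmj' : (j : ℝ) ≤ m := by exact_mod_cast hmj.le
  have hm1 : 1 ≤ m := by omega
  have hmpos : (0 : ℝ) < m := by exact_mod_cast hm1
  have hm1' : (1 : ℝ) ≤ m := by exact_mod_cast hm1
  have hmR : (m : ℝ) = (2 : ℝ) ^ j := by rw [hm]; push_cast; rfl
  have t1 : (0 : ℝ) ≤ 5 * C * (1 + L) / η := by positivity
  have t2 : (0 : ℝ) ≤ K1 / η := by positivity
  have t3 : (0 : ℝ) ≤ 2 * Ψ ^ 2 * C5 / ε ^ 2 := by positivity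
  have t4 : (0 : ℝ) ≤ 32 * d ^ 2 * C' * C5 / ε ^ 2 := by positivity
  have T1 : 5 * C * (1 + L) / η + K0 ≤ m := by linarith
  have T2 : K1 / η ≤ m := by linarith
  have T3 : 2 * Ψ ^ 2 * C5 / ε ^ 2 < m := by linarith
  have T4 : 32 * d ^ 2 * C' * C5 / ε ^ 2 ≤ j := by linarith
  obtain ⟨a, ha01, haf, haint⟩ := hm0 m (by omega) hm1
  obtain ⟨pφc, pdφc, pφ01, pφs, pdφs, pdisj, pφsq, pseg, pdφbd, pdφlip⟩ := hPhi κ κ' C hb d k m hm1
  -- the constraints
  set rn : Fin (m ^ s + 1) → ℝ := fun aa => 1 + ((aa : ℕ) : ℝ) / (m : ℝ) ^ p with hrn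
  set xn : (Fin d → Fin (2 * m ^ s + 1)) → Pt d :=
    fun bb i => (((bb i : ℕ) : ℝ) - (m : ℝ) ^ s) / (m : ℝ) ^ p with hxn
  have hrn1 : ∀ aa, 1 ≤ rn aa := by
    intro aa
    have : (0 : ℝ) ≤ ((aa : ℕ) : ℝ) / (m : ℝ) ^ p := by positivity
    simp only [hrn]; linarith
  set b : (Fin n ⊕ (Fin d × Fin (m ^ s + 1) × (Fin d → Fin (2 * m ^ s + 1)))) → (Fin d → Fin m) → ℝ := fun g => Sum.casesOn g
    (fun l q => a q * ∫ y in cell k, φ κ k m q y * ψ l y)
    (fun z q => a q * P E (dφ κ κ' k m q z.1) (rn z.2.1) (xn z.2.2)) with hbdef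
  set t : (Fin n ⊕ (Fin d × Fin (m ^ s + 1) × (Fin d → Fin (2 * m ^ s + 1)))) → ℝ := fun g => Sum.casesOn g (fun _ => ε) (fun z => η / 2 * (rn z.2.1) ^ (d - 1)) with ht
  have hlog : Real.log (2 * Fintype.card (Fin n ⊕ (Fin d × Fin (m ^ s + 1) × (Fin d → Fin (2 * m ^ s + 1))))) ≤ C5 * j := log_card d n j s (by omega) hj1
  have hlog0 : 0 ≤ Real.log (2 * Fintype.card (Fin n ⊕ (Fin d × Fin (m ^ s + 1) × (Fin d → Fin (2 * m ^ s + 1))))) := by
    apply Real.log_nonneg
    have : 0 < Fintype.card (Fin n ⊕ (Fin d × Fin (m ^ s + 1) × (Fin d → Fin (2 * m ^ s + 1)))) := by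
      rw [Fintype.card_pos_iff]
      exact ⟨Sum.inr (⟨0, by omega⟩, 0, fun _ => 0)⟩
    have : (1 : ℝ) ≤ (Fintype.card (Fin n ⊕ (Fin d × Fin (m ^ s + 1) × (Fin d → Fin (2 * m ^ s + 1)))) : ℝ) := by exact_mod_cast this
    linarith
  have htpos : ∀ g, 0 < t g := by
    rintro (l | z)
    · exact hε
    · have := hrn1 z.2.1
      show 0 < η / 2 * (rn z.2.1) ^ (d - 1)
      have h2 : 0 < rn z.2.1 := by linarith
      positivity
  have hcond : ∀ g, 2 * (∑ q, b g q ^ 2) * Real.log (2 * Fintype.card (Fin n ⊕ (Fin d × Fin (m ^ s + 1) × (Fin d → Fin (2 * m ^ s + 1))))) < t g ^ 2 := by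
    rintro (l | z)
    · -- tests
      have h1 : ∀ q : Fin d → Fin m, (b (Sum.inl l) q) ^ 2 ≤ (Ψ / (m : ℝ) ^ d) ^ 2 := by
        intro q
        have h2 : |∫ y in cell k, φ κ k m q y * ψ l y| ≤ Ψ / (m : ℝ) ^ d :=
          bump_int_le hm1 q (pφ01 q) (fun y hy => pφs q y hy (by omega)) hΨ0 (hΨ l)
        show (a q * ∫ y in cell k, φ κ k m q y * ψ l y) ^ 2 ≤ _
        rw [← sq_abs]
        apply pow_le_pow_left₀ (abs_nonneg _)
        rw [abs_mul, abs_of_nonneg (ha01 q).1]
        calc a q * |∫ y in cell k, φ κ k m q y * ψ l y| ≤ 1 * (Ψ / (m : ℝ) ^ d) :=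
              mul_le_mul (ha01 q).2 h2 (abs_nonneg _) zero_le_one
          _ = _ := one_mul _
      have h3 : ∑ q : Fin d → Fin m, (b (Sum.inl l) q) ^ 2 ≤ Ψ ^ 2 / (m : ℝ) ^ 2 := by
        refine (Finset.sum_le_sum fun q _ => h1 q).trans ?_
        rw [Finset.sum_const, Finset.card_univ]
        have hcard : Fintype.card (Fin d → Fin m) = m ^ d := by simp
        rw [hcard, nsmul_eq_mul]
        push_cast
        have h4 : (m : ℝ) ^ d * (Ψ / (m : ℝ) ^ d) ^ 2 = Ψ ^ 2 / (m : ℝ) ^ d := by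
          field_simp
        rw [h4]
        apply div_le_div_of_nonneg_left (by positivity) (by positivity)
        exact pow_le_pow_right₀ hm1' hd
      have h5 : 2 * (∑ q : Fin d → Fin m, (b (Sum.inl l) q) ^ 2) * Real.log (2 * Fintype.card (Fin n ⊕ (Fin d × Fin (m ^ s + 1) × (Fin d → Fin (2 * m ^ s + 1))))) ≤
          2 * (Ψ ^ 2 / (m : ℝ) ^ 2) * (C5 * j) := by
        apply mul_le_mul _ hlog hlog0 (by positivity)
        linarith
      have h6 : 2 * (Ψ ^ 2 / (m : ℝ) ^ 2) * (C5 * j) < ε ^ 2 := num_tests hε hC5pos hmpos hmj' T3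
      calc _ ≤ _ := h5
        _ < ε ^ 2 := h6
    · -- gradients
      obtain ⟨i, aa, bb⟩ := z
      set ra : ℝ := rn aa with hra
      have hra1 : 1 ≤ ra := hrn1 aa
      have hra0 : 0 < ra := by linarith
      obtain ⟨l, hl1, hl2⟩ := exists_nat_pow_near hra1 (by norm_num : (1 : ℝ) < 2)
      have hen := hβ i k j l ra hl1 hl2.le (xn bb)
      have h1 : ∑ q : Fin d → Fin m, (b (Sum.inr (i, aa, bb)) q) ^ 2 ≤
          ∑ q : Fin d → Fin m, (P E (dφ κ κ' k (2 ^ j) q i) ra (xn bb)) ^ 2 := by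
        apply Finset.sum_le_sum
        intro q _
        show (a q * P E (dφ κ κ' k m q i) ra (xn bb)) ^ 2 ≤ _
        rw [mul_pow]
        have h2 : a q ^ 2 ≤ 1 := pow_le_one₀ (ha01 q).1 (ha01 q).2
        have h3 := sq_nonneg (P E (dφ κ κ' k m q i) ra (xn bb))
        nlinarith
      have hA : ((2 : ℝ) ^ j) ^ 2 / ((2 : ℝ) ^ j) ^ d ≤ 1 := by
        rw [div_le_one (by positivity)]
        exact pow_le_pow_right₀ (by rw [← hmR]; exact hm1') hd
      have hA0 : 0 ≤ ((2 : ℝ) ^ j) ^ 2 / ((2 : ℝ) ^ j) ^ d := by positivity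
      have hmin0 : 0 ≤ min 1 (ra ^ d * β i (j + l)) :=
        le_min zero_le_one (mul_nonneg (by positivity) (hβ0 i _))
      have h4 : ∑ q : Fin d → Fin m, (b (Sum.inr (i, aa, bb)) q) ^ 2 ≤ C' * min 1 (ra ^ d * β i (j + l)) := by
        refine h1.trans (hen.trans ?_)
        have h5 : C' * ((2 : ℝ) ^ j) ^ 2 / ((2 : ℝ) ^ j) ^ d ≤ C' := by
          rw [mul_div_assoc]
          nlinarith
        exact mul_le_mul_of_nonneg_right h5 hmin0
      have hpow : ra ^ d ≤ (ra ^ (d - 1)) ^ 2 := by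
        rw [← pow_mul]
        exact pow_le_pow_right₀ hra1 (by omega)
      have h5 : 2 * (∑ q : Fin d → Fin m, (b (Sum.inr (i, aa, bb)) q) ^ 2) * Real.log (2 * Fintype.card (Fin n ⊕ (Fin d × Fin (m ^ s + 1) × (Fin d → Fin (2 * m ^ s + 1))))) ≤
          2 * (C' * min 1 (ra ^ d * β i (j + l))) * (C5 * j) := by
        apply mul_le_mul _ hlog hlog0 (by positivity)
        linarith
      refine lt_of_le_of_lt h5 ?_
      have htg : (t (Sum.inr (i, aa, bb))) ^ 2 = ε ^ 2 / (16 * d ^ 2) * (ra ^ (d - 1)) ^ 2 := by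
        show (η / 2 * ra ^ (d - 1)) ^ 2 = _
        rw [hη]
        exact num_t hd0
      rw [htg]
      rcases le_or_gt (2 ^ l) j with hlj | hlj
      · have h6 : β i (j + l) ≤ c / j := (hβBB i _).trans (hscale l hlj)
        have h7 : min 1 (ra ^ d * β i (j + l)) ≤ ra ^ d * (c / j) :=
          (min_le_right _ _).trans (mul_le_mul_of_nonneg_left h6 (pow_nonneg hra0.le _))
        exact num_A hε hC' hC5pos hd0 (lt_of_lt_of_le zero_lt_one hj1') (pow_pos hra0 _) hpow h7
      · have h6 : min 1 (ra ^ d * β i (j + l)) ≤ 1 := min_le_left _ _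
        have h8 : (j : ℝ) < ra := by
          have : (j : ℝ) < (2 : ℝ) ^ l := by exact_mod_cast hlj
          exact this.trans_le hl1
        have h9 : ra ≤ ra ^ (d - 1) := le_self_pow₀ hra1 (by omega)
        have h10 : (j : ℝ) ^ 2 < (ra ^ (d - 1)) ^ 2 :=
          pow_lt_pow_left₀ (h8.trans_le h9) (Nat.cast_nonneg _) (by norm_num)
        exact num_B hε hC' hC5pos hd0 (lt_of_lt_of_le zero_lt_one hj1') h6 h10 T4
  obtain ⟨σ, hσ1, hσ⟩ := hH (Fin d → Fin m) (Fin n ⊕ (Fin d × Fin (m ^ s + 1) × (Fin d → Fin (2 * m ^ s + 1)))) b t htpos hcond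
  -- the function u
  set cc : (Fin d → Fin m) → ℝ := fun q => σ q * a q with hcc
  have hcc1 : ∀ q, |cc q| ≤ 1 := by
    intro q
    simp only [hcc]
    rw [abs_mul, abs_of_nonneg (ha01 q).1]
    rcases hσ1 q with h | h <;> rw [h] <;> simp [(ha01 q).2]
  have hσabs : ∀ q, |σ q| = 1 := by
    intro q
    rcases hσ1 q with h | h <;> rw [h] <;> simp
  set u : Pt d → ℝ := fun y => ∑ q, cc q * φ κ k m q y with hu
  set hgrad : Fin d → Pt d → ℝ := fun i y => ∑ q, cc q * dφ κ κ' k m q i y with hgr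
  have huc : Continuous u := continuous_finsetSum _ fun q _ => continuous_const.mul (pφc q)
  have hgc : ∀ i, Continuous (hgrad i) := fun i =>
    continuous_finsetSum _ fun q _ => continuous_const.mul (pdφc q i)
  have hcells : ∀ y, ∀ q : Fin d → Fin m, (∀ i, ((q i : ℕ) : ℝ) < m * (y i - k i) ∧ m * (y i - k i) < ((q i : ℕ) : ℝ) + 1) →
      y ∈ cell k := by
    intro y q hq
    exact box_sub_cell hm1 ((mem_box hm1).2 fun i => ⟨(hq i).1.le, (hq i).2⟩)
  have hu0 : ∀ y, y ∉ cell k → u y = 0 := by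
    intro y hy
    apply Finset.sum_eq_zero
    intro q _
    have : φ κ k m q y = 0 := by
      by_contra hne
      exact hy (hcells y q (pφs q y hne (by omega)))
    rw [this, mul_zero]
  have hg0 : ∀ i y, y ∉ cell k → hgrad i y = 0 := by
    intro i y hy
    apply Finset.sum_eq_zero
    intro q _
    have : dφ κ κ' k m q i y = 0 := by
      by_contra hne
      exact hy (hcells y q (pdφs q i y hne))
    rw [this, mul_zero]
  have hcardι : (Fintype.card (Fin d → Fin m) : ℝ) = (m : ℝ) ^ d := by simp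
  refine ⟨u, huc, hu0, ?_, ?_, ?_, ?_⟩
  · -- bounds
    intro y
    have hy : |u y| ≤ f y := by
      rcases disj_sum cc (fun q => φ κ k m q y) (fun q q' hne => pdisj q q' y hne) with
        ⟨h1, _⟩ | ⟨q, hq, _, h2⟩
      · show |∑ q, cc q * φ κ k m q y| ≤ f y
        rw [h1, abs_zero]; exact (hf01 y).1
      · show |∑ q, cc q * φ κ k m q y| ≤ f y
        rw [h2, abs_mul]
        have h3 : |cc q| = a q := by
          simp only [hcc]
          rw [abs_mul, hσabs q, one_mul, abs_of_nonneg (ha01 q).1]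
        rw [h3, abs_of_nonneg (pφ01 q y).1]
        calc a q * φ κ k m q y ≤ a q * 1 := mul_le_mul_of_nonneg_left (pφ01 q y).2 (ha01 q).1
          _ = a q := mul_one _
          _ ≤ f y := haf q y (pφs q y hq (by omega))
    have h4 := abs_le.1 hy
    have h5 : f y ≤ v y := min_le_left _ _
    have h6 : f y ≤ 1 - v y := min_le_right _ _
    constructor <;> linarith
  · -- tests
    intro l
    have h1 := hσ (Sum.inl l)
    have h2 : ∫ y in cell k, u y * ψ l y = ∑ q, σ q * b (Sum.inl l) q := by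
      have e1 : ∀ y, u y * ψ l y = ∑ q, cc q * (φ κ k m q y * ψ l y) := by
        intro y
        simp only [hu]
        rw [Finset.sum_mul]
        apply Finset.sum_congr rfl
        intro q _
        ring
      simp_rw [e1]
      rw [integral_finsetSum]
      · apply Finset.sum_congr rfl
        intro q _
        rw [integral_const_mul]
        show _ = σ q * (a q * ∫ y in cell k, φ κ k m q y * ψ l y)
        simp only [hcc]
        ring
      · intro q _
        exact (integrableOn_of_cont (bounded_cell k) ((pφc q).mul (hψ l))).const_mul _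
    rw [h2]
    exact h1
  · -- energy
    have h1 : ∫ y in cell k, u y ^ 2 = c0 * ((∑ q, a q ^ 2) / (m : ℝ) ^ d) := by
      have e1 : ∀ y, u y ^ 2 = ∑ q, cc q ^ 2 * φ κ k m q y ^ 2 := fun y =>
        disj_sq cc (fun q => φ κ k m q y) (fun q q' hne => pdisj q q' y hne)
      simp_rw [e1]
      rw [integral_finsetSum]
      · have e2 : ∀ q, ∫ y in cell k, cc q ^ 2 * φ κ k m q y ^ 2 = a q ^ 2 * (c0 / (m : ℝ) ^ d) := by
          intro q
          rw [integral_const_mul, pφsq q]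
          have e3 : cc q ^ 2 = a q ^ 2 := by
            simp only [hcc]
            rw [mul_pow, ← sq_abs (σ q), hσabs q]; ring
          rw [e3, hc0, ← hΛ]
          congr 1
          rw [← div_pow]
          congr 1
          field_simp
        rw [Finset.sum_congr rfl fun q _ => e2 q, ← Finset.sum_mul]
        ring
      · intro q _
        exact (integrableOn_of_cont (bounded_cell k) ((pφc q).pow 2)).const_mul _
    rw [h1]
    have h2 : c0 * (∫ y in cell k, f y ^ 2) ≤ c0 * ((∑ q, a q ^ 2) / (m : ℝ) ^ d) + ε := by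
      have h3 : c0 * (∫ y in cell k, f y ^ 2) ≤ c0 * ((∑ q, a q ^ 2) / (m : ℝ) ^ d + 8 * ω) :=
        mul_le_mul_of_nonneg_left haint hc0pos.le
      have h4 : c0 * (8 * ω) ≤ ε := by
        have h5 : ω ≤ ε / (8 * c0) := min_le_right _ _
        rw [le_div_iff₀ (by positivity)] at h5
        linarith
      linarith
    linarith
  · -- the Lipschitz bound
    have hmd : (0 : ℝ) ≤ (m : ℝ) ^ d := by positivity
    set H0 : ℝ := (m : ℝ) ^ d * (5 * m * C) with hH0
    set H1 : ℝ := (m : ℝ) ^ d * (25 * d * C ^ 2 * m ^ 2) with hH1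
    have hgbd : ∀ i y, |hgrad i y| ≤ H0 := by
      intro i y
      refine (Finset.abs_sum_le_sum_abs _ _).trans ?_
      have h1 : ∀ q ∈ (Finset.univ : Finset (Fin d → Fin m)), |cc q * dφ κ κ' k m q i y| ≤ 5 * m * C := by
        intro q _
        rw [abs_mul]
        calc |cc q| * |dφ κ κ' k m q i y| ≤ 1 * (5 * m * C) :=
              mul_le_mul (hcc1 q) (pdφbd q i y) (abs_nonneg _) zero_le_one
          _ = _ := one_mul _
      refine (Finset.sum_le_sum h1).trans ?_
      rw [Finset.sum_const, Finset.card_univ, nsmul_eq_mul, hcardι]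
    have hglip : ∀ i y y', |hgrad i y - hgrad i y'| ≤ H1 * ‖y - y'‖ := by
      intro i y y'
      have e1 : hgrad i y - hgrad i y' = ∑ q, cc q * (dφ κ κ' k m q i y - dφ κ κ' k m q i y') := by
        simp only [hgr]
        rw [← Finset.sum_sub_distrib]
        apply Finset.sum_congr rfl
        intro q _
        ring
      rw [e1]
      refine (Finset.abs_sum_le_sum_abs _ _).trans ?_
      have h1 : ∀ q ∈ (Finset.univ : Finset (Fin d → Fin m)), |cc q * (dφ κ κ' k m q i y - dφ κ κ' k m q i y')| ≤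
          25 * d * C ^ 2 * m ^ 2 * ‖y - y'‖ := by
        intro q _
        rw [abs_mul]
        calc |cc q| * |dφ κ κ' k m q i y - dφ κ κ' k m q i y'| ≤ 1 * (25 * d * C ^ 2 * m ^ 2 * ‖y - y'‖) :=
              mul_le_mul (hcc1 q) (pdφlip q i y y') (abs_nonneg _) zero_le_one
          _ = _ := one_mul _
      refine (Finset.sum_le_sum h1).trans ?_
      rw [Finset.sum_const, Finset.card_univ, nsmul_eq_mul, hcardι]
      linarith
    have hH1' : 0 ≤ H1 := by positivity
    have hsp : s = p + (d + 2) := by omega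
    have hmain : ∀ i, ∀ r : ℝ, 1 ≤ r → ∀ x : Pt d, |P E (hgrad i) r x| ≤ η * r ^ (d - 1) := by
      intro i
      apply grad_bound hE hbE hL1 hL hd k hK0 hK (hgc i) (hg0 i) (hgbd i) hH1' (hglip i) hηpos
        (R := H0 / η) (m := m) (s := s) (p := p) _ hm1
      · -- size
        have e1 : (H0 / η + (K0 + H0 / η * L)) ≤ (m : ℝ) ^ (d + 2) := num_c1 d hηpos hm1' hK0 T1
        calc (H0 / η + (K0 + H0 / η * L)) * (m : ℝ) ^ p ≤ (m : ℝ) ^ (d + 2) * (m : ℝ) ^ p :=
              mul_le_mul_of_nonneg_right e1 (by positivity)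
          _ = (m : ℝ) ^ s := by rw [← pow_add]; congr 1; omega
      · -- small spacing
        exact num_c2 d hηpos hm1' T2
      · -- nodes
        intro aa bb
        have h1 := hσ (Sum.inr (i, aa, bb))
        have h2 : P E (hgrad i) (rn aa) (xn bb) = ∑ q, σ q * b (Sum.inr (i, aa, bb)) q := by
          simp only [hgr]
          rw [P_sum hbE cc (fun q => dφ κ κ' k m q i) (fun q => pdφc q i)]
          apply Finset.sum_congr rfl
          intro q _
          show σ q * a q * _ = σ q * (a q * P E (dφ κ κ' k m q i) (rn aa) (xn bb))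
          ring
        have h3 : |P E (hgrad i) (rn aa) (xn bb)| ≤ η / 2 * (rn aa) ^ (d - 1) := by
          rw [h2]; exact h1
        exact h3
      · rw [mul_div_cancel₀ _ hηpos.ne']
    intro r hr x x'
    have hseg : ∀ y y', u y - u y' =
        ∫ s in (0 : ℝ)..1, ∑ i, (y i - y' i) * hgrad i (y' + s • (y - y')) := by
      intro y y'
      have e1 : u y - u y' = ∑ q, cc q * (φ κ k m q y - φ κ k m q y') := by
        simp only [hu]
        rw [← Finset.sum_sub_distrib]
        apply Finset.sum_congr rfl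
        intro q _
        ring
      rw [e1]
      have e2 : ∀ s : ℝ, ∑ i, (y i - y' i) * hgrad i (y' + s • (y - y')) =
          ∑ q, cc q * ∑ i, (y i - y' i) * dφ κ κ' k m q i (y' + s • (y - y')) := by
        intro s
        simp only [hgr, Finset.mul_sum]
        rw [Finset.sum_comm]
        apply Finset.sum_congr rfl
        intro q _
        apply Finset.sum_congr rfl
        intro i _
        ring
      simp_rw [e2]
      rw [intervalIntegral.integral_finsetSum]
      · apply Finset.sum_congr rfl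
        intro q _
        rw [intervalIntegral.integral_const_mul, pseg q y y']
      · intro q _
        apply Continuous.intervalIntegrable
        apply continuous_const.mul
        apply continuous_finsetSum
        intro i _
        apply continuous_const.mul
        apply (pdφc q i).comp
        fun_prop
    have hfinal := P_diff hE hbE huc hgc hseg (fun i x => hmain i r hr x) x x'
    refine hfinal.trans ?_
    have e1 : (d : ℝ) * (η * r ^ (d - 1)) = ε / 2 * r ^ (d - 1) := by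
      rw [hη]; field_simp
    rw [e1]
    apply mul_le_mul_of_nonneg_right _ (norm_nonneg _)
    have : (0 : ℝ) ≤ r ^ (d - 1) := by positivity
    nlinarith

end Pool.Agent.R286.MG
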