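import Pool.Agent.R286.MG.Stm

set_option autoImplicit false

open MeasureTheory Finset

namespace Pool.Agent.R286.MG

namespace MonAux

variable {d : ℕ}

/-- squared euclidean norm -/
def nsq (z : Pt d) : ℝ := ∑ i, z i ^ 2

/-- euclidean inner product -/
def dt (v z : Pt d) : ℝ := ∑ i, v i * z i

/-- the quadratic form `|v|^2 |z|^2 - (v.z)^2` -/
def Q (v z : Pt d) : ℝ := nsq v * nsq z - dt v z ^ 2

lemma sq_nonneg' (z : Pt d) : 0 ≤ nsq z := Finset.sum_nonneg fun _ _ => sq_nonneg _

lemma cs (v z : Pt d) : dt v z ^ 2 ≤ nsq v * nsq z := by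
  unfold dt nsq
  exact Finset.sum_mul_sq_le_sq_mul_sq _ _ _

lemma Q_nonneg (v z : Pt d) : 0 ≤ Q v z := by
  unfold Q; linarith [cs v z]

lemma sq_sub (a b : Pt d) : nsq (a - b) = nsq a - 2 * dt a b + nsq b := by
  unfold nsq dt
  rw [Finset.mul_sum, ← Finset.sum_sub_distrib, ← Finset.sum_add_distrib]
  refine Finset.sum_congr rfl fun i _ => ?_
  simp only [Pi.sub_apply]; ring

lemma dt_sub_left (a b c : Pt d) : dt (a - b) c = dt a c - dt b c := by
  unfold dt
  rw [← Finset.sum_sub_distrib]
  refine Finset.sum_congr rfl fun i _ => ?_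
  simp only [Pi.sub_apply]; ring

lemma dt_self (a : Pt d) : dt a a = nsq a := by
  unfold dt nsq
  refine Finset.sum_congr rfl fun i _ => ?_
  ring

lemma Q_sub (a b : Pt d) : Q (a - b) b = nsq a * nsq b - dt a b ^ 2 := by
  unfold Q
  rw [sq_sub, dt_sub_left, dt_self]; ring

/-- the pointwise inequality -/
lemma pointwise (a b : Pt d) (R : ℝ) (hA : Real.sqrt (1 + nsq a) ≤ R)
    (hB : Real.sqrt (1 + nsq b) ≤ R) :
    Q (a - b) b / (2 * R ^ 3) ≤ ∑ j, (w j a - w j b) * (a j - b j) := by
  set A := Real.sqrt (1 + nsq a) with hAdef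
  set B := Real.sqrt (1 + nsq b) with hBdef
  have hsa := sq_nonneg' a
  have hsb := sq_nonneg' b
  have hA2 : A ^ 2 = 1 + nsq a := Real.sq_sqrt (by linarith)
  have hB2 : B ^ 2 = 1 + nsq b := Real.sq_sqrt (by linarith)
  have hA0 : 0 < A := Real.sqrt_pos.mpr (by linarith)
  have hB0 : 0 < B := Real.sqrt_pos.mpr (by linarith)
  have hR0 : 0 < R := lt_of_lt_of_le hA0 hA
  have key : ∑ j, (w j a - w j b) * (a j - b j) =
      (A + B) * (A * B - (1 + dt a b)) / (2 * A * B) := by
    have h1 : ∑ j, (w j a - w j b) * (a j - b j) =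
        (nsq a - dt a b) / (2 * A) + (nsq b - dt a b) / (2 * B) := by
      unfold nsq dt
      rw [← Finset.sum_sub_distrib, ← Finset.sum_sub_distrib, Finset.sum_div, Finset.sum_div,
        ← Finset.sum_add_distrib]
      refine Finset.sum_congr rfl fun j _ => ?_
      have e1 : w j a = 1 / 2 + a j / (2 * A) := rfl
      have e2 : w j b = 1 / 2 + b j / (2 * B) := rfl
      rw [e1, e2]
      field_simp
      ring
    rw [h1]
    have ha : nsq a = A ^ 2 - 1 := by linarith
    have hb : nsq b = B ^ 2 - 1 := by linarith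
    rw [ha, hb]
    field_simp
    ring
  rw [key]
  have hQ0 : 0 ≤ Q (a - b) b := Q_nonneg _ _
  have hv : 0 ≤ nsq (a - b) := sq_nonneg' _
  rw [sq_sub] at hv
  have hQ := Q_sub a b
  -- (AB)^2 - (1+D)^2 >= Q
  have h2 : Q (a - b) b ≤ (A * B) ^ 2 - (1 + dt a b) ^ 2 := by
    rw [hQ, mul_pow, hA2, hB2]; nlinarith
  have hAB : 0 < A * B := mul_pos hA0 hB0
  have h3 : |1 + dt a b| ≤ A * B := by
    rw [← abs_of_pos hAB]
    exact sq_le_sq.mp (by linarith)
  have h4 := (abs_le.mp h3).2
  have h4' := (abs_le.mp h3).1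
  -- X >= Q/(2AB)
  have h5 : Q (a - b) b ≤ 2 * (A * B) * (A * B - (1 + dt a b)) := by nlinarith
  have h6 : Q (a - b) b / (2 * R ^ 3) ≤ (A + B) * Q (a - b) b / (4 * (A * B) ^ 2) := by
    rw [div_le_div_iff₀ (by positivity) (by positivity)]
    have h7 : 2 * (A * B) ^ 2 ≤ R ^ 3 * (A + B) := by
      have hR1 : A * B ≤ R * R := mul_le_mul hA hB hB0.le hR0.le
      have e1 : A * B ^ 2 * A ≤ R ^ 3 * A := by
        have : A * B ^ 2 ≤ R ^ 3 := by
          calc A * B ^ 2 ≤ R * R ^ 2 := mul_le_mul hA (pow_le_pow_left₀ hB0.le hB 2) (by positivity) hR0.le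
            _ = R ^ 3 := by ring
        exact mul_le_mul_of_nonneg_right this hA0.le
      have e2 : A ^ 2 * B * B ≤ R ^ 3 * B := by
        have : A ^ 2 * B ≤ R ^ 3 := by
          calc A ^ 2 * B ≤ R ^ 2 * R := mul_le_mul (pow_le_pow_left₀ hA0.le hA 2) hB hB0.le (by positivity)
            _ = R ^ 3 := by ring
        exact mul_le_mul_of_nonneg_right this hB0.le
      nlinarith
    calc Q (a - b) b * (4 * (A * B) ^ 2) = 2 * Q (a - b) b * (2 * (A * B) ^ 2) := by ring
      _ ≤ 2 * Q (a - b) b * (R ^ 3 * (A + B)) := mul_le_mul_of_nonneg_left h7 (by linarith)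
      _ = (A + B) * Q (a - b) b * (2 * R ^ 3) := by ring
  refine h6.trans ?_
  rw [div_le_div_iff₀ (by positivity) (by positivity)]
  calc (A + B) * Q (a - b) b * (2 * A * B)
      ≤ (A + B) * (2 * (A * B) * (A * B - (1 + dt a b))) * (2 * A * B) := by
        apply mul_le_mul_of_nonneg_right _ (by positivity)
        exact mul_le_mul_of_nonneg_left h5 (by positivity)
    _ = (A + B) * (A * B - (1 + dt a b)) * (4 * (A * B) ^ 2) := by ring

lemma sqrt_bound (a : Pt d) (hd : 1 ≤ d) (s : ℝ) (hs : ‖a‖ ≤ s) :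
    Real.sqrt (1 + nsq a) ≤ 1 + d * s := by
  have h0 : 0 ≤ s := (norm_nonneg a).trans hs
  have hd' : (1 : ℝ) ≤ d := by exact_mod_cast hd
  apply Real.sqrt_le_iff.mpr
  refine ⟨by positivity, ?_⟩
  have h1 : nsq a ≤ d * s ^ 2 := by
    unfold nsq
    calc ∑ i, a i ^ 2 ≤ ∑ _i : Fin d, s ^ 2 := by
          refine Finset.sum_le_sum fun i _ => ?_
          have := (norm_le_pi_norm a i).trans hs
          rw [Real.norm_eq_abs] at this
          rw [← sq_abs]
          exact pow_le_pow_left₀ (abs_nonneg _) this 2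
      _ = d * s ^ 2 := by simp
  have h2 : (d : ℝ) * s ^ 2 ≤ (d * s) ^ 2 := by
    rw [mul_pow]
    have : (d : ℝ) ≤ (d : ℝ) ^ 2 := by nlinarith
    exact mul_le_mul_of_nonneg_right this (by positivity)
  nlinarith [mul_nonneg (by linarith : (0 : ℝ) ≤ d) h0]

lemma contOn {E : Set (Pt d)} (hb : Bornology.IsBounded E) {f : Pt d → ℝ} (hf : Continuous f) :
    IntegrableOn f E :=
  (hf.continuousOn.integrableOn_compact hb.isCompact_closure).mono_set subset_closure

lemma cont_sq : Continuous (nsq : Pt d → ℝ) := by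
  unfold nsq; fun_prop

lemma cont_Q (v : Pt d) : Continuous (Q v) := by
  unfold Q dt
  have := cont_sq (d := d)
  fun_prop

lemma cont_w (j : Fin d) : Continuous (w j : Pt d → ℝ) := by
  unfold w
  have h : Continuous fun y : Pt d => 2 * Real.sqrt (1 + ∑ i, y i ^ 2) := by fun_prop
  refine continuous_const.add ((continuous_apply j).div h fun y => ?_)
  have : 0 ≤ ∑ i, y i ^ 2 := Finset.sum_nonneg fun i _ => sq_nonneg _
  have : 0 < Real.sqrt (1 + ∑ i, y i ^ 2) := Real.sqrt_pos.mpr (by linarith)
  positivity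

/-- if `Q v z = 0` and `v ≠ 0` then `z` is a multiple of `v` -/
lemma Q_zero {v z : Pt d} (h : Q v z = 0) (hv : 0 < nsq v) (i j : Fin d) :
    v i * z j = v j * z i := by
  have h1 : ∑ k, (nsq v * z k - dt v z * v k) ^ 2 = 0 := by
    have : ∑ k, (nsq v * z k - dt v z * v k) ^ 2 = nsq v * Q v z := by
      have e : ∀ k, (nsq v * z k - dt v z * v k) ^ 2 =
          nsq v ^ 2 * z k ^ 2 - 2 * nsq v * dt v z * (v k * z k) + dt v z ^ 2 * v k ^ 2 := by
        intro k; ring
      simp_rw [e]
      rw [Finset.sum_add_distrib, Finset.sum_sub_distrib, ← Finset.mul_sum, ← Finset.mul_sum,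
        ← Finset.mul_sum]
      change nsq v ^ 2 * nsq z - 2 * nsq v * dt v z * dt v z + dt v z ^ 2 * nsq v = _
      unfold Q; ring
    rw [this, h, mul_zero]
  have h2 := (Finset.sum_eq_zero_iff_of_nonneg fun k _ => sq_nonneg _).mp h1
  have hi : nsq v * z i - dt v z * v i = 0 := by
    have := h2 i (Finset.mem_univ _); exact pow_eq_zero_iff (two_ne_zero) |>.mp this
  have hj : nsq v * z j - dt v z * v j = 0 := by
    have := h2 j (Finset.mem_univ _); exact pow_eq_zero_iff (two_ne_zero) |>.mp this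
  have h3 : nsq v * (v i * z j - v j * z i) = 0 := by
    linear_combination v i * hj - v j * hi
  rcases mul_eq_zero.mp h3 with h4 | h4
  · exact absurd h4 hv.ne'
  · linarith

lemma sq_pos {v : Pt d} (hv : v ≠ 0) : 0 < nsq v := by
  rcases lt_or_eq_of_le (sq_nonneg' v) with h | h
  · exact h
  · exfalso; apply hv
    have := (Finset.sum_eq_zero_iff_of_nonneg fun k _ => sq_nonneg (v k)).mp h.symm
    funext i
    exact pow_eq_zero_iff (two_ne_zero) |>.mp (this i (Finset.mem_univ _))

end MonAux

namespace MonAux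

variable {d : ℕ}

/-- a hyperplane `{y | v i (y j - m j) = v j (y i - m i)}` is null when `v i ≠ 0`, `i ≠ j` -/
lemma hyper_null (v m : Pt d) (i j : Fin d) (hij : i ≠ j) (hvi : v i ≠ 0) :
    volume {y : Pt d | v i * (y j - m j) = v j * (y i - m i)} = 0 := by
  let l : Pt d →ₗ[ℝ] ℝ := v i • LinearMap.proj j - v j • LinearMap.proj i
  have hl : ∀ z, l z = v i * z j - v j * z i := fun z => rfl
  have hne : LinearMap.ker l ≠ ⊤ := by
    intro h
    have h1 : l (Pi.single j 1) = 0 := by
      rw [← LinearMap.mem_ker, h]; trivial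
    rw [hl] at h1
    simp [hij] at h1
    exact hvi h1
  have h0 : volume (LinearMap.ker l : Set (Pt d)) = 0 :=
    Measure.addHaar_submodule _ _ hne
  have h1 : {y : Pt d | v i * (y j - m j) = v j * (y i - m i)} =
      (fun y => y - m) ⁻¹' (LinearMap.ker l : Set (Pt d)) := by
    ext y
    simp only [Set.mem_ofPred_eq, Set.mem_preimage, SetLike.mem_coe, LinearMap.mem_ker, hl,
      Pi.sub_apply]
    constructor <;> intro h <;> linarith
  rw [h1]
  have h2 : (fun y : Pt d => y - m) = fun y => y + (-m) := by funext y; exact sub_eq_add_neg _ _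
  rw [h2, measure_preimage_add_right, h0]

/-- the mean -/
noncomputable def mean (E : Set (Pt d)) : Pt d := fun i => (∫ y in E, y i) / (volume E).toReal

/-- the reduced form -/
noncomputable def qf (E : Set (Pt d)) (v : Pt d) : ℝ := ∫ y in E, Q v (y - mean E)

lemma vol_ne_top {E : Set (Pt d)} (hb : Bornology.IsBounded E) : volume E ≠ ⊤ :=
  hb.measure_lt_top.ne

lemma vol_pos {E : Set (Pt d)} (hb : Bornology.IsBounded E) (h0 : 0 < volume E) :
    0 < (volume E).toReal := ENNReal.toReal_pos h0.ne' (vol_ne_top hb)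

lemma mean_int {E : Set (Pt d)} (hb : Bornology.IsBounded E) (h0 : 0 < volume E) (i : Fin d) :
    ∫ y in E, (y i - mean E i) = 0 := by
  rw [integral_sub (contOn hb (continuous_apply i)) (contOn hb continuous_const)]
  rw [setIntegral_const]
  unfold mean
  have := vol_pos hb h0
  simp only [smul_eq_mul, Measure.real]
  field_simp
  ring

/-- the variance inequality -/
lemma variance {E : Set (Pt d)} (hb : Bornology.IsBounded E)
    (h0 : 0 < volume E) (v t : Pt d) (r : ℝ) :
    r ^ 2 * qf E v ≤ ∫ y in E, Q v (t + r • y) := by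
  set m := mean E with hm
  set q : Pt d := t + r • m with hq
  -- coefficient vector
  let c : Pt d := fun i => nsq v * q i - dt v q * v i
  have e : ∀ y : Pt d, Q v (t + r • y) =
      r ^ 2 * Q v (y - m) + 2 * r * (∑ i, c i * (y i - m i)) + Q v q := by
    intro y
    have h1 : t + r • y = r • (y - m) + q := by
      rw [hq, smul_sub]; abel
    rw [h1]
    set p := y - m with hp
    have hc : ∑ i, c i * (y i - m i) = nsq v * dt q p - dt v q * dt v p := by
      unfold dt
      rw [Finset.mul_sum, Finset.mul_sum, ← Finset.sum_sub_distrib]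
      refine Finset.sum_congr rfl fun i _ => ?_
      simp only [c, hp, Pi.sub_apply]
      unfold dt
      ring
    rw [hc]
    have hs : nsq (r • p + q) = r ^ 2 * nsq p + 2 * r * dt q p + nsq q := by
      unfold nsq dt
      rw [Finset.mul_sum, Finset.mul_sum, ← Finset.sum_add_distrib, ← Finset.sum_add_distrib]
      refine Finset.sum_congr rfl fun i _ => ?_
      simp only [Pi.add_apply, Pi.smul_apply, smul_eq_mul]; ring
    have hd : dt v (r • p + q) = r * dt v p + dt v q := by
      unfold dt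
      rw [Finset.mul_sum, ← Finset.sum_add_distrib]
      refine Finset.sum_congr rfl fun i _ => ?_
      simp only [Pi.add_apply, Pi.smul_apply, smul_eq_mul]; ring
    unfold Q
    rw [hs, hd]; ring
  simp_rw [e]
  have hi1 : IntegrableOn (fun y => r ^ 2 * Q v (y - m)) E :=
    contOn hb (continuous_const.mul ((cont_Q v).comp (continuous_id.sub continuous_const)))
  have hi2 : IntegrableOn (fun y : Pt d => 2 * r * (∑ i, c i * (y i - m i))) E :=
    contOn hb (by fun_prop)
  have hi3 : IntegrableOn (fun _ : Pt d => Q v q) E := contOn hb continuous_const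
  have hi12 : IntegrableOn (fun y : Pt d => r ^ 2 * Q v (y - m) +
      2 * r * (∑ i, c i * (y i - m i))) E := hi1.add hi2
  rw [integral_add hi12 hi3, integral_add hi1 hi2]
  have z : ∫ y in E, 2 * r * (∑ i, c i * (y i - m i)) = 0 := by
    rw [integral_const_mul, integral_finsetSum]
    · have : ∀ i, ∫ y in E, c i * (y i - m i) = 0 := by
        intro i
        rw [integral_const_mul, mean_int hb h0, mul_zero]
      simp [this]
    · intro i _
      exact contOn hb (by fun_prop)
  rw [z, integral_const_mul, setIntegral_const]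
  have : 0 ≤ (volume.real E) • Q v q := smul_nonneg measureReal_nonneg (Q_nonneg _ _)
  unfold qf
  linarith

lemma qf_cont {E : Set (Pt d)} (hb : Bornology.IsBounded E) : Continuous (qf E) := by
  have e : qf E = fun v => nsq v * (∫ y in E, nsq (y - mean E)) -
      ∑ i, ∑ j, v i * v j * (∫ y in E, (y i - mean E i) * (y j - mean E j)) := by
    funext v
    have e1 : ∀ y : Pt d, Q v (y - mean E) = nsq v * nsq (y - mean E) -
        ∑ i, ∑ j, v i * v j * ((y i - mean E i) * (y j - mean E j)) := by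
      intro y
      unfold Q
      congr 1
      unfold dt
      rw [pow_two, Finset.sum_mul_sum]
      refine Finset.sum_congr rfl fun i _ => Finset.sum_congr rfl fun j _ => ?_
      simp only [Pi.sub_apply]; ring
    unfold qf
    simp_rw [e1]
    rw [integral_sub, integral_const_mul, integral_finsetSum]
    · congr 1
      refine Finset.sum_congr rfl fun i _ => ?_
      rw [integral_finsetSum]
      · refine Finset.sum_congr rfl fun j _ => ?_
        rw [integral_const_mul]
      · intro j _; exact contOn hb (by fun_prop)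
    · intro i _; exact contOn hb (by fun_prop)
    · exact contOn hb (continuous_const.mul (cont_sq.comp (continuous_id.sub continuous_const)))
    · exact contOn hb (by fun_prop)
  rw [e]
  have := cont_sq (d := d)
  fun_prop

lemma qf_pos (hd : 2 ≤ d) {E : Set (Pt d)} (hE : MeasurableSet E) (hb : Bornology.IsBounded E)
    (h0 : 0 < volume E) {v : Pt d} (hv : v ≠ 0) : 0 < qf E v := by
  have hcont : Continuous fun y : Pt d => Q v (y - mean E) :=
    (cont_Q v).comp (continuous_id.sub continuous_const)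
  have hn : 0 ≤ qf E v := integral_nonneg fun y => Q_nonneg _ _
  rcases lt_or_eq_of_le hn with h | h
  · exact h
  · exfalso
    have h1 : (fun y => Q v (y - mean E)) =ᵐ[volume.restrict E] 0 :=
      (setIntegral_eq_zero_iff_of_nonneg_ae (Filter.Eventually.of_forall fun y => Q_nonneg _ _)
        (contOn hb hcont)).mp h.symm
    obtain ⟨i, hi⟩ : ∃ i, v i ≠ 0 := by
      by_contra hcon; push Not at hcon; exact hv (funext hcon)
    obtain ⟨j, hj⟩ : ∃ j : Fin d, i ≠ j := by
      have : Nontrivial (Fin d) := Fin.nontrivial_iff_two_le.mpr hd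
      obtain ⟨j, hj⟩ := exists_ne i
      exact ⟨j, hj.symm⟩
    have h2 : E ≤ᵐ[volume] {y : Pt d | v i * (y j - mean E j) = v j * (y i - mean E i)} := by
      rw [Filter.EventuallyEq, ae_restrict_iff' hE] at h1
      filter_upwards [h1] with y hy hyE
      have := hy hyE
      exact Q_zero this (sq_pos hv) i j
    have h3 := measure_mono_ae h2
    rw [hyper_null v (mean E) i j hj hi] at h3
    exact absurd h3 (not_le.mpr h0)

lemma qf_smul (E : Set (Pt d)) (t : ℝ) (v : Pt d) : qf E (t • v) = t ^ 2 * qf E v := by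
  unfold qf
  rw [← integral_const_mul]
  congr 1
  funext y
  unfold Q nsq dt
  simp only [Pi.smul_apply, smul_eq_mul, mul_pow]
  rw [← Finset.mul_sum]
  have : ∑ i, t * v i * (y - mean E) i = t * ∑ i, v i * (y - mean E) i := by
    rw [Finset.mul_sum]; refine Finset.sum_congr rfl fun i _ => ?_; ring
  rw [this]; ring

lemma sq_le (v : Pt d) : nsq v ≤ d * ‖v‖ ^ 2 := by
  unfold nsq
  calc ∑ i, v i ^ 2 ≤ ∑ _i : Fin d, ‖v‖ ^ 2 := by
        refine Finset.sum_le_sum fun i _ => ?_
        have := norm_le_pi_norm v i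
        rw [Real.norm_eq_abs] at this
        rw [← sq_abs]
        exact pow_le_pow_left₀ (abs_nonneg _) this 2
    _ = d * ‖v‖ ^ 2 := by simp

lemma qf_lower (hd : 2 ≤ d) {E : Set (Pt d)} (hE : MeasurableSet E) (hb : Bornology.IsBounded E)
    (h0 : 0 < volume E) : ∃ c : ℝ, 0 < c ∧ ∀ v : Pt d, c * nsq v ≤ qf E v := by
  have : Nontrivial (Fin d) := Fin.nontrivial_iff_two_le.mpr hd
  have : Nonempty (Fin d) := ⟨⟨0, by omega⟩⟩
  have hd0 : (0 : ℝ) < d := by exact_mod_cast (by omega : 0 < d)
  have hne : (Metric.sphere (0 : Pt d) 1).Nonempty := NormedSpace.sphere_nonempty.mpr zero_le_one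
  obtain ⟨u, hu, hmin⟩ := (isCompact_sphere (0 : Pt d) 1).exists_isMinOn hne
    (qf_cont hb).continuousOn
  have hu0 : u ≠ 0 := by
    rintro rfl; simp at hu
  have hq := qf_pos hd hE hb h0 hu0
  refine ⟨qf E u / d, by positivity, fun v => ?_⟩
  by_cases hv : v = 0
  · subst hv
    have : nsq (0 : Pt d) = 0 := by simp [nsq]
    rw [this, mul_zero]
    exact integral_nonneg fun y => Q_nonneg _ _
  · have hn : 0 < ‖v‖ := norm_pos_iff.mpr hv
    have h1 : qf E u ≤ qf E (‖v‖⁻¹ • v) := by
      refine hmin ?_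
      simp [norm_smul, hn.ne']
    rw [qf_smul] at h1
    have h2 : qf E u * ‖v‖ ^ 2 ≤ qf E v := by
      calc qf E u * ‖v‖ ^ 2 ≤ ((‖v‖⁻¹) ^ 2 * qf E v) * ‖v‖ ^ 2 :=
            mul_le_mul_of_nonneg_right h1 (by positivity)
        _ = qf E v := by field_simp
    calc qf E u / d * nsq v ≤ qf E u / d * (d * ‖v‖ ^ 2) :=
          mul_le_mul_of_nonneg_left (sq_le v) (by positivity)
      _ = qf E u * ‖v‖ ^ 2 := by field_simp
      _ ≤ qf E v := h2

end MonAux

open MonAux in
/-- quantitative monotonicity of the profile map -/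
theorem mon (d : ℕ) (hd : 2 ≤ d) : StMon d := by
  intro E hE hb h0
  obtain ⟨c2, hc2, hlow⟩ := qf_lower hd hE hb h0
  obtain ⟨L, hL0, hL⟩ : ∃ L : ℝ, 0 ≤ L ∧ ∀ y ∈ E, ‖y‖ ≤ L := by
    obtain ⟨L, hL⟩ := hb.exists_norm_le
    exact ⟨max L 0, le_max_right _ _, fun y hy => (hL y hy).trans (le_max_left _ _)⟩
  set C1 : ℝ := 1 + d + d * L with hC1
  have hC1pos : 0 < C1 := by positivity
  refine ⟨c2 / (2 * C1 ^ 3), by positivity, fun r hr x x' hxx => ?_⟩
  have hr0 : 0 < r := by linarith
  set R : ℝ := C1 * (r + ‖x‖) with hR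
  have hRpos : 0 < R := by have := norm_nonneg x; positivity
  set v : Pt d := x - x' with hv
  have hd1 : 1 ≤ d := by omega
  have hd' : (0 : ℝ) ≤ d := by positivity
  -- the left-hand side as an integral
  have hci : ∀ (j : Fin d) (z : Pt d), Continuous fun y : Pt d => w j (z + r • y) := by
    intro j z
    have h : Continuous fun y : Pt d => z + r • y := by fun_prop
    exact (cont_w j).comp h
  have hint : ∑ j, (P E (w j) r x - P E (w j) r x') * (x j - x' j) =
      r ^ d * ∫ y in E, ∑ j, (w j (x + r • y) - w j (x' + r • y)) * (x j - x' j) := by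
    rw [integral_finsetSum, Finset.mul_sum]
    · refine Finset.sum_congr rfl fun j _ => ?_
      rw [integral_mul_const, integral_sub (contOn hb (hci j x)) (contOn hb (hci j x'))]
      unfold P; ring
    · intro j _
      exact contOn hb (((hci j x).sub (hci j x')).mul continuous_const)
  rw [hint]
  have hpt : ∀ y ∈ E, Q v (x' + r • y) / (2 * R ^ 3) ≤
      ∑ j, (w j (x + r • y) - w j (x' + r • y)) * (x j - x' j) := by
    intro y hy
    have hab : (x + r • y) - (x' + r • y) = v := by rw [hv]; abel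
    have hny : ‖r • y‖ ≤ r * L := by
      rw [norm_smul, Real.norm_eq_abs, abs_of_pos hr0]
      exact mul_le_mul_of_nonneg_left (hL y hy) hr0.le
    have hx' : ‖x'‖ ≤ ‖x‖ + 1 := by
      have := norm_sub_norm_le x' x
      rw [norm_sub_rev] at this
      linarith
    have hx0 := norm_nonneg x
    have hbig : 1 + d * (‖x‖ + 1 + r * L) ≤ R := by
      rw [hR, hC1]
      nlinarith [mul_nonneg hd' hx0, mul_nonneg hd' hL0, mul_nonneg (mul_nonneg hd' hL0) hx0,
        mul_nonneg hd' (by linarith : (0 : ℝ) ≤ r - 1)]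
    have hA : Real.sqrt (1 + nsq (x + r • y)) ≤ R := by
      refine (sqrt_bound _ hd1 (‖x‖ + 1 + r * L) ?_).trans hbig
      have := norm_add_le x (r • y); linarith
    have hB : Real.sqrt (1 + nsq (x' + r • y)) ≤ R := by
      refine (sqrt_bound _ hd1 (‖x‖ + 1 + r * L) ?_).trans hbig
      have := norm_add_le x' (r • y); linarith
    have h := pointwise (x + r • y) (x' + r • y) R hA hB
    rw [hab] at h
    refine h.trans (le_of_eq ?_)
    refine Finset.sum_congr rfl fun j _ => ?_
    simp only [Pi.add_apply]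
    ring
  have hI1 : IntegrableOn (fun y => Q v (x' + r • y) / (2 * R ^ 3)) E := by
    refine contOn hb ?_
    have h : Continuous fun y : Pt d => x' + r • y := by fun_prop
    exact ((cont_Q v).comp h).div_const _
  have hI2 : IntegrableOn (fun y => ∑ j, (w j (x + r • y) - w j (x' + r • y)) * (x j - x' j)) E := by
    refine contOn hb ?_
    refine continuous_finsetSum _ fun j _ => ?_
    exact ((hci j x).sub (hci j x')).mul continuous_const
  have h1 := setIntegral_mono_on hI1 hI2 hE hpt
  have h2 : ∫ y in E, Q v (x' + r • y) / (2 * R ^ 3) =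
      (∫ y in E, Q v (x' + r • y)) / (2 * R ^ 3) := integral_div _ _
  rw [h2] at h1
  have h3 := variance hb h0 v x' r
  have h4 := hlow v
  have h5 : r ^ 2 * (c2 * nsq v) / (2 * R ^ 3) ≤
      ∫ y in E, ∑ j, (w j (x + r • y) - w j (x' + r • y)) * (x j - x' j) := by
    refine le_trans ?_ h1
    apply div_le_div_of_nonneg_right _ (by positivity)
    exact (mul_le_mul_of_nonneg_left h4 (by positivity)).trans h3
  calc c2 / (2 * C1 ^ 3) * (r ^ (d + 2) / (r + ‖x‖) ^ 3) * ∑ j, (x j - x' j) ^ 2
      = r ^ d * (r ^ 2 * (c2 * nsq v) / (2 * R ^ 3)) := by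
        have hx0 := norm_nonneg x
        have : r + ‖x‖ ≠ 0 := by positivity
        have e : ∑ j, (x j - x' j) ^ 2 = nsq v := rfl
        rw [e, hR]
        field_simp
        ring
    _ ≤ _ := mul_le_mul_of_nonneg_left h5 (by positivity)

end Pool.Agent.R286.MG
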