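import Pool.Agent.R286.MG.Stm

/-! MP_b01677_an, piece PHI: elementary properties of the tensor bumps. -/

set_option autoImplicit false

open MeasureTheory Finset

namespace Pool.Agent.R286.MG

namespace PhiAux

theorem prod_lip {ι : Type*} [DecidableEq ι] (s : Finset ι) (a b : ι → ℝ)
    (ha : ∀ i, 0 ≤ a i ∧ a i ≤ 1) (hb : ∀ i, 0 ≤ b i ∧ b i ≤ 1) :
    |∏ i ∈ s, a i - ∏ i ∈ s, b i| ≤ ∑ i ∈ s, |a i - b i| := by
  induction s using Finset.induction_on with
  | empty => simp
  | insert j s hj ih =>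
    rw [prod_insert hj, prod_insert hj, sum_insert hj]
    have e1 : a j * ∏ i ∈ s, a i - b j * ∏ i ∈ s, b i =
        (a j - b j) * ∏ i ∈ s, a i + b j * (∏ i ∈ s, a i - ∏ i ∈ s, b i) := by ring
    rw [e1]
    have h1 : |∏ i ∈ s, a i| ≤ 1 := by
      rw [abs_of_nonneg (prod_nonneg fun i _ => (ha i).1)]
      exact prod_le_one (fun i _ => (ha i).1) fun i _ => (ha i).2
    have h2 : |b j| ≤ 1 := by
      rw [abs_of_nonneg (hb j).1]
      exact (hb j).2
    refine (abs_add_le _ _).trans (add_le_add ?_ ?_)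
    · rw [abs_mul]
      exact mul_le_of_le_one_right (abs_nonneg _) h1
    · rw [abs_mul]
      calc |b j| * |∏ i ∈ s, a i - ∏ i ∈ s, b i| ≤ 1 * |∏ i ∈ s, a i - ∏ i ∈ s, b i| :=
            mul_le_mul_of_nonneg_right h2 (abs_nonneg _)
        _ ≤ _ := by rw [one_mul]; exact ih

variable {κ κ' : ℝ → ℝ} {C : ℝ}

theorem kcont (h : Bump κ κ' C) : Continuous κ :=
  continuous_iff_continuousAt.2 fun t => (h.hder t).continuousAt

theorem kcont' (h : Bump κ κ' C) : Continuous κ' := by
  have h1 : LipschitzWith (Real.toNNReal C) κ' := by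
    refine LipschitzWith.of_dist_le_mul fun s t => ?_
    rw [Real.dist_eq, Real.dist_eq, Real.coe_toNNReal _ (by linarith [h.hC])]
    exact h.hlip s t
  exact h1.continuous

theorem klip (h : Bump κ κ' C) (s t : ℝ) : |κ s - κ t| ≤ C * |s - t| := by
  have := convex_univ.norm_image_sub_le_of_norm_hasDerivWithin_le (f := κ) (f' := κ') (C := C)
    (fun x _ => (h.hder x).hasDerivWithinAt) (fun x _ => by
      rw [Real.norm_eq_abs]
      exact h.hbd x) (Set.mem_univ t) (Set.mem_univ s)
  rwa [Real.norm_eq_abs, Real.norm_eq_abs] at this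

theorem supp_k (h : Bump κ κ' C) {t : ℝ} (ht : κ t ≠ 0) : 0 < t ∧ t < 5 := by
  constructor
  · by_contra hc
    exact ht (h.hsupp t (Or.inl (not_lt.1 hc))).1
  · by_contra hc
    exact ht (h.hsupp t (Or.inr (not_lt.1 hc))).1

theorem supp_k' (h : Bump κ κ' C) {t : ℝ} (ht : κ' t ≠ 0) : 0 < t ∧ t < 5 := by
  constructor
  · by_contra hc
    exact ht (h.hsupp t (Or.inl (not_lt.1 hc))).2
  · by_contra hc
    exact ht (h.hsupp t (Or.inr (not_lt.1 hc))).2

theorem prod_le1 (h : Bump κ κ' C) {ι : Type*} (s : Finset ι) (a : ι → ℝ) :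
    0 ≤ ∏ i ∈ s, κ (a i) ∧ ∏ i ∈ s, κ (a i) ≤ 1 :=
  ⟨prod_nonneg fun _ _ => (h.h01 _).1, prod_le_one (fun _ _ => (h.h01 _).1) fun _ _ => (h.h01 _).2⟩

theorem int_k (h : Bump κ κ' C) (a b : ℝ) (ha : 0 < a) :
    ∫ t : ℝ, κ (a * t + b) ^ 2 = (∫ t in (0 : ℝ)..5, κ t ^ 2) / a := by
  have e1 : (fun t : ℝ => κ (a * t + b) ^ 2) = fun t : ℝ => (fun u => κ (u + b) ^ 2) (a * t) := rfl
  rw [e1, Measure.integral_comp_mul_left (fun u => κ (u + b) ^ 2) a,
    integral_add_right_eq_self (fun u => κ u ^ 2) b, abs_of_pos (inv_pos.2 ha), smul_eq_mul,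
    inv_mul_eq_div]
  congr 1
  rw [intervalIntegral.integral_of_le (by norm_num : (0 : ℝ) ≤ 5)]
  symm
  refine setIntegral_eq_integral_of_forall_compl_eq_zero fun x hx => ?_
  have : κ x = 0 := by
    refine (h.hsupp x ?_).1
    rw [Set.mem_Ioc, not_and_or, not_lt, not_le] at hx
    rcases hx with hx | hx
    · exact Or.inl hx
    · exact Or.inr hx.le
  rw [this]
  norm_num

end PhiAux

open PhiAux

theorem phi : StPhi := by
  classical
  intro κ κ' C h d k m hm
  have hmR : (1 : ℝ) ≤ m := by exact_mod_cast hm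
  have hm0 : (0 : ℝ) < m := by linarith
  have hC0 : 0 < C := by linarith [h.hC]
  have hk := kcont h
  have hk' := kcont' h
  have hφc : ∀ q, Continuous (φ κ k m q) := by
    intro q
    unfold φ
    exact continuous_finsetProd _ fun i _ => hk.comp (by fun_prop)
  have hdφc : ∀ q i, Continuous (dφ κ κ' k m q i) := by
    intro q i
    unfold dφ
    exact ((continuous_const.mul (hk'.comp (by fun_prop)))).mul
      (continuous_finsetProd _ fun i _ => hk.comp (by fun_prop))
  have hsuppφ : ∀ q y, φ κ k m q y ≠ 0 →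
      ∀ i, ((q i : ℕ) : ℝ) < m * (y i - k i) ∧ m * (y i - k i) < (q i : ℕ) + 1 := by
    intro q y hne i
    have h1 : κ (5 * (m * (y i - k i) - (q i : ℕ))) ≠ 0 := by
      intro h0
      exact hne (prod_eq_zero (mem_univ i) h0)
    have h2 := supp_k h h1
    constructor <;> linarith [h2.1, h2.2]
  refine ⟨hφc, hdφc, fun q y => prod_le1 h univ _, fun q y hne _ => hsuppφ q y hne, ?_, ?_, ?_,
    ?_, ?_, ?_⟩
  · intro q i y hne i'
    unfold dφ at hne
    have h1 : κ' (5 * (m * (y i - k i) - (q i : ℕ))) ≠ 0 := by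
      intro h0
      apply hne
      rw [h0]
      ring
    have h2 : ∏ i' ∈ univ.erase i, κ (5 * (m * (y i' - k i') - (q i' : ℕ))) ≠ 0 := by
      intro h0
      apply hne
      rw [h0, mul_zero]
    by_cases hi : i' = i
    · subst hi
      have h3 := supp_k' h h1
      constructor <;> linarith [h3.1, h3.2]
    · have h3 := supp_k h (prod_ne_zero_iff.1 h2 i' (mem_erase.2 ⟨hi, mem_univ _⟩))
      constructor <;> linarith [h3.1, h3.2]
  · intro q q' y hqq
    by_contra hcon
    rw [mul_eq_zero, not_or] at hcon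
    apply hqq
    funext i
    have h1 := hsuppφ q y hcon.1 i
    have h2 := hsuppφ q' y hcon.2 i
    have h3 : ((q i : ℕ) : ℝ) < (q' i : ℕ) + 1 := by linarith [h1.1, h2.2]
    have h4 : ((q' i : ℕ) : ℝ) < (q i : ℕ) + 1 := by linarith [h2.1, h1.2]
    have h5 : (q i : ℕ) < (q' i : ℕ) + 1 := by exact_mod_cast h3
    have h6 : (q' i : ℕ) < (q i : ℕ) + 1 := by exact_mod_cast h4
    exact Fin.ext (by omega)
  · intro q
    have h1 : ∫ y in cell k, φ κ k m q y ^ 2 = ∫ y, φ κ k m q y ^ 2 := by
      refine setIntegral_eq_integral_of_forall_compl_eq_zero fun y hy => ?_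
      by_contra hne
      have hne' : φ κ k m q y ≠ 0 := by
        intro h0
        apply hne
        rw [h0]
        norm_num
      apply hy
      intro i
      have h2 := hsuppφ q y hne' i
      have h3 : ((q i : ℕ) : ℝ) + 1 ≤ m := by exact_mod_cast (q i).2
      have h4 : (0 : ℝ) ≤ ((q i : ℕ) : ℝ) := Nat.cast_nonneg _
      have h5 : 0 < m * (y i - k i) := by linarith
      have h6 : 0 < y i - k i := (mul_pos_iff_of_pos_left hm0).1 h5
      have h7 : m * (y i - k i) < m * 1 := by linarith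
      have h8 : y i - k i < 1 := lt_of_mul_lt_mul_left h7 hm0.le
      constructor <;> linarith
    rw [h1]
    have h2 : ∀ y : Pt d, φ κ k m q y ^ 2 =
        ∏ i, (fun (i : Fin d) (t : ℝ) => κ ((5 * m) * t + (-(5 * m * k i) - 5 * (q i : ℕ))) ^ 2)
          i (y i) := by
      intro y
      unfold φ
      rw [← prod_pow]
      refine prod_congr rfl fun i _ => ?_
      simp only
      congr 2
      ring
    simp_rw [h2]
    rw [integral_fintype_prod_volume_eq_prod
      (fun (i : Fin d) (t : ℝ) => κ ((5 * m) * t + (-(5 * m * k i) - 5 * (q i : ℕ))) ^ 2)]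
    rw [prod_congr rfl fun i _ => int_k h (5 * m) _ (by positivity), prod_const, card_univ,
      Fintype.card_fin]
  · intro q y y'
    have hder : ∀ s : ℝ, HasDerivAt (fun s : ℝ => φ κ k m q (y' + s • (y - y')))
        (∑ i, (y i - y' i) * dφ κ κ' k m q i (y' + s • (y - y'))) s := by
      intro s
      have h1 : ∀ i ∈ (univ : Finset (Fin d)), HasDerivAt
          (fun s : ℝ => κ (5 * (m * ((y' i + s * (y i - y' i)) - k i) - (q i : ℕ))))
          (κ' (5 * (m * ((y' i + s * (y i - y' i)) - k i) - (q i : ℕ))) *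
            (5 * m * (y i - y' i))) s := by
        intro i _
        have h2 : HasDerivAt (fun s : ℝ => 5 * (m * ((y' i + s * (y i - y' i)) - k i) -
            ((q i : ℕ) : ℝ))) (5 * m * (y i - y' i)) s := by
          have h3 := ((hasDerivAt_id s).mul_const (5 * m * (y i - y' i))).add_const
            (5 * (m * (y' i - k i) - ((q i : ℕ) : ℝ)))
          rw [one_mul] at h3
          refine h3.congr_of_eventuallyEq (Filter.Eventually.of_forall fun t => ?_)
          simp only [id]
          ring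
        exact (h.hder _).comp s h2
      have h4 := HasDerivAt.fun_finsetProd h1
      refine h4.congr_deriv ?_
      refine sum_congr rfl fun i _ => ?_
      unfold dφ
      simp only [Pi.add_apply, Pi.smul_apply, Pi.sub_apply, smul_eq_mul]
      ring
    have h5 : IntervalIntegrable (fun s : ℝ => ∑ i, (y i - y' i) *
        dφ κ κ' k m q i (y' + s • (y - y'))) volume 0 1 := by
      refine Continuous.intervalIntegrable ?_ _ _
      refine continuous_finsetSum _ fun i _ => continuous_const.mul ((hdφc q i).comp ?_)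
      fun_prop
    rw [intervalIntegral.integral_eq_sub_of_hasDerivAt (fun s _ => hder s) h5]
    simp only [one_smul, zero_smul, add_zero, add_sub_cancel]
  · intro q i y
    unfold dφ
    have h1 := prod_le1 h (univ.erase i) (fun i' => 5 * (m * (y i' - k i') - ((q i' : ℕ) : ℝ)))
    rw [abs_mul, abs_mul, abs_of_nonneg (by positivity : (0 : ℝ) ≤ 5 * m), abs_of_nonneg h1.1]
    calc _ ≤ 5 * m * C * 1 := by
          refine mul_le_mul (mul_le_mul_of_nonneg_left (h.hbd _) (by positivity)) h1.2 h1.1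
            (by positivity)
      _ = _ := by ring
  · intro q i y y'
    have hn : ∀ j, |y j - y' j| ≤ ‖y - y'‖ := by
      intro j
      rw [← Pi.sub_apply, ← Real.norm_eq_abs]
      exact norm_le_pi_norm (y - y') j
    have harg : ∀ j, |5 * (m * (y j - k j) - ((q j : ℕ) : ℝ)) -
        5 * (m * (y' j - k j) - ((q j : ℕ) : ℝ))| ≤ 5 * m * ‖y - y'‖ := by
      intro j
      have e1 : 5 * (m * (y j - k j) - ((q j : ℕ) : ℝ)) -
        5 * (m * (y' j - k j) - ((q j : ℕ) : ℝ)) = 5 * m * (y j - y' j) := by ring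
      rw [e1, abs_mul, abs_of_nonneg (by positivity : (0 : ℝ) ≤ 5 * m)]
      exact mul_le_mul_of_nonneg_left (hn j) (by positivity)
    set N := ‖y - y'‖ with hN
    have hN0 : 0 ≤ N := norm_nonneg _
    set A : Fin d → ℝ := fun j => 5 * (m * (y j - k j) - ((q j : ℕ) : ℝ)) with hA
    set B : Fin d → ℝ := fun j => 5 * (m * (y' j - k j) - ((q j : ℕ) : ℝ)) with hB
    have hgoal : dφ κ κ' k m q i y - dφ κ κ' k m q i y' =
        5 * m * ((κ' (A i) - κ' (B i)) * ∏ j ∈ univ.erase i, κ (A j) +
          κ' (B i) * (∏ j ∈ univ.erase i, κ (A j) - ∏ j ∈ univ.erase i, κ (B j))) := by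
      unfold dφ
      ring
    rw [hgoal, abs_mul, abs_of_nonneg (by positivity : (0 : ℝ) ≤ 5 * m)]
    have hd1 : 1 ≤ d := by
      have := i.2
      omega
    have hdR : (1 : ℝ) ≤ d := by exact_mod_cast hd1
    have h1 : |(κ' (A i) - κ' (B i)) * ∏ j ∈ univ.erase i, κ (A j)| ≤ C * (5 * m * N) := by
      rw [abs_mul]
      have h2 := prod_le1 h (univ.erase i) A
      calc _ ≤ (C * (5 * m * N)) * 1 := by
            refine mul_le_mul ?_ ?_ (abs_nonneg _) (by positivity)
            · exact (h.hlip _ _).trans (mul_le_mul_of_nonneg_left (harg i) hC0.le)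
            · rw [abs_of_nonneg h2.1]
              exact h2.2
        _ = _ := by ring
    have h3 : |κ' (B i) * (∏ j ∈ univ.erase i, κ (A j) - ∏ j ∈ univ.erase i, κ (B j))| ≤
        C * ((d - 1) * (C * (5 * m * N))) := by
      rw [abs_mul]
      refine mul_le_mul (h.hbd _) ?_ (abs_nonneg _) hC0.le
      refine (prod_lip (univ.erase i) (fun j => κ (A j)) (fun j => κ (B j))
        (fun j => h.h01 _) (fun j => h.h01 _)).trans ?_
      calc ∑ j ∈ univ.erase i, |κ (A j) - κ (B j)| ≤ ∑ _j ∈ univ.erase i, C * (5 * m * N) := by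
            refine sum_le_sum fun j _ => ?_
            exact (klip h _ _).trans (mul_le_mul_of_nonneg_left (harg j) hC0.le)
        _ = (d - 1) * (C * (5 * m * N)) := by
            rw [sum_const, card_erase_of_mem (mem_univ i), card_univ, Fintype.card_fin,
              nsmul_eq_mul, Nat.cast_sub hd1, Nat.cast_one]
    calc 5 * m * |(κ' (A i) - κ' (B i)) * ∏ j ∈ univ.erase i, κ (A j) +
          κ' (B i) * (∏ j ∈ univ.erase i, κ (A j) - ∏ j ∈ univ.erase i, κ (B j))|
        ≤ 5 * m * (C * (5 * m * N) + C * ((d - 1) * (C * (5 * m * N)))) := by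
          refine mul_le_mul_of_nonneg_left ?_ (by positivity)
          exact (abs_add_le _ _).trans (add_le_add h1 h3)
      _ = 25 * m ^ 2 * N * C * (1 + (d - 1) * C) := by ring
      _ ≤ 25 * m ^ 2 * N * C * (d * C) := by
          refine mul_le_mul_of_nonneg_left ?_ (by positivity)
          nlinarith [h.hC]
      _ = 25 * d * C ^ 2 * m ^ 2 * N := by ring

end Pool.Agent.R286.MG
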